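import Pool.Agent.Lib.OWC.Pseudo
import Pool.Agent.Lib.Pe46137.Core

/-!
# Vec: the dual vector of a pebbling functional

Copy of `Pe46137/Nice.lean` (from `avg_vec_chi` on) with an abstract functional `pe` instead of the
concrete one (`Pseudo` has exactly the properties `pe_nonneg`, `pe_le_one`, `pe_empty`, `pe_move`,
`pe_last` used there), and with an arc `o : Option ℕ` (`none` = no arc) instead of `i : ℕ`.
-/

namespace Pool.Agent.Lib.OWC

open Finset Pool.Agent.Lib.Pe46137

variable {d l : ℕ} {pe : Finset (Fin l) → ℝ}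

theorem Pseudo.abs_pHat_le (hp : Pseudo d l pe) (U : Finset (Fin l)) :
    |pHat pe U| ≤ 3 ^ U.card := by
  unfold pHat
  refine le_trans (abs_sum_le_sum_abs _ _) ?_
  have h := sum_pow_mul_eq_add_pow (2 : ℝ) 1 U
  norm_num at h
  rw [← h]
  refine sum_le_sum fun T _ => ?_
  rw [abs_mul, abs_pow, abs_neg, abs_of_pos (by norm_num : (0 : ℝ) < 2),
    abs_of_nonneg (hp.nonneg T)]
  exact mul_le_of_le_one_right (by positivity) (hp.le_one T)

theorem Pseudo.pHat_empty (hp : Pseudo d l pe) : pHat pe ∅ = 1 := by
  simp [pHat, hp.empty]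

theorem Pseudo.abs_pHat_single_le (hp : Pseudo d l pe) (i : Fin l) : |pHat pe {i}| ≤ 1 := by
  have h : pHat pe {i} = 1 - 2 * pe {i} := by
    unfold pHat
    rw [← insert_empty_eq, sum_powerset_insert (notMem_empty i)]
    simp [hp.empty]
    ring
  have h1 := hp.nonneg {i}
  have h2 := hp.le_one {i}
  rw [h, abs_le]
  constructor <;> linarith

theorem avg_pvec_chi {T : Finset (Fin l)} (hT : T.card ≤ d) :
    avg (fun y => pvec d pe y * chi T y) = pHat pe T := by
  have h1 : (fun y => pvec d pe y * chi T y) =
      fun y => ∑ U : Finset (Fin l) with U.card ≤ d, pHat pe U * (chi U y * chi T y) := by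
    funext y
    unfold pvec
    rw [sum_mul]
    exact sum_congr rfl fun U _ => by ring
  rw [h1, avg_sum]
  simp_rw [avg_const_mul, avg_chi_mul]
  rw [sum_eq_single T]
  · simp
  · intro b _ hb
    simp [hb]
  · intro h
    simp [hT] at h

theorem avg_pvec_mono {U : Finset (Fin l)} (hU : U.card ≤ d) :
    avg (fun y => pvec d pe y * mono U y) = pe U := by
  have h1 : (fun y => pvec d pe y * mono U y) =
      fun y => (1 / 2) ^ U.card * ∑ T ∈ U.powerset, (-1) ^ T.card * (pvec d pe y * chi T y) := by
    funext y
    rw [mono_eq_sum_chi]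
    rw [mul_left_comm, mul_sum]
    congr 1
    exact sum_congr rfl fun T _ => by ring
  rw [h1, avg_const_mul, avg_sum]
  have h2 : ∀ T ∈ U.powerset, avg (fun y => (-1) ^ T.card * (pvec d pe y * chi T y)) =
      (-1) ^ T.card * ∑ S ∈ T.powerset, (fun S : Finset (Fin l) => (-2) ^ S.card * pe S) S := by
    intro T hT
    rw [avg_const_mul, avg_pvec_chi (le_trans (card_le_card (mem_powerset.mp hT)) hU)]
    rfl
  rw [sum_congr rfl h2, moebius]
  rw [← mul_assoc, ← mul_assoc, ← mul_pow, ← mul_pow]
  norm_num

theorem avg_pvec_sq_le (hp : Pseudo d l pe) :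
    avg (fun y : Fin l → Bool => pvec d pe y * pvec d pe y) ≤ (9 * l + 1) ^ d := by
  have h1 : (fun y : Fin l → Bool => pvec d pe y * pvec d pe y) =
      fun y => ∑ U : Finset (Fin l) with U.card ≤ d, pHat pe U * (pvec d pe y * chi U y) := by
    funext y
    conv_lhs => rw [mul_comm]
    conv_lhs => enter [1]; unfold pvec
    rw [sum_mul]
    exact sum_congr rfl fun U _ => by ring
  rw [h1, avg_sum]
  have h2 : ∀ U ∈ (univ.filter (fun U : Finset (Fin l) => U.card ≤ d)),
      avg (fun y => pHat pe U * (pvec d pe y * chi U y)) ≤ 9 ^ U.card := by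
    intro U hU
    rw [avg_const_mul, avg_pvec_chi (by simpa using hU)]
    have := hp.abs_pHat_le U
    have h3 : pHat pe U * pHat pe U = |pHat pe U| ^ 2 := by rw [sq_abs]; ring
    rw [h3]
    calc |pHat pe U| ^ 2 ≤ (3 ^ U.card) ^ 2 := by gcongr
      _ = 9 ^ U.card := by rw [← pow_mul, mul_comm, pow_mul]; norm_num
  refine le_trans (sum_le_sum h2) ?_
  have h3 : ∑ U : Finset (Fin l) with U.card ≤ d, (9 : ℝ) ^ U.card =
      ∑ j ∈ range (d + 1), (l.choose j : ℝ) * 9 ^ j := by
    rw [← sum_fiberwise_of_maps_to (s := univ.filter (fun U : Finset (Fin l) => U.card ≤ d))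
      (t := range (d + 1)) (g := fun U => U.card) (by
        intro U hU; simp at hU; simp; omega)]
    refine sum_congr rfl fun j hj => ?_
    rw [sum_congr rfl (g := fun _ => (9 : ℝ) ^ j) (by
      intro U hU; simp at hU; rw [hU.2])]
    rw [sum_const, nsmul_eq_mul]
    congr 2
    have : (univ.filter (fun U : Finset (Fin l) => U.card ≤ d)).filter (fun U => U.card = j)
        = powersetCard j univ := by
      ext U
      simp only [mem_filter, mem_univ, true_and, mem_powersetCard, subset_univ]
      simp at hj
      constructor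
      · exact fun h => h.2
      · intro h; exact ⟨by omega, h⟩
    rw [this, card_powersetCard, card_univ, Fintype.card_fin]
  rw [h3, add_pow]
  refine sum_le_sum fun j hj => ?_
  simp at hj
  have h4 : (l.choose j : ℝ) ≤ l ^ j := by exact_mod_cast Nat.choose_le_pow l j
  have h5 : (1 : ℝ) ≤ (d.choose j : ℝ) := by
    have : 0 < d.choose j := Nat.choose_pos (by omega)
    exact_mod_cast this
  rw [one_pow, mul_one, mul_pow]
  calc (l.choose j : ℝ) * 9 ^ j ≤ l ^ j * 9 ^ j := by gcongr
    _ = 9 ^ j * l ^ j * 1 := by ring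
    _ ≤ 9 ^ j * l ^ j * d.choose j := by gcongr

/-- the part of the dual vector on the crossing side is invisible to low degree monomials -/
theorem avg_cross_pvec (hl : 1 ≤ l) (hp : Pseudo d l pe) {i : ℕ} (hi : i ≤ l)
    {T : Finset (Fin l)} (hT : T.card + 2 ≤ d) :
    avg (fun y => (if Cross i y then pvec d pe y else 0) * mono T y) = 0 := by
  by_cases h0 : i = 0
  · subst h0
    set j : Fin l := ⟨0, hl⟩ with hj
    have h1 : (fun y : Fin l → Bool => (if Cross 0 y then pvec d pe y else 0) * mono T y) =
        fun y => pvec d pe y * mono T y - pvec d pe y * mono (insert j T) y := by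
      funext y
      rw [← ind_mul_mono]
      have : Cross 0 y ↔ ¬ (y j = true) := by
        unfold Cross
        rw [ext_zero, ext_succ y hl]
        simp [hj]
      by_cases hy : y j = true
      · rw [if_neg (by rw [this]; simpa using hy)]; simp [hy]
      · rw [if_pos (by rw [this]; exact hy)]; simp [hy]
    have hc : (insert j T).card ≤ d := le_trans (card_insert_le _ _) (by omega)
    rw [h1, avg_sub, avg_pvec_mono (by omega), avg_pvec_mono hc, hp.move _ _ hc (Or.inl rfl),
      sub_self]
  · by_cases hil : i = l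
    · set j : Fin l := ⟨i - 1, by omega⟩ with hj
      have h1 : (fun y : Fin l → Bool => (if Cross i y then pvec d pe y else 0) * mono T y) =
          fun y => pvec d pe y * mono (insert j T) y := by
        funext y
        rw [← ind_mul_mono]
        have : Cross i y ↔ (y j = true) := by
          unfold Cross
          obtain ⟨i', rfl⟩ : ∃ i', i = i' + 1 := ⟨i - 1, by omega⟩
          rw [ext_succ y (show i' < l by omega), ext_last y (show l ≤ i' + 1 by omega)]
          simp [hj]
        by_cases hy : y j = true
        · rw [if_pos (by rw [this]; exact hy)]; simp [hy]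
        · rw [if_neg (by rw [this]; exact hy)]; simp [hy]
      have hc : (insert j T).card ≤ d := le_trans (card_insert_le _ _) (by omega)
      rw [h1, avg_pvec_mono hc, hp.last _ j (mem_insert_self _ _) (by simp [hj]; omega)]
    · have hil' : i < l := by omega
      set j : Fin l := ⟨i - 1, by omega⟩ with hj
      set k : Fin l := ⟨i, hil'⟩ with hk
      have h1 : (fun y : Fin l → Bool => (if Cross i y then pvec d pe y else 0) * mono T y) =
          fun y => pvec d pe y * mono (insert j T) y -
            pvec d pe y * mono (insert k (insert j T)) y := by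
        funext y
        rw [← ind_mul_mono k, ← ind_mul_mono j]
        have : Cross i y ↔ (y j = true ∧ ¬ (y k = true)) := by
          unfold Cross
          obtain ⟨i', rfl⟩ : ∃ i', i = i' + 1 := ⟨i - 1, by omega⟩
          rw [ext_succ y (show i' < l by omega), ext_succ y hil']
          simp [hj, hk]
        by_cases hy : y j = true <;> by_cases hz : y k = true
        · rw [if_neg (by rw [this]; simp [hz])]; simp [hy, hz]
        · rw [if_pos (by rw [this]; exact ⟨hy, hz⟩)]; simp [hy, hz]
        · rw [if_neg (by rw [this]; simp [hy])]; simp [hy, hz]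
        · rw [if_neg (by rw [this]; simp [hy])]; simp [hy, hz]
      have hc1 : (insert j T).card ≤ T.card + 1 := card_insert_le _ _
      have hc2 : (insert k (insert j T)).card ≤ (insert j T).card + 1 := card_insert_le _ _
      rw [h1, avg_sub, avg_pvec_mono (by omega), avg_pvec_mono (by omega),
        hp.move _ k (by omega) (Or.inr ⟨j, mem_insert_self _ _, by simp [hj, hk]; omega⟩),
        sub_self]

theorem avg_crossO (hl : 1 ≤ l) (hp : Pseudo d l pe) {o : Option ℕ} (ho : ∀ i ∈ o, i ≤ l)
    {T : Finset (Fin l)} (hT : T.card + 2 ≤ d) :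
    avg (fun y => (pvec d pe y - gopt d pe o y) * mono T y) = 0 := by
  cases o with
  | none =>
    have : (fun y : Fin l → Bool => (pvec d pe y - gopt d pe none y) * mono T y) = fun _ => 0 := by
      funext y
      simp [gopt, CrossO]
    rw [this, avg_const]
  | some i =>
    have : (fun y : Fin l → Bool => (pvec d pe y - gopt d pe (some i) y) * mono T y) =
        fun y => (if Cross i y then pvec d pe y else 0) * mono T y := by
      funext y
      by_cases h : Cross i y
      · have h' : CrossO (some i) y := ⟨i, rfl, h⟩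
        simp [gopt, h', h]
      · have h' : ¬ CrossO (some i) y := by
          rintro ⟨j, hj, hc⟩
          have : i = j := by simpa using hj
          exact h (this ▸ hc)
        simp [gopt, h', h]
    rw [this]
    exact avg_cross_pvec hl hp (ho i rfl) hT

theorem avg_gopt (hd : 2 ≤ d) (hl : 1 ≤ l) (hp : Pseudo d l pe) {o : Option ℕ}
    (ho : ∀ i ∈ o, i ≤ l) : avg (gopt d pe o) = 1 := by
  have h1 : (gopt d pe o : (Fin l → Bool) → ℝ) =
      fun y => pvec d pe y * mono ∅ y - (pvec d pe y - gopt d pe o y) * mono ∅ y := by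
    funext y
    simp [mono]
  rw [h1, avg_sub, avg_pvec_mono (by simp), avg_crossO hl hp ho (by simpa using hd), hp.empty,
    sub_zero]

theorem coef_gopt_sub (hl : 1 ≤ l) (hp : Pseudo d l pe) {o o' : Option ℕ} (ho : ∀ i ∈ o, i ≤ l)
    (ho' : ∀ i ∈ o', i ≤ l) {S : Finset (Fin l)} (hS : S.card + 2 ≤ d) :
    coef (fun y => gopt d pe o y - gopt d pe o' y) S = 0 := by
  refine coef_eq_zero_of_mono (m := d - 2) (fun T hT => ?_) (by omega)
  have h1 : (fun y : Fin l → Bool => (gopt d pe o y - gopt d pe o' y) * mono T y) =
      fun y => (pvec d pe y - gopt d pe o' y) * mono T y -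
        (pvec d pe y - gopt d pe o y) * mono T y := by
    funext y
    ring
  rw [h1, avg_sub, avg_crossO hl hp ho (by omega), avg_crossO hl hp ho' (by omega), sub_self]

theorem avg_gopt_sub_sq (hp : Pseudo d l pe) (o o' : Option ℕ) :
    avg (fun y : Fin l → Bool => (gopt d pe o y - gopt d pe o' y) *
      (gopt d pe o y - gopt d pe o' y)) ≤ (9 * l + 1) ^ d := by
  refine le_trans (avg_mono fun y => ?_) (avg_pvec_sq_le hp)
  unfold gopt
  split_ifs <;> simp <;> nlinarith [sq_nonneg (pvec d pe y)]

/-- the functional of a path in terms of Fourier coefficients -/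
theorem Phi_eq {Q : Type*} [Fintype Q] [DecidableEq Q] (p : Fin l ↪ Q) (h : (Q → Bool) → ℝ) :
    Phi d pe p h = ∑ U : Finset (Fin l) with U.card ≤ d, pHat pe U * coef h (U.map p) := by
  unfold Phi
  have h1 : (fun x : Q → Bool => h x * pvec d pe (fun j => x (p j))) =
      fun x => ∑ U : Finset (Fin l) with U.card ≤ d, pHat pe U * (h x * chi (U.map p) x) := by
    funext x
    unfold pvec
    rw [mul_sum]
    refine sum_congr rfl fun U _ => ?_
    rw [← chi_comp]
    ring
  rw [h1, avg_sum]
  refine sum_congr rfl fun U _ => ?_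
  rw [avg_const_mul]
  rfl

end Pool.Agent.Lib.OWC
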