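import Pool.Agent.Lib.OWC.PosDefs
import Pool.Agent.Lib.OWC.Vec

/-!
# Split: the functional of a path, given the side of one vertex of the path

Let `v = p i`, `c b S = coef (restr h v b) (S.map p)`.  Facts:
* `avg g = (avg (restr g v true) + avg (restr g v false)) / 2` for all `g` (the map
  `x ↦ Function.update x v b`; e.g. sum over `x` by the value of `x v`, each fibre in bijection).
* If `v ∉ T`, `chi T (update x v b) = chi T x`.  So for `i ∉ S`:
  `coef h (S.map p) = (c true S + c false S) / 2`, and, as `(insert i S).map p = insert v (S.map p)`,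
  `chi (insert v T) (update x v b) = (if b then -1 else 1) * chi T x`,
  `coef h ((insert i S).map p) = (c false S - c true S) / 2`.
* For `i ∉ S`: `pHat pe (insert i S) = ∑ T ∈ S.powerset, (-2) ^ |T| * (pe T - 2 * pe (insert i T))`
  (`Finset.sum_powerset_insert`).
`Phi_eq`: `Phi = ∑_{|U| ≤ d} pHat U * coef h (U.map p)`.  Split the `U` into those not containing `i`
(`S = U`) and those containing `i` (`U = insert i S`, `i ∉ S`, `|S| < d`).  For `|S| < d` the
coefficient of `c true S` is `(pHat S - pHat (insert i S)) / 2 = ∑ T, (-2) ^ |T| * pe (insert i T)` and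
that of `c false S` is `(pHat S + pHat (insert i S)) / 2 = ∑ T, (-2) ^ |T| * (pe T - pe (insert i T))`;
for `|S| = d` both are `pHat S / 2`.
-/

namespace Pool.Agent.Lib.OWC

open Finset Pool.Agent.Lib.Pe46137

namespace SplitAux

variable {Q : Type*} [Fintype Q] [DecidableEq Q]

theorem avg_split (g : (Q → Bool) → ℝ) (v : Q) :
    avg g = (avg (restr g v true) + avg (restr g v false)) / 2 := by
  have hinv : Function.Involutive (fun x : Q → Bool => Function.update x v (!x v)) := by
    intro x
    simp
  have h1 : ∑ x, g (Function.update x v (!x v)) = ∑ x, g x :=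
    Equiv.sum_comp hinv.toPerm g
  have h2 : ∀ x : Q → Bool, restr g v true x + restr g v false x =
      g x + g (Function.update x v (!x v)) := by
    intro x
    unfold restr
    cases hx : x v
    · have e : Function.update x v false = x := by rw [← hx, Function.update_eq_self]
      rw [e, Bool.not_false, add_comm]
    · have e : Function.update x v true = x := by rw [← hx, Function.update_eq_self]
      rw [e, Bool.not_true]
  unfold avg
  rw [← add_div, ← sum_add_distrib, sum_congr rfl fun x _ => h2 x, sum_add_distrib, h1]
  ring

theorem chi_update {v : Q} {T : Finset Q} (hv : v ∉ T) (x : Q → Bool) (b : Bool) :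
    chi T (Function.update x v b) = chi T x := by
  unfold chi
  refine prod_congr rfl fun j hj => ?_
  have hne : j ≠ v := fun h => hv (h ▸ hj)
  rw [Function.update_of_ne hne]

theorem chi_insert_update {v : Q} {T : Finset Q} (hv : v ∉ T) (x : Q → Bool) (b : Bool) :
    chi (insert v T) (Function.update x v b) = (if b then -1 else 1) * chi T x := by
  have h : chi (insert v T) (Function.update x v b) =
      (if Function.update x v b v then -1 else 1) * chi T (Function.update x v b) := by
    unfold chi
    rw [prod_insert hv]
  rw [h, chi_update hv, Function.update_self]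

theorem coef_notMem (h : (Q → Bool) → ℝ) {v : Q} {T : Finset Q} (hv : v ∉ T) :
    coef h T = (coef (restr h v true) T + coef (restr h v false) T) / 2 := by
  have key : ∀ b, restr (fun x => h x * chi T x) v b = fun x => restr h v b x * chi T x := by
    intro b
    funext x
    unfold restr
    simp only
    rw [chi_update hv]
  unfold coef
  rw [avg_split _ v, key, key]

theorem coef_insert (h : (Q → Bool) → ℝ) {v : Q} {T : Finset Q} (hv : v ∉ T) :
    coef h (insert v T) = (coef (restr h v false) T - coef (restr h v true) T) / 2 := by
  have key : ∀ b, restr (fun x => h x * chi (insert v T) x) v b =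
      fun x => (if b then -1 else 1) * (restr h v b x * chi T x) := by
    intro b
    funext x
    unfold restr
    simp only
    rw [chi_insert_update hv]
    ring
  unfold coef
  rw [avg_split _ v, key, key, avg_const_mul, avg_const_mul]
  simp only [if_true, Bool.false_eq_true, if_false]
  ring

variable {l : ℕ} (pe : Finset (Fin l) → ℝ)

theorem pHat_insert {i : Fin l} {S : Finset (Fin l)} (hi : i ∉ S) :
    pHat pe (insert i S) = ∑ T ∈ S.powerset, (-2) ^ T.card * (pe T - 2 * pe (insert i T)) := by
  unfold pHat
  rw [sum_powerset_insert hi, ← sum_add_distrib]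
  refine sum_congr rfl fun T hT => ?_
  have hiT : i ∉ T := fun h => hi (mem_powerset.1 hT h)
  rw [card_insert_of_notMem hiT, pow_succ]
  ring

theorem bet_true {d : ℕ} {i : Fin l} {S : Finset (Fin l)} (hi : i ∉ S) (hS : S.card < d) :
    bet d pe i true S = (pHat pe S - pHat pe (insert i S)) / 2 := by
  unfold bet
  rw [if_pos hS, pHat_insert pe hi, pHat, ← sum_sub_distrib, sum_div]
  refine sum_congr rfl fun T _ => ?_
  simp only [if_true]
  ring

theorem bet_false {d : ℕ} {i : Fin l} {S : Finset (Fin l)} (hi : i ∉ S) (hS : S.card < d) :
    bet d pe i false S = (pHat pe S + pHat pe (insert i S)) / 2 := by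
  unfold bet
  rw [if_pos hS, pHat_insert pe hi, pHat, ← sum_add_distrib, sum_div]
  refine sum_congr rfl fun T _ => ?_
  simp only [Bool.false_eq_true, if_false]
  ring

theorem bet_top {d : ℕ} {i : Fin l} {S : Finset (Fin l)} (b : Bool) (hS : ¬ S.card < d) :
    bet d pe i b S = pHat pe S / 2 := by
  unfold bet
  rw [if_neg hS]

theorem sum_split (d : ℕ) (i : Fin l) (F : Finset (Fin l) → ℝ) :
    (∑ U : Finset (Fin l) with U.card ≤ d, F U) =
      ∑ S : Finset (Fin l) with i ∉ S ∧ S.card ≤ d,
        (F S + if S.card < d then F (insert i S) else 0) := by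
  rw [sum_add_distrib, ← sum_filter, filter_filter,
    ← sum_filter_add_sum_filter_not (univ.filter fun U : Finset (Fin l) => U.card ≤ d)
      (fun U => i ∉ U) F, filter_filter, filter_filter]
  congr 1
  · refine sum_congr ?_ fun _ _ => rfl
    ext U
    simp only [mem_filter, mem_univ, true_and]
    exact and_comm
  · refine sum_nbij' (fun U => U.erase i) (fun S => insert i S) ?_ ?_ ?_ ?_ ?_
    · intro U hU
      simp only [mem_filter, mem_univ, true_and, not_not] at hU ⊢
      have h1 := card_erase_of_mem hU.2
      have h2 : 0 < U.card := card_pos.2 ⟨i, hU.2⟩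
      refine ⟨⟨notMem_erase i U, ?_⟩, ?_⟩ <;> omega
    · intro S hS
      simp only [mem_filter, mem_univ, true_and, not_not] at hS ⊢
      refine ⟨?_, mem_insert_self i S⟩
      rw [card_insert_of_notMem hS.1.1]
      omega
    · intro U hU
      simp only [mem_filter, mem_univ, true_and, not_not] at hU
      exact insert_erase hU.2
    · intro S hS
      simp only [mem_filter, mem_univ, true_and] at hS
      exact erase_insert hS.1.1
    · intro U hU
      simp only [mem_filter, mem_univ, true_and, not_not] at hU
      rw [insert_erase hU.2]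

end SplitAux

open SplitAux in
theorem Phi_split {d l : ℕ} {pe : Finset (Fin l) → ℝ} {Q : Type*} [Fintype Q] [DecidableEq Q]
    (p : Fin l ↪ Q) (i : Fin l) (h : (Q → Bool) → ℝ) :
    Phi d pe p h =
      (∑ S : Finset (Fin l) with i ∉ S ∧ S.card ≤ d,
        bet d pe i true S * coef (restr h (p i) true) (S.map p)) +
      ∑ S : Finset (Fin l) with i ∉ S ∧ S.card ≤ d,
        bet d pe i false S * coef (restr h (p i) false) (S.map p) := by
  rw [Phi_eq, sum_split d i, ← sum_add_distrib]
  refine sum_congr rfl fun S hS => ?_
  simp only [mem_filter, mem_univ, true_and] at hS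
  obtain ⟨hi, hSd⟩ := hS
  have hv : p i ∉ S.map p := by
    rw [mem_map']
    exact hi
  rw [map_insert, coef_notMem h hv, coef_insert h hv]
  by_cases hlt : S.card < d
  · rw [if_pos hlt, bet_true pe hi hlt, bet_false pe hi hlt]
    ring
  · rw [if_neg hlt, bet_top pe true hlt, bet_top pe false hlt]
    ring

end Pool.Agent.Lib.OWC
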