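import Pool.Agent.Lib.OWC.Half
import Pool.Agent.Lib.OWC.Split

/-!
# Cond: the negative part over the paths through one vertex

For `w f i = a`, `pw (w f) i = (i, a)`, so by `Phi_split` `Phi = Y true + Y false` with the functions
`g b = restr h (i, a) b` (which do not depend on `f`), and
`max 0 (-(y + z)) ≤ max 0 (-y) + max 0 (-z)`.  Apply `half` twice with `β = bet d pe i b`:
`bet d pe i true ∅ = pe {i}`, `bet d pe i false ∅ = pe ∅ - pe {i} = 1 - pe {i}` (`0 < d`),
`A` from `Balanced.up`, `Balanced.down` at `i`; for `|S| < d`,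
`|bet .. S| ≤ ∑ T ∈ S.powerset, 2 ^ |T| * A = 3 ^ |S| * A` (`Finset.sum_pow_mul_eq_add_pow`, see
`abs_peHat_le` in `Pe46137/Nice.lean`); for `|S| = d`, `|pHat pe S| ≤ 3 ^ d` (`Pseudo.abs_pHat_le`).
-/

namespace Pool.Agent.Lib.OWC

open Finset Pool.Agent.Lib.Pe46137

namespace CondAux

theorem bet_true_empty {d l : ℕ} (hd : 0 < d) (pe : Finset (Fin l) → ℝ) (i : Fin l) :
    bet d pe i true ∅ = pe {i} := by
  simp [bet, hd]

theorem bet_false_empty {d l : ℕ} (hd : 0 < d) (pe : Finset (Fin l) → ℝ) (i : Fin l) :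
    bet d pe i false ∅ = pe ∅ - pe {i} := by
  simp [bet, hd]

theorem abs_sum_le {l : ℕ} (S : Finset (Fin l)) (u : Finset (Fin l) → ℝ) {A : ℝ}
    (hu : ∀ T, |u T| ≤ A) :
    |∑ T ∈ S.powerset, (-2) ^ T.card * u T| ≤ 3 ^ S.card * A := by
  refine le_trans (abs_sum_le_sum_abs _ _) ?_
  have h := sum_pow_mul_eq_add_pow (2 : ℝ) 1 S
  norm_num at h
  rw [← h, sum_mul]
  refine sum_le_sum fun T _ => ?_
  rw [abs_mul, abs_pow, abs_neg, abs_of_pos (by norm_num : (0 : ℝ) < 2)]
  exact mul_le_mul_of_nonneg_left (hu T) (by positivity)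

theorem abs_bet_lt {d l : ℕ} {pe : Finset (Fin l) → ℝ} {i : Fin l} {b : Bool} {A : ℝ}
    (hu : ∀ T, |(if b then pe (insert i T) else pe T - pe (insert i T))| ≤ A)
    {S : Finset (Fin l)} (hS : S.card < d) : |bet d pe i b S| ≤ 3 ^ S.card * A := by
  unfold bet
  rw [if_pos hS]
  exact abs_sum_le S _ hu

theorem abs_bet_eq {d l : ℕ} {pe : Finset (Fin l) → ℝ} (hp : Pseudo d l pe) {i : Fin l} {b : Bool}
    {S : Finset (Fin l)} (hS : S.card = d) : |bet d pe i b S| ≤ 3 ^ d / 2 := by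
  unfold bet
  rw [if_neg (by omega), abs_div, abs_of_pos (by norm_num : (0 : ℝ) < 2)]
  have := hp.abs_pHat_le S
  rw [hS] at this
  linarith

theorem max_neg_add (y z : ℝ) : max 0 (-(y + z)) ≤ max 0 (-y) + max 0 (-z) := by
  apply max_le
  · exact add_nonneg (le_max_left _ _) (le_max_left _ _)
  · have h1 := le_max_right 0 (-y)
    have h2 := le_max_right 0 (-z)
    linarith

end CondAux

open CondAux in
theorem cond {d l q : ℕ} [NeZero q] (hd : 6 ≤ d) (hl : 1 ≤ l) (hq : (9 * l) ^ 4 ≤ q)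
    {pe : Finset (Fin l) → ℝ} (hp : Pseudo d l pe) (hb : Balanced (q : ℝ) pe) {F : Type}
    [Fintype F] {w : F → Fin l → ZMod q} (hw : Paths q (d - 1) w) (i : Fin l) (a : ZMod q)
    (h : (Fin l × ZMod q → Bool) → ℝ) (h01 : ∀ x, h x = 0 ∨ h x = 1) :
    ∑ f with w f i = a, max 0 (-Phi d pe (pw (w f)) h) ≤ 72 * l * (q : ℝ) ^ (d - 3) := by
  obtain ⟨A, hA0, hA1, hA2, hA3⟩ := hb.up i
  obtain ⟨B, hB0, hB1, hB2, hB3⟩ := hb.down i
  have hd0 : 0 < d := by omega
  have ht := half hd hl hq hw i a (bet d pe i true)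
    (by rw [bet_true_empty hd0]; exact hp.nonneg _) hA0
    (fun S hS => abs_bet_lt (b := true) (fun T => by
      rw [if_pos rfl, abs_of_nonneg (hp.nonneg _)]; exact hA1 T) hS)
    (fun S hS => abs_bet_eq hp hS) hA2 (by rw [bet_true_empty hd0]; exact hA3)
    (restr h (i, a) true) (fun x => h01 _)
  have hf := half hd hl hq hw i a (bet d pe i false)
    (by rw [bet_false_empty hd0, hp.empty]; have := hp.le_one {i}; linarith) hB0
    (fun S hS => abs_bet_lt (b := false) (fun T => by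
      rw [if_neg (by simp)]; exact hB1 T) hS)
    (fun S hS => abs_bet_eq hp hS) hB2 (by rw [bet_false_empty hd0, hp.empty]; exact hB3)
    (restr h (i, a) false) (fun x => h01 _)
  have key : ∑ f with w f i = a, max 0 (-Phi d pe (pw (w f)) h) ≤
      (∑ f with w f i = a, max 0 (-(∑ S : Finset (Fin l) with i ∉ S ∧ S.card ≤ d,
        bet d pe i true S * coef (restr h (i, a) true) (S.map (pw (w f)))))) +
      ∑ f with w f i = a, max 0 (-(∑ S : Finset (Fin l) with i ∉ S ∧ S.card ≤ d,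
        bet d pe i false S * coef (restr h (i, a) false) (S.map (pw (w f))))) := by
    rw [← sum_add_distrib]
    refine sum_le_sum fun f hf => ?_
    have hfi : w f i = a := (mem_filter.mp hf).2
    have hpi : pw (w f) i = (i, a) := by
      rw [← hfi]
      rfl
    rw [Phi_split (pw (w f)) i h, hpi]
    exact max_neg_add _ _
  refine key.trans ?_
  linarith

end Pool.Agent.Lib.OWC
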