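import Pool.Agent.Lib.OWC.Vec

/-!
# Spread: the variation of one function over the arcs is small on average

The step `hstate` of the theorem `core` in `Pe46137/Core.lean`, verbatim (Cauchy-Schwarz
`avg_mul_sq_le` for `h` and `H = ∑ f, (gopt .. (o f) - gopt .. (o' f)) ∘ p f`; the terms of
`avg (H * H)` with different `f`, `f'` vanish by `avg_comp_mul`, `hpf`, `coef_gopt_sub`; the diagonal
terms are at most `(9 * l + 1) ^ d` by `avg_comp_sq`, `avg_gopt_sub_sq`).
-/

namespace Pool.Agent.Lib.OWC

open Finset Pool.Agent.Lib.Pe46137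

variable {d l : ℕ} {pe : Finset (Fin l) → ℝ}

theorem spread (hl : 1 ≤ l) (hp : Pseudo d l pe) {Q F : Type*} [Fintype Q] [DecidableEq Q]
    [Fintype F] (p : F → (Fin l ↪ Q))
    (hpf : ∀ f f', f ≠ f' → ∀ S S' : Finset (Fin l), S.map (p f) = S'.map (p f') → S.card + 2 ≤ d)
    (h : (Q → Bool) → ℝ) (hh : ∀ x, h x * h x ≤ 1) (o o' : F → Option ℕ)
    (ho : ∀ f, ∀ i ∈ o f, i ≤ l) (ho' : ∀ f, ∀ i ∈ o' f, i ≤ l) :
    ∑ f, (avg (fun x => h x * gopt d pe (o f) (fun j => x (p f j))) -
      avg (fun x => h x * gopt d pe (o' f) (fun j => x (p f j)))) ≤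
      Real.sqrt (Fintype.card F * (9 * l + 1) ^ d) := by
  classical
  set K : ℝ := (9 * l + 1) ^ d with hK
  have hK0 : 0 ≤ K := by positivity
  set g : F → (Fin l → Bool) → ℝ := fun f y => gopt d pe (o f) y - gopt d pe (o' f) y with hg
  set H : (Q → Bool) → ℝ := fun x => ∑ f, g f (fun j => x (p f j)) with hH
  have e1 : ∑ f, (avg (fun x => h x * gopt d pe (o f) (fun j => x (p f j))) -
      avg (fun x => h x * gopt d pe (o' f) (fun j => x (p f j)))) = avg (fun x => h x * H x) := by
    have : (fun x => h x * H x) = fun x => ∑ f, h x * g f (fun j => x (p f j)) := by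
      funext x
      rw [hH, mul_sum]
    rw [this, avg_sum]
    refine sum_congr rfl fun f _ => ?_
    simp only [hg]
    rw [← avg_sub]
    congr 1
    funext x
    ring
  have e2 : avg (fun x => H x * H x) ≤ Fintype.card F * K := by
    have : (fun x => H x * H x) = fun x => ∑ f, ∑ f',
        g f (fun j => x (p f j)) * g f' (fun j => x (p f' j)) := by
      funext x
      rw [hH, sum_mul_sum]
    rw [this, avg_sum]
    have e3 : ∀ f ∈ (univ : Finset F), avg (fun x => ∑ f',
        g f (fun j => x (p f j)) * g f' (fun j => x (p f' j))) ≤ K := by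
      intro f _
      rw [avg_sum, sum_eq_single f]
      · rw [avg_comp_sq (p f) (g f)]
        exact avg_gopt_sub_sq hp (o f) (o' f)
      · intro f' _ hne
        rw [avg_comp_mul]
        refine sum_eq_zero fun S _ => sum_eq_zero fun S' _ => ?_
        split_ifs with hSS
        · have hc := hpf f f' (Ne.symm hne) S S' hSS
          have : coef (g f) S = 0 := coef_gopt_sub hl hp (ho f) (ho' f) hc
          rw [this, zero_mul]
        · rfl
      · intro hf
        exact absurd (mem_univ f) hf
    refine le_trans (sum_le_sum e3) ?_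
    rw [sum_const, card_univ, nsmul_eq_mul]
  have e4 : avg (fun x => h x * h x) ≤ 1 := by
    refine le_trans (avg_mono hh) ?_
    rw [avg_const]
  have e5 := avg_mul_sq_le h H
  rw [e1]
  refine Real.le_sqrt_of_sq_le (le_trans e5 ?_)
  have e6 : 0 ≤ avg (fun x => H x * H x) := avg_nonneg fun x => mul_self_nonneg _
  nlinarith

end Pool.Agent.Lib.OWC
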