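import Pool.Agent.Lib.OWC.Cover
import Pool.Agent.Lib.OWC.Spread

/-!
# CoreOW: the core inequality with one-way pairs

Let `ι = {o : Option ℕ // ∀ i ∈ o, i ≤ l}` (finite, nonempty) and
`a f v o = avg (J v x * gopt d pe o (x ∘ p f))`.  `a f s o = 1` (`avg_comp`, `avg_gopt`),
`a f t o = 0`.  For `r = (v, w)` let `h r x = J w x * (1 - J v x) ∈ {0, 1}`,
`b f r o = avg (h r x * gopt d pe o (x ∘ p f))`, `b f r none = Phi d pe (p f) (h r)` (`gopt none =
pvec`, as `CrossO none y` is false) and, `m f r` being a minimiser of `b f r` over `ι`,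
`D f r = max 0 (-Phi d pe (p f) (h r)) + (b f r none - b f r (m f r)) ≥ 0`.

A step `L f v w` with the arc `o`: in the first case `a f v o = a f w o` (the two integrands are equal,
`gopt` is `0` if `CrossO o`).  In the second case `J v x ≤ J w x` if not `CrossO o`, so
`(J v x - J w x) * gopt .. = - h r x * gopt ..` everywhere, and `a f v o - a f w o = - b f r o ≤
- b f r (m f r) = - Phi + (b f r none - b f r (m f r)) ≤ D f r`.  `interval_cover` gives
`1 ≤ ∑ v, (a f v (hi f v) - a f v (lo f v)) + ∑ r ∈ R, D f r`.  Sum over `f`, exchange the sums: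
`spread` (for `J v` with `hi`, `lo`; for `h r` with `none`, `m f r`) and `hη`.
-/

namespace Pool.Agent.Lib.OWC

open Finset Pool.Agent.Lib.Pe46137

variable {d l : ℕ} {pe : Finset (Fin l) → ℝ}

theorem core (hd : 2 ≤ d) (hl : 1 ≤ l) (hp : Pseudo d l pe) {Q F W : Type*} [Fintype Q]
    [DecidableEq Q] [Fintype F] [Fintype W] (p : F → (Fin l ↪ Q))
    (hpf : ∀ f f', f ≠ f' → ∀ S S' : Finset (Fin l), S.map (p f) = S'.map (p f') → S.card + 2 ≤ d)
    (J : W → (Q → Bool) → ℝ) (hJ : ∀ v x, J v x = 0 ∨ J v x = 1) (R : Finset (W × W)) {η : ℝ}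
    (hη : ∀ h : (Q → Bool) → ℝ, (∀ x, h x = 0 ∨ h x = 1) →
      ∑ f, max 0 (-Phi d pe (p f) h) ≤ η)
    (L : F → W → W → Prop)
    (hL : ∀ f v w, L f v w → ∃ o : Option ℕ, (∀ i ∈ o, i ≤ l) ∧
      ((∀ x, ¬ CrossO o (fun j => x (p f j)) → J v x = J w x) ∨
        ((v, w) ∈ R ∧ ∀ x, ¬ CrossO o (fun j => x (p f j)) → J v x ≤ J w x)))
    {s t : W} (hs : ∀ x, J s x = 1) (ht : ∀ x, J t x = 0)
    (hst : ∀ f, Relation.ReflTransGen (L f) s t) :
    (Fintype.card F : ℝ) ≤ Fintype.card W * Real.sqrt (Fintype.card F * (9 * l + 1) ^ d) +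
      R.card * (η + Real.sqrt (Fintype.card F * (9 * l + 1) ^ d)) := by
  classical
  -- the finite set of arcs
  set em : Option (Fin (l + 1)) → Option ℕ := fun o => Option.map Fin.val o with hem
  have hemle : ∀ o, ∀ i ∈ em o, i ≤ l := by
    intro o i hi
    simp only [hem, Option.mem_def, Option.map_eq_some_iff] at hi
    obtain ⟨j, _, rfl⟩ := hi
    have := j.2
    omega
  have hems : ∀ o : Option ℕ, (∀ i ∈ o, i ≤ l) → ∃ o', em o' = o := by
    intro o ho
    cases o with
    | none => exact ⟨none, rfl⟩
    | some i =>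
      have hi : i ≤ l := ho i rfl
      exact ⟨some ⟨i, by omega⟩, rfl⟩
  set G : F → Option (Fin (l + 1)) → (Q → Bool) → ℝ :=
    fun f o x => gopt d pe (em o) (fun j => x (p f j)) with hG
  have hG0 : ∀ f o x, CrossO (em o) (fun j => x (p f j)) → G f o x = 0 := by
    intro f o x hc
    simp only [hG, gopt]
    rw [if_pos hc]
  set a : F → W → Option (Fin (l + 1)) → ℝ := fun f v o => avg (fun x => J v x * G f o x) with ha
  set h : W × W → (Q → Bool) → ℝ := fun r x => J r.2 x * (1 - J r.1 x) with hh
  have hh01 : ∀ r x, h r x = 0 ∨ h r x = 1 := by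
    intro r x
    simp only [hh]
    rcases hJ r.2 x with e | e <;> rcases hJ r.1 x with e' | e' <;> rw [e, e'] <;> norm_num
  set b : F → W × W → Option (Fin (l + 1)) → ℝ :=
    fun f r o => avg (fun x => h r x * G f o x) with hb
  choose m hm using fun (f : F) (r : W × W) => Finite.exists_min (b f r)
  have hbn : ∀ f r, b f r none = Phi d pe (p f) (h r) := by
    intro f r
    simp only [hb, Phi, hG, hem]
    congr 1
    funext x
    simp only [gopt, CrossO, Option.map_none]
    rw [if_neg (by rintro ⟨i, hi, _⟩; simp at hi)]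
  set D : F → W × W → ℝ :=
    fun f r => max 0 (-Phi d pe (p f) (h r)) + (b f r none - b f r (m f r)) with hD
  have hD0 : ∀ f r, 0 ≤ D f r := by
    intro f r
    have h1 := hm f r none
    have h2 := le_max_left 0 (-Phi d pe (p f) (h r))
    simp only [hD]
    linarith
  have hex : ∀ f, ∃ hi lo : W → Option (Fin (l + 1)),
      1 ≤ ∑ v, (a f v (hi v) - a f v (lo v)) + ∑ r ∈ R, D f r := by
    intro f
    refine interval_cover (a f) R (D f) (fun r _ => hD0 f r) (L f) ?_ (hst f) ?_ ?_
    · intro v w hvw
      obtain ⟨o, ho, hcase⟩ := hL f v w hvw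
      obtain ⟨o', rfl⟩ := hems o ho
      refine ⟨o', ?_⟩
      rcases hcase with h1 | ⟨hR, h1⟩
      · left
        simp only [ha]
        congr 1
        funext x
        by_cases hc : CrossO (em o') (fun j => x (p f j))
        · rw [hG0 f o' x hc, mul_zero, mul_zero]
        · rw [h1 x hc]
      · right
        refine ⟨hR, ?_⟩
        have h2 : a f v o' - a f w o' = - b f (v, w) o' := by
          simp only [ha, hb]
          rw [← avg_sub]
          have : (fun x => h (v, w) x * G f o' x) =
              fun x => (-1 : ℝ) * (J v x * G f o' x - J w x * G f o' x) := by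
            funext x
            by_cases hc : CrossO (em o') (fun j => x (p f j))
            · rw [hG0 f o' x hc]
              ring
            · have h3 := h1 x hc
              simp only [hh]
              rcases hJ v x with e | e <;> rcases hJ w x with e' | e' <;> rw [e, e'] at h3 ⊢
              · ring
              · ring
              · exact absurd h3 (by norm_num)
              · ring
          rw [this, avg_const_mul]
          ring
        rw [h2]
        have h3 := hm f (v, w) o'
        have h4 := le_max_right 0 (-Phi d pe (p f) (h (v, w)))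
        have h5 := hbn f (v, w)
        simp only [hD]
        linarith
    · intro o
      simp only [ha, hs, one_mul, hG]
      rw [avg_comp (p f) (gopt d pe (em o))]
      exact avg_gopt hd hl hp (hemle o)
    · intro o
      simp only [ha, ht, zero_mul]
      exact avg_const 0
  choose hi lo hhl using hex
  set K : ℝ := Real.sqrt (Fintype.card F * (9 * l + 1) ^ d) with hK
  have hsq : ∀ g : (Q → Bool) → ℝ, (∀ x, g x = 0 ∨ g x = 1) → ∀ x, g x * g x ≤ 1 := by
    intro g hg x
    rcases hg x with e | e <;> rw [e] <;> norm_num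
  have hstate : ∀ v, ∑ f, (a f v (hi f v) - a f v (lo f v)) ≤ K := fun v =>
    spread hl hp p hpf (J v) (hsq _ (hJ v)) (fun f => em (hi f v)) (fun f => em (lo f v))
      (fun f => hemle _) (fun f => hemle _)
  have hpair : ∀ r, ∑ f, D f r ≤ η + K := by
    intro r
    simp only [hD]
    rw [sum_add_distrib]
    refine add_le_add (hη (h r) (hh01 r)) ?_
    exact spread hl hp p hpf (h r) (hsq _ (hh01 r)) (fun f => em none) (fun f => em (m f r))
      (fun f => hemle _) (fun f => hemle _)
  have e1 : ∑ f : F, (1 : ℝ) ≤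
      ∑ f, (∑ v, (a f v (hi f v) - a f v (lo f v)) + ∑ r ∈ R, D f r) :=
    sum_le_sum fun f _ => hhl f
  rw [sum_add_distrib, sum_comm, sum_comm (s := univ) (t := R)] at e1
  have e2 := sum_le_sum fun v (_ : v ∈ (univ : Finset W)) => hstate v
  have e3 := sum_le_sum fun r (_ : r ∈ R) => hpair r
  simp only [sum_const, card_univ, nsmul_eq_mul, mul_one] at e1 e2 e3
  linarith

end Pool.Agent.Lib.OWC
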