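import Mathlib

/-!
# Cover: covering the unit interval

Copy of `interval_cover` in `Pe46137/Core.lean`, with an additional kind of steps.  Proof: put
`hi v`, `lo v` = a maximiser, a minimiser of `a v` (`Finite.exists_max`, `Finite.exists_min`).  Let
`z` be in `(0, 1)`, in no `[a v (lo v), a v (hi v)]`.  Then every state is above (`z < a v (lo v)`)
or below (`a v (hi v) < z`), the source is above, the sink is below, so some step `L v w` of the path
leads from above to below.  If some value is shared this is impossible.  Hence `(v, w) ∈ R` and, for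
the index `i` of the step, `a v (lo v) - a w (hi w) ≤ a v i - a w i ≤ D (v, w)`, and
`z ∈ [a w (hi w), a v (lo v)]`.  So `(0, 1)` is covered by the intervals `[a v (lo v), a v (hi v)]`
and, for the pairs `(v, w) ∈ R` with `a v (lo v) - a w (hi w) ≤ D (v, w)`, the intervals
`[a w (hi w), a v (lo v)]`, of measure `≤ max 0 (..) ≤ D (v, w)` (for the other pairs of `R` take the
empty set).  Compare measures (as in `Pe46137/Core.lean`, `MeasureTheory.measure_mono`,
`measure_union_le`, `measure_biUnion_finset_le`).
-/

namespace Pool.Agent.Lib.OWC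

open Finset

theorem interval_cover {W ι : Type*} [Fintype W] [Finite ι] [Nonempty ι] (a : W → ι → ℝ)
    (R : Finset (W × W)) (D : W × W → ℝ) (hD : ∀ r ∈ R, 0 ≤ D r) (L : W → W → Prop)
    (hL : ∀ v w, L v w → ∃ i, a v i = a w i ∨ ((v, w) ∈ R ∧ a v i - a w i ≤ D (v, w))) {s t : W}
    (hst : Relation.ReflTransGen L s t) (hs : ∀ i, a s i = 1) (ht : ∀ i, a t i = 0) :
    ∃ hi lo : W → ι, 1 ≤ ∑ v, (a v (hi v) - a v (lo v)) + ∑ r ∈ R, D r := by
  classical
  choose hi hhi using fun v => Finite.exists_max (a v)
  choose lo hlo using fun v => Finite.exists_min (a v)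
  refine ⟨hi, lo, ?_⟩
  set B : W × W → Set ℝ := fun r =>
    if a r.1 (lo r.1) - a r.2 (hi r.2) ≤ D r then Set.Icc (a r.2 (hi r.2)) (a r.1 (lo r.1)) else ∅
    with hB
  have hcov : Set.Ioo (0 : ℝ) 1 ⊆ (⋃ v, Set.Icc (a v (lo v)) (a v (hi v))) ∪ (⋃ r ∈ R, B r) := by
    intro z hz
    by_contra hc
    simp only [Set.mem_union, not_or] at hc
    obtain ⟨hc1, hc2⟩ := hc
    simp only [Set.mem_iUnion, Set.mem_Icc, not_exists, not_and, not_le] at hc1
    simp only [Set.mem_iUnion, not_exists] at hc2
    have key : ∀ y, Relation.ReflTransGen L s y → z < a y (lo y) := by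
      intro y h
      induction h with
      | refl => rw [hs]; exact hz.2
      | @tail b c _ hbc ih =>
        by_contra h'
        push Not at h'
        have h1 := hc1 c h'
        obtain ⟨i, hi' | ⟨hR, hDi⟩⟩ := hL b c hbc
        · have h2 := hlo b i
          have h3 := hhi c i
          linarith
        · have h2 := hlo b i
          have h3 := hhi c i
          refine hc2 (b, c) hR ?_
          have h4 : a b (lo b) - a c (hi c) ≤ D (b, c) := by linarith
          simp only [hB]
          rw [if_pos h4]
          exact ⟨h1.le, ih.le⟩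
    have key' := key t hst
    rw [ht] at key'
    exact absurd hz.1 (not_lt.mpr key'.le)
  have hBv : ∀ r ∈ R, MeasureTheory.volume (B r) ≤ ENNReal.ofReal (D r) := by
    intro r _
    simp only [hB]
    split_ifs with h
    · rw [Real.volume_Icc]
      exact ENNReal.ofReal_le_ofReal h
    · simp
  have h1 : MeasureTheory.volume (Set.Ioo (0 : ℝ) 1) ≤
      ∑ v, MeasureTheory.volume (Set.Icc (a v (lo v)) (a v (hi v))) +
        ∑ r ∈ R, ENNReal.ofReal (D r) := by
    refine le_trans (MeasureTheory.measure_mono hcov) (le_trans (MeasureTheory.measure_union_le _ _)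
      (add_le_add (MeasureTheory.measure_iUnion_fintype_le _ _) ?_))
    exact le_trans (MeasureTheory.measure_biUnion_finset_le R B) (Finset.sum_le_sum hBv)
  simp only [Real.volume_Ioo, Real.volume_Icc, sub_zero] at h1
  have hn1 : ∀ v ∈ (univ : Finset W), 0 ≤ a v (hi v) - a v (lo v) := fun v _ => by
    have := hlo v (hi v); linarith
  rw [← ENNReal.ofReal_sum_of_nonneg hn1, ← ENNReal.ofReal_sum_of_nonneg hD,
    ← ENNReal.ofReal_add (sum_nonneg hn1) (sum_nonneg hD)] at h1
  rwa [ENNReal.ofReal_le_ofReal_iff (add_nonneg (sum_nonneg hn1) (sum_nonneg hD))] at h1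

end Pool.Agent.Lib.OWC
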