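import Pool.Agent.Lib.Pe46137.Defs

/-!
Networks with directed contacts, and their one-way pairs of states.
-/

namespace Pool.Agent.Lib.OWC

open Pool.Agent.Lib.Pe46137

/-- A network over Boolean variables indexed by `E`, with set of states `W` (a nondeterministic
branching program, or rectifier-and-switching network): a directed graph on `W` with two
distinguished states, whose contacts are permanently closed (`wire`), or labelled by a variable
(`pos e`, closed when variable `e` is `1`), or labelled by a negated variable (`neg e`, closed when
variable `e` is `0`).  Any ordered pair of states may carry any set of contacts. -/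
structure Network (E W : Type*) where
  source : W
  sink : W
  wire : W → W → Prop
  pos : E → W → W → Prop
  neg : E → W → W → Prop

namespace Network

variable {E W : Type*}

/-- some contact from `v` to `w` is closed if the variables in `G` are `1` and the others are `0` -/
def Closed (N : Network E W) (G : Set E) (v w : W) : Prop :=
  N.wire v w ∨ (∃ e ∈ G, N.pos e v w) ∨ ∃ e ∉ G, N.neg e v w

/-- the sink can be reached from the source along closed contacts, passed in their direction -/
def Accepts (N : Network E W) (G : Set E) : Prop :=
  Relation.ReflTransGen (N.Closed G) N.source N.sink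

/-- there is a contact from `v` to `w` such that no contact with the same label leads from `w`
to `v` -/
def OneWay (N : Network E W) (v w : W) : Prop :=
  (N.wire v w ∧ ¬ N.wire w v) ∨ (∃ e, N.pos e v w ∧ ¬ N.pos e w v) ∨
    ∃ e, N.neg e v w ∧ ¬ N.neg e w v

/-- no contact of the network is labelled by the negation of a variable in `M` -/
def Avoids (N : Network E W) (M : Set E) : Prop := ∀ e ∈ M, ∀ v w, ¬ N.neg e v w

end Network

/-- the digraph with arc set `G` has no directed cycle -/
def Acyclic {V : Type*} (G : Set (V × V)) : Prop :=
  ∀ v, ¬ Relation.TransGen (fun a b => (a, b) ∈ G) v v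

/-- the least number of states of a network that decides reachability from `s` to `t` on the
digraphs in `𝒢`, has at most `ρ` one-way pairs of states, and no contact labelled by the negation
of a variable in `M` -/
noncomputable def size {V : Type} (𝒢 : Set (Set (V × V))) (s t : V) (M : Set (V × V))
    (ρ : ℕ) : ℕ :=
  sInf {m | ∃ N : Network (V × V) (Fin m), (∀ G ∈ 𝒢, (N.Accepts G ↔ Reachable G s t)) ∧
    N.Avoids M ∧ {p : Fin m × Fin m | N.OneWay p.1 p.2}.ncard ≤ ρ}

end Pool.Agent.Lib.OWC
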