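import Pool.Agent.Lib.OWC.Defs

/-!
Networks with directed contacts, with few one-way pairs of states and few negated variables.
-/

namespace Pool.Agent.Lib.OWC

open Pool.Agent.Lib.Pe46137

namespace Network

variable {E W V : Type*}

/-- a contact from `v` to `w` that is permanently closed, or labelled by a variable in `P`, or
labelled by the negation of a variable in `F` -/
def ClosedBy (N : Network E W) (P F : Set E) (v w : W) : Prop :=
  N.wire v w ∨ (∃ e ∈ P, N.pos e v w) ∨ ∃ e ∈ F, N.neg e v w

/-- some walk from the source to the sink uses, in their direction, only permanently closed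
contacts, contacts labelled by variables in `P` and by negations of variables in `F` -/
def Reaches (N : Network E W) (P F : Set E) : Prop :=
  Relation.ReflTransGen (N.ClosedBy P F) N.source N.sink

/-- the network decides reachability from `s` to `t` on the digraphs in `𝒢`, and every digraph in
`𝒢` in which `t` is reachable from `s` has an accepting walk that uses at most `k` distinct negated
variables of `M` -/
def Decides (N : Network (V × V) W) (𝒢 : Set (Set (V × V))) (s t : V) (M : Set (V × V))
    (k : ℕ) : Prop :=
  ∀ G ∈ 𝒢, (N.Reaches G Gᶜ → Reachable G s t) ∧
    (Reachable G s t → ∃ F ⊆ Gᶜ, (F ∩ M).ncard ≤ k ∧ N.Reaches G F)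

end Network

/-- the least number of states of a network that decides reachability from `s` to `t` on the
digraphs in `𝒢` with at most `k` distinct negated variables of `M` on an accepting walk, and has at
most `ρ` one-way pairs of states -/
noncomputable def cost {V : Type} (𝒢 : Set (Set (V × V))) (s t : V) (M : Set (V × V))
    (k ρ : ℕ) : ℕ :=
  sInf {m | ∃ N : Network (V × V) (Fin m), N.Decides 𝒢 s t M k ∧
    {p : Fin m × Fin m | N.OneWay p.1 p.2}.ncard ≤ ρ}

end Pool.Agent.Lib.OWC
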