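import Pool.Agent.Lib.OWC.Defs

/-!
# Unrestricted networks: few one-way pairs force many states

A counting argument (one block of variables, in the style of Nechiporuk).  The digraphs considered
have arcs `s → p a`, `q b → t` (the block) and arcs `p a' → q b'` for `(a', b') ∈ M`; `t` is
reachable from `s` exactly if `(a, b) ∈ M`.  For fixed `M` the contacts whose labels lie outside the
block are given by an equivalence relation on the states and a set of one-way pairs.
-/

namespace Pool.Agent.Lib.OWC

open Pool.Agent.Lib.Pe46137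

namespace UnresAux

/-- the setoids on `Fin m` are at most `m ^ m` many -/
theorem card_setoid_le (m : ℕ) : ∃ c : Setoid (Fin m) → (Fin m → Fin m), Function.Injective c := by
  refine ⟨fun r v => Quotient.out (Quotient.mk r v), fun r r' h => ?_⟩
  ext v w
  have h1 : ∀ (r : Setoid (Fin m)) (v w : Fin m),
      r v w ↔ Quotient.out (Quotient.mk r v) = Quotient.out (Quotient.mk r w) := by
    intro r v w
    constructor
    · intro hvw
      have : Quotient.mk r v = Quotient.mk r w := Quotient.sound hvw
      rw [this]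
    · intro hvw
      have : Quotient.mk r v = Quotient.mk r w := by
        rw [← Quotient.out_eq (Quotient.mk r v), hvw, Quotient.out_eq]
      exact Quotient.exact this
  rw [h1 r v w, h1 r' v w]
  have hv := congrFun h v
  have hw := congrFun h w
  simp only at hv hw
  rw [hv, hw]

section

variable {n m k : ℕ} (N : Network (Fin n × Fin n) (Fin m)) (s t : Fin n) (p q : Fin k → Fin n)

/-- the labels of the block -/
def block : Set (Fin n × Fin n) := {e | (∃ a, e = (s, p a)) ∨ ∃ b, e = (q b, t)}

/-- the arcs outside the block -/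
def arcs (M : Set (Fin k × Fin k)) : Set (Fin n × Fin n) := {e | ∃ x ∈ M, e = (p x.1, q x.2)}

/-- the digraph -/
def graph (M : Set (Fin k × Fin k)) (a b : Fin k) : Set (Fin n × Fin n) :=
  {e | e = (s, p a) ∨ e = (q b, t) ∨ e ∈ arcs p q M}

/-- contacts with labels outside the block -/
def outer (M : Set (Fin k × Fin k)) (v w : Fin m) : Prop :=
  N.wire v w ∨ (∃ e ∈ arcs p q M, N.pos e v w) ∨
    ∃ e, e ∉ arcs p q M ∧ e ∉ block s t p q ∧ N.neg e v w

/-- contacts with labels in the block -/
def inner (a b : Fin k) (v w : Fin m) : Prop :=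
  (∃ e, (e = (s, p a) ∨ e = (q b, t)) ∧ N.pos e v w) ∨
    ∃ e ∈ block s t p q, e ≠ (s, p a) ∧ e ≠ (q b, t) ∧ N.neg e v w

/-- the equivalence relation generated by the two-way contacts outside the block -/
def sym (M : Set (Fin k × Fin k)) : Setoid (Fin m) :=
  Relation.EqvGen.setoid fun v w => outer N s t p q M v w ∧ ¬ N.OneWay v w

/-- the closed one-way pairs outside the block -/
def ows (M : Set (Fin k × Fin k)) : Set {x : Fin m × Fin m | N.OneWay x.1 x.2} :=
  {x | outer N s t p q M x.1.1 x.1.2}

theorem outer_symm {M : Set (Fin k × Fin k)} {v w : Fin m} (h : outer N s t p q M v w)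
    (h1 : ¬ N.OneWay v w) : outer N s t p q M w v := by
  unfold Network.OneWay at h1
  push Not at h1
  obtain ⟨hw, hp, hn⟩ := h1
  rcases h with h | ⟨e, he, h⟩ | ⟨e, he, he', h⟩
  · exact Or.inl (hw h)
  · exact Or.inr (Or.inl ⟨e, he, hp e h⟩)
  · exact Or.inr (Or.inr ⟨e, he, he', hn e h⟩)

theorem sym_le {M : Set (Fin k × Fin k)} {v w : Fin m} (h : sym N s t p q M v w) :
    Relation.ReflTransGen (outer N s t p q M) v w := by
  have h' : Relation.EqvGen (fun v w => outer N s t p q M v w ∧ ¬ N.OneWay v w) v w := h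
  have key : ∀ v w, Relation.EqvGen (fun v w => outer N s t p q M v w ∧ ¬ N.OneWay v w) v w →
      Relation.ReflTransGen (outer N s t p q M) v w ∧
      Relation.ReflTransGen (outer N s t p q M) w v := by
    intro v w h
    induction h with
    | rel x y hxy =>
      exact ⟨Relation.ReflTransGen.single hxy.1,
        Relation.ReflTransGen.single (outer_symm N s t p q hxy.1 hxy.2)⟩
    | refl x => exact ⟨Relation.ReflTransGen.refl, Relation.ReflTransGen.refl⟩
    | symm x y _ ih => exact ⟨ih.2, ih.1⟩
    | trans x y z _ _ ih1 ih2 => exact ⟨ih1.1.trans ih2.1, ih2.2.trans ih1.2⟩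
  exact (key v w h').1

/-- the outer closure is determined by the code -/
theorem closure_le {M M' : Set (Fin k × Fin k)} (h1 : sym N s t p q M = sym N s t p q M')
    (h2 : ows N s t p q M = ows N s t p q M') {v w : Fin m} (h : outer N s t p q M v w) :
    Relation.ReflTransGen (outer N s t p q M') v w := by
  by_cases ho : N.OneWay v w
  · have hx : (⟨(v, w), ho⟩ : {x : Fin m × Fin m | N.OneWay x.1 x.2}) ∈ ows N s t p q M := h
    rw [h2] at hx
    exact Relation.ReflTransGen.single hx
  · have hs : sym N s t p q M v w := Relation.EqvGen.rel v w ⟨h, ho⟩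
    rw [h1] at hs
    exact sym_le N s t p q hs

variable {s t p q}

theorem closed_iff (hps : ∀ a, p a ≠ s) (hqt : ∀ b, q b ≠ t)
    (M : Set (Fin k × Fin k)) (a b : Fin k) (v w : Fin m) :
    N.Closed (graph s t p q M a b) v w ↔ outer N s t p q M v w ∨ inner N s t p q a b v w := by
  have hdisj : ∀ e ∈ block s t p q, e ∉ arcs p q M := by
    rintro e (⟨a', rfl⟩ | ⟨b', rfl⟩) ⟨x, _, hx⟩
    · exact hps x.1 (Prod.ext_iff.1 hx).1.symm
    · exact hqt x.2 (Prod.ext_iff.1 hx).2.symm
  constructor
  · rintro (h | ⟨e, he, h⟩ | ⟨e, he, h⟩)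
    · exact Or.inl (Or.inl h)
    · rcases he with he | he | he
      · exact Or.inr (Or.inl ⟨e, Or.inl he, h⟩)
      · exact Or.inr (Or.inl ⟨e, Or.inr he, h⟩)
      · exact Or.inl (Or.inr (Or.inl ⟨e, he, h⟩))
    · have he1 : e ≠ (s, p a) := fun h' => he (Or.inl h')
      have he2 : e ≠ (q b, t) := fun h' => he (Or.inr (Or.inl h'))
      have he3 : e ∉ arcs p q M := fun h' => he (Or.inr (Or.inr h'))
      by_cases hb : e ∈ block s t p q
      · exact Or.inr (Or.inr ⟨e, hb, he1, he2, h⟩)
      · exact Or.inl (Or.inr (Or.inr ⟨e, he3, hb, h⟩))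
  · rintro ((h | ⟨e, he, h⟩ | ⟨e, he, he', h⟩) | (⟨e, he, h⟩ | ⟨e, he, he1, he2, h⟩))
    · exact Or.inl h
    · exact Or.inr (Or.inl ⟨e, Or.inr (Or.inr he), h⟩)
    · refine Or.inr (Or.inr ⟨e, ?_, h⟩)
      rintro (h' | h' | h')
      · exact he' (Or.inl ⟨a, h'⟩)
      · exact he' (Or.inr ⟨b, h'⟩)
      · exact he h'
    · refine Or.inr (Or.inl ⟨e, ?_, h⟩)
      rcases he with he | he
      · exact Or.inl he
      · exact Or.inr (Or.inl he)
    · refine Or.inr (Or.inr ⟨e, ?_, h⟩)
      rintro (h' | h' | h')
      · exact he1 h'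
      · exact he2 h'
      · exact hdisj e he h'

theorem accepts_mono (hps : ∀ a, p a ≠ s) (hqt : ∀ b, q b ≠ t)
    {M M' : Set (Fin k × Fin k)} (h1 : sym N s t p q M = sym N s t p q M')
    (h2 : ows N s t p q M = ows N s t p q M') (a b : Fin k)
    (h : N.Accepts (graph s t p q M a b)) : N.Accepts (graph s t p q M' a b) := by
  have key : ∀ v w, Relation.ReflTransGen (N.Closed (graph s t p q M a b)) v w →
      Relation.ReflTransGen (N.Closed (graph s t p q M' a b)) v w := by
    intro v w h
    induction h with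
    | refl => exact Relation.ReflTransGen.refl
    | tail _ hxy ih =>
      refine ih.trans ?_
      rcases (closed_iff N hps hqt M a b _ _).1 hxy with h' | h'
      · refine Relation.ReflTransGen.mono ?_ _ _ (closure_le N s t p q h1 h2 h')
        intro x y hxy
        exact (closed_iff N hps hqt M' a b x y).2 (Or.inl hxy)
      · exact Relation.ReflTransGen.single
          ((closed_iff N hps hqt M' a b _ _).2 (Or.inr h'))
  exact key _ _ h

/-- the rank of a vertex -/
noncomputable def rank (s t : Fin n) (p : Fin k → Fin n) (v : Fin n) : ℕ := by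
  classical
  exact if v = s then 0 else if v = t then 3 else if ∃ a, v = p a then 1 else 2

theorem graph_acyclic (hst : s ≠ t) (hps : ∀ a, p a ≠ s) (hqt : ∀ b, q b ≠ t)
    (hqs : ∀ b, q b ≠ s) (hpt : ∀ a, p a ≠ t) (hpq : ∀ a b, p a ≠ q b)
    (M : Set (Fin k × Fin k)) (a b : Fin k) : Acyclic (graph s t p q M a b) := by
  classical
  have rs : rank s t p s = 0 := by simp [rank]
  have rt : rank s t p t = 3 := by simp [rank, hst.symm]
  have rp : ∀ a, rank s t p (p a) = 1 := by
    intro a
    unfold rank
    rw [if_neg (hps a), if_neg (hpt a), if_pos ⟨a, rfl⟩]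
  have rq : ∀ b, rank s t p (q b) = 2 := by
    intro b
    unfold rank
    rw [if_neg (hqs b), if_neg (hqt b), if_neg]
    rintro ⟨a, h⟩
    exact hpq a b h.symm
  have step : ∀ x y, (x, y) ∈ graph s t p q M a b → rank s t p x < rank s t p y := by
    rintro x y (h | h | ⟨z, _, h⟩)
    · obtain ⟨h1, h2⟩ := Prod.mk.inj h
      rw [h1, h2, rs, rp]; norm_num
    · obtain ⟨h1, h2⟩ := Prod.mk.inj h
      rw [h1, h2, rt, rq]; norm_num
    · obtain ⟨h1, h2⟩ := Prod.mk.inj h
      rw [h1, h2, rp, rq]; norm_num
  have key : ∀ x y, Relation.TransGen (fun a' b' => (a', b') ∈ graph s t p q M a b) x y →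
      rank s t p x < rank s t p y := by
    intro x y h
    induction h with
    | single h => exact step _ _ h
    | tail _ h ih => exact ih.trans (step _ _ h)
  intro v hv
  exact lt_irrefl _ (key v v hv)

theorem reachable_iff (hst : s ≠ t) (hps : ∀ a, p a ≠ s) (hqt : ∀ b, q b ≠ t)
    (hqs : ∀ b, q b ≠ s) (hpt : ∀ a, p a ≠ t) (hpq : ∀ a b, p a ≠ q b)
    (hp : Function.Injective p) (hq : Function.Injective q)
    (M : Set (Fin k × Fin k)) (a b : Fin k) :
    Reachable (graph s t p q M a b) s t ↔ (a, b) ∈ M := by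
  constructor
  · intro h
    have key : ∀ v, Relation.ReflTransGen (fun x y => (x, y) ∈ graph s t p q M a b) s v →
        v = s ∨ v = p a ∨ (∃ b', (a, b') ∈ M ∧ v = q b') ∨ (v = t ∧ (a, b) ∈ M) := by
      intro v h
      induction h with
      | refl => exact Or.inl rfl
      | tail _ hxy ih =>
        rcases hxy with hxy | hxy | ⟨z, hz, hxy⟩
        · exact Or.inr (Or.inl (Prod.ext_iff.1 hxy).2)
        · obtain ⟨hx, hy⟩ := Prod.ext_iff.1 hxy
          simp only at hx hy
          rcases ih with h' | h' | ⟨b', hb', h'⟩ | ⟨h', _⟩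
          · exact absurd (hx.symm.trans h') (hqs b)
          · exact absurd (hx.symm.trans h').symm (hpq a b)
          · have : b = b' := hq (hx.symm.trans h')
            subst this
            exact Or.inr (Or.inr (Or.inr ⟨hy, hb'⟩))
          · exact absurd (hx.symm.trans h') (hqt b)
        · obtain ⟨hx, hy⟩ := Prod.ext_iff.1 hxy
          simp only at hx hy
          rcases ih with h' | h' | ⟨b', hb', h'⟩ | ⟨h', _⟩
          · exact absurd (hx.symm.trans h') (hps z.1)
          · have : z.1 = a := hp (hx.symm.trans h')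
            refine Or.inr (Or.inr (Or.inl ⟨z.2, ?_, hy⟩))
            rw [← this]
            exact hz
          · exact absurd (hx.symm.trans h') (hpq z.1 b')
          · exact absurd (hx.symm.trans h') (hpt z.1)
    rcases key t h with h' | h' | ⟨b', _, h'⟩ | ⟨_, h'⟩
    · exact absurd h'.symm hst
    · exact absurd h'.symm (hpt a)
    · exact absurd h'.symm (hqt b')
    · exact h'
  · intro h
    refine Relation.ReflTransGen.head (b := p a) (Or.inl rfl) ?_
    refine Relation.ReflTransGen.head (b := q b) (Or.inr (Or.inr ⟨(a, b), h, rfl⟩)) ?_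
    exact Relation.ReflTransGen.single (Or.inr (Or.inl rfl))

end

end UnresAux

open UnresAux in
/-- **Unrestricted lower bound.**  A network with `m` states (any contacts, negations allowed) that
decides reachability on the acyclic digraphs with `n` vertices has `m log m + ρ ≥ ⌊(n-2)/2⌋²`,
where `ρ` is its number of one-way pairs of states. -/
theorem unrestricted {n m : ℕ} {s t : Fin n} (hst : s ≠ t) (N : Network (Fin n × Fin n) (Fin m))
    (h : ∀ G, Acyclic G → (N.Accepts G ↔ Reachable G s t)) :
    2 ^ (((n - 2) / 2) ^ 2) ≤ m ^ m * 2 ^ {x : Fin m × Fin m | N.OneWay x.1 x.2}.ncard := by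
  classical
  set k := (n - 2) / 2 with hk
  -- the vertices
  have hcard : Fintype.card (Fin k ⊕ Fin k) ≤ Fintype.card {v : Fin n // v ≠ s ∧ v ≠ t} := by
    rw [Fintype.card_sum, Fintype.card_fin, Fintype.card_subtype]
    have h1 : (Finset.univ.filter fun v : Fin n => v ≠ s ∧ v ≠ t) = Finset.univ \ {s, t} := by
      ext v; simp
    rw [h1, Finset.card_sdiff_of_subset (Finset.subset_univ _), Finset.card_univ, Fintype.card_fin,
      Finset.card_pair hst]
    omega
  obtain ⟨f⟩ := Function.Embedding.nonempty_of_card_le hcard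
  let p : Fin k → Fin n := fun a => (f (Sum.inl a)).1
  let q : Fin k → Fin n := fun b => (f (Sum.inr b)).1
  have hps : ∀ a, p a ≠ s := fun a => (f (Sum.inl a)).2.1
  have hpt : ∀ a, p a ≠ t := fun a => (f (Sum.inl a)).2.2
  have hqs : ∀ b, q b ≠ s := fun b => (f (Sum.inr b)).2.1
  have hqt : ∀ b, q b ≠ t := fun b => (f (Sum.inr b)).2.2
  have hp : Function.Injective p := by
    intro a a' h
    exact Sum.inl_injective (f.injective (Subtype.ext h))
  have hq : Function.Injective q := by
    intro a a' h
    exact Sum.inr_injective (f.injective (Subtype.ext h))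
  have hpq : ∀ a b, p a ≠ q b := by
    intro a b h
    have := f.injective (Subtype.ext h)
    cases this
  obtain ⟨c, hc⟩ := card_setoid_le m
  let Φ : Set (Fin k × Fin k) →
      (Fin m → Fin m) × Set {x : Fin m × Fin m | N.OneWay x.1 x.2} :=
    fun M => (c (sym N s t p q M), ows N s t p q M)
  have hΦ : Function.Injective Φ := by
    intro M M' hMM
    have h1 : sym N s t p q M = sym N s t p q M' := hc (Prod.ext_iff.1 hMM).1
    have h2 : ows N s t p q M = ows N s t p q M' := (Prod.ext_iff.1 hMM).2
    ext ⟨a, b⟩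
    rw [← reachable_iff hst hps hqt hqs hpt hpq hp hq M a b,
      ← reachable_iff hst hps hqt hqs hpt hpq hp hq M' a b,
      ← h _ (graph_acyclic hst hps hqt hqs hpt hpq M a b),
      ← h _ (graph_acyclic hst hps hqt hqs hpt hpq M' a b)]
    exact ⟨accepts_mono N hps hqt h1 h2 a b,
      accepts_mono N hps hqt h1.symm h2.symm a b⟩
  have hle := Nat.card_le_card_of_injective Φ hΦ
  have e1 : Nat.card (Set (Fin k × Fin k)) = 2 ^ (k ^ 2) := by
    rw [Nat.card_eq_fintype_card, Fintype.card_set, Fintype.card_prod, Fintype.card_fin, sq]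
  have e2 : Nat.card ((Fin m → Fin m) × Set {x : Fin m × Fin m | N.OneWay x.1 x.2}) =
      m ^ m * 2 ^ {x : Fin m × Fin m | N.OneWay x.1 x.2}.ncard := by
    rw [Nat.card_prod, Nat.card_fun, Nat.card_eq_fintype_card (α := Fin m), Fintype.card_fin,
      Nat.card_eq_fintype_card (α := Set _), Fintype.card_set, ← Nat.card_eq_fintype_card,
      Nat.card_coe_set_eq]
  rw [e1, e2] at hle
  exact hle

end Pool.Agent.Lib.OWC
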