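import Pool.Agent.Lib.OWC.MainK
import Pool.Agent.Lib.OWC.Unres

/-!
# Final: all parts
-/

namespace Pool.Agent.Lib.OWC

open Pool.Agent.Lib.Pe46137

theorem reaches_mono {E W : Type} {N : Network E W} {P F F' : Set E} (hF : F ⊆ F')
    (h : N.Reaches P F) : N.Reaches P F' := by
  refine Relation.ReflTransGen.mono (fun v w hvw => ?_) _ _ h
  rcases hvw with h | h | ⟨e, he, h⟩
  · exact Or.inl h
  · exact Or.inr (Or.inl h)
  · exact Or.inr (Or.inr ⟨e, hF he, h⟩)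

theorem accepts_iff {n m k : ℕ} {𝒢 : Set (Set (Fin n × Fin n))} {s t : Fin n}
    {M : Set (Fin n × Fin n)} {N : Network (Fin n × Fin n) (Fin m)} (hN : N.Decides 𝒢 s t M k)
    {G : Set (Fin n × Fin n)} (hG : G ∈ 𝒢) : N.Accepts G ↔ Reachable G s t := by
  have h : N.Accepts G ↔ N.Reaches G Gᶜ := Iff.rfl
  rw [h]
  refine ⟨(hN G hG).1, fun hr => ?_⟩
  obtain ⟨F, h1, _, h2⟩ := (hN G hG).2 hr
  exact reaches_mono h1 h2

/-- the counting bound for networks with arbitrary negations -/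
theorem count_bound {n m k ρ : ℕ} {𝒢 : Set (Set (Fin n × Fin n))} {s t : Fin n} (hst : s ≠ t)
    (h𝒢 : ∀ G, Acyclic G → G ∈ 𝒢) {M : Set (Fin n × Fin n)}
    {N : Network (Fin n × Fin n) (Fin m)} (hN : N.Decides 𝒢 s t M k)
    (hρ : {p : Fin m × Fin m | N.OneWay p.1 p.2}.ncard ≤ ρ) :
    (n : ℝ) ^ 2 ≤ 1280 * (m * Real.logb 2 m + ρ) := by
  have h2 : (1 : ℝ) < 2 := by norm_num
  have hac : Acyclic (∅ : Set (Fin n × Fin n)) := by
    intro v hv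
    cases hv with
    | single h => exact h
    | tail _ h => exact h
  have hm2 : 2 ≤ m := by
    by_contra hc
    have hm : m = 1 := by
      have := N.source.2
      omega
    subst hm
    have h1 : N.source = N.sink := Subsingleton.elim _ _
    have h3 : N.Reaches ∅ ∅ᶜ := by
      unfold Network.Reaches
      rw [h1]
    have h4 := (hN ∅ (h𝒢 ∅ hac)).1 h3
    rcases Relation.ReflTransGen.cases_tail h4 with h | ⟨_, _, h⟩
    · exact hst h.symm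
    · exact h
  have hm2' : (2 : ℝ) ≤ m := by exact_mod_cast hm2
  have hlm : 1 ≤ Real.logb 2 m := by
    rw [Real.le_logb_iff_rpow_le h2 (by positivity)]
    simpa using hm2'
  have hρ0 : (0 : ℝ) ≤ ρ := Nat.cast_nonneg _
  have hml : 2 ≤ m * Real.logb 2 m := by nlinarith
  have h1 := unrestricted hst N (fun G hG => accepts_iff hN (h𝒢 G hG))
  have h3 : 2 ^ (((n - 2) / 2) ^ 2) ≤ m ^ m * 2 ^ ρ :=
    le_trans h1 (Nat.mul_le_mul_left _ (Nat.pow_le_pow_right (by norm_num) hρ))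
  have h4 : ((((n - 2) / 2) ^ 2 : ℕ) : ℝ) ≤ m * Real.logb 2 m + ρ := by
    have h5 : ((((n - 2) / 2) ^ 2 : ℕ) : ℝ) ≤ Real.logb 2 ((m ^ m * 2 ^ ρ : ℕ) : ℝ) := by
      rw [Real.le_logb_iff_rpow_le h2 (by positivity), Real.rpow_natCast]
      exact_mod_cast h3
    push_cast at h5 ⊢
    rwa [Real.logb_mul (by positivity) (by positivity), Real.logb_pow, Real.logb_pow,
      Real.logb_self_eq_one h2, mul_one] at h5
  rcases le_or_gt n 4 with hn | hn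
  · have h5 : (n : ℝ) ≤ 4 := by exact_mod_cast hn
    have h6 : (n : ℝ) ^ 2 ≤ 4 ^ 2 := by gcongr
    linarith
  · have h5 : n ≤ 8 * ((n - 2) / 2) := by omega
    have h6 : (n : ℝ) ≤ 8 * (((n - 2) / 2 : ℕ) : ℝ) := by exact_mod_cast h5
    have h7 : (n : ℝ) ^ 2 ≤ 64 * ((((n - 2) / 2) ^ 2 : ℕ) : ℝ) := by
      calc (n : ℝ) ^ 2 ≤ (8 * (((n - 2) / 2 : ℕ) : ℝ)) ^ 2 := by gcongr
        _ = 64 * ((((n - 2) / 2) ^ 2 : ℕ) : ℝ) := by push_cast; ring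
    linarith

theorem final : ∃ C : ℝ, 0 < C ∧ ∀ (n : ℕ) (s t : Fin n), s ≠ t →
    ∀ (𝒢 : Set (Set (Fin n × Fin n))) (M : Set (Fin n × Fin n)) (k ρ : ℕ),
    ((∀ G, Acyclic G → G ∈ 𝒢) →
      (n : ℝ) ^ 2 ≤ C * (cost 𝒢 s t M k ρ * Real.logb 2 (cost 𝒢 s t M k ρ) + ρ) ∧
      ∀ X : Finset (Fin n), (∀ u ∈ X, ∀ v ∈ X, u ≠ v → (u, v) ∈ M) → k + 1 ≤ X.card ^ 2 →
        Real.logb 2 ((X.card : ℝ) ^ 2 / (k + 1)) *
          (Real.logb 2 ((X.card : ℝ) ^ 2 / ((k + 1) * (ρ + 1))) -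
            C * (1 + Real.logb 2 (Real.logb 2 n))) ≤ C * Real.logb 2 (cost 𝒢 s t M k ρ)) ∧
    (n ^ 2 ≤ ρ → cost 𝒢 s t M k ρ ≤ n) ∧
    Real.logb 2 (cost 𝒢 s t M k 0) ≤
      C * (Real.logb 2 (cost 𝒢 s t M k ρ) + Real.logb 2 (ρ + 1) ^ 2) := by
  refine ⟨1280, by norm_num, fun n s t hst 𝒢 M k ρ => ⟨fun h𝒢 => ⟨?_, fun X hX hk => ?_⟩,
    fun hρ => ?_, ?_⟩⟩
  · obtain ⟨N, h1, h2⟩ := cost_spec s t 𝒢 M k ρ
    exact count_bound hst h𝒢 h1 h2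
  · obtain ⟨N, h1, h2⟩ := cost_spec s t 𝒢 M k ρ
    exact lowerK hst M X hX hk N (fun G hG => h1 G (h𝒢 G hG)) h2
  · exact Nat.sInf_le ⟨plain s t, plain_decides s t 𝒢 M k, le_trans (ncard_pairs_le _) hρ⟩
  · have hpos : ∀ ρ, 1 ≤ cost 𝒢 s t M k ρ := by
      intro ρ
      obtain ⟨N, _⟩ := cost_spec s t 𝒢 M k ρ
      have := N.source.2
      omega
    have hlog : ∀ ρ, 0 ≤ Real.logb 2 (cost 𝒢 s t M k ρ) := fun ρ =>
      Real.logb_nonneg (by norm_num) (by exact_mod_cast hpos ρ)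
    rcases Nat.eq_zero_or_pos ρ with h0 | h0
    · subst h0
      have := hlog 0
      nlinarith [sq_nonneg (Real.logb 2 (((0 : ℕ) : ℝ) + 1))]
    · exact elim_log_aux (hpos ρ) (hpos 0) h0 (cost_elim s t 𝒢 M k ρ)

end Pool.Agent.Lib.OWC
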