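import Pool.Agent.Lib.Pe46137.Core

/-!
# Moment: a second moment bound for sums of Fourier coefficients along random paths

Parseval: `∑ S, coef h S ^ 2 = avg (h * h)` (take `avg_comp_mul` in `Pe46137/Fourier.lean` with both
embeddings `Function.Embedding.refl Q`, or directly from `expand`).

`moment`: by Cauchy-Schwarz (`Finset.sum_mul_sq_le_sq_mul_sq` with `a U * √(N U)` and
`coef h (U.map (p f)) / √(N U)`, or `Finset.sum_sq_le_sum_mul_sum_of_sq_eq_mul`)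
`(∑ U ∈ 𝒰, a U * coef h (U.map (p f))) ^ 2 ≤ (∑ U ∈ 𝒰, a U ^ 2 * N U) *
∑ U ∈ 𝒰, coef h (U.map (p f)) ^ 2 / N U`.  Sum over `f ∈ F'` and exchange:
`∑ f ∈ F', coef h (U.map (p f)) ^ 2 = ∑ S, #{f ∈ F' | U.map (p f) = S} * coef h S ^ 2 ≤
N U * ∑ S ∈ T U, coef h S ^ 2` where `T U = F'.image (fun f => U.map (p f))`
(`Finset.sum_comp` or `Finset.sum_fiberwise_of_maps_to`).  The sets `T U` are pairwise disjoint by
`hdis`, so `∑ U ∈ 𝒰, ∑ S ∈ T U, coef h S ^ 2 ≤ ∑ S, coef h S ^ 2 = avg (h * h)`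
(`Finset.sum_biUnion`).
-/

namespace Pool.Agent.Lib.OWC

open Finset Pool.Agent.Lib.Pe46137

theorem parseval {Q : Type*} [Fintype Q] [DecidableEq Q] (h : (Q → Bool) → ℝ) :
    ∑ S : Finset Q, coef h S ^ 2 = avg (fun x => h x * h x) := by
  have h2 := avg_comp_mul (Function.Embedding.refl Q) (Function.Embedding.refl Q) h h
  simp only [Function.Embedding.refl_apply, Finset.map_refl] at h2
  change _ = avg (fun x => h (fun i => x i) * h (fun i => x i))
  rw [h2]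
  refine sum_congr rfl fun S _ => ?_
  rw [Finset.sum_ite_eq]
  simp [sq]

theorem moment {Q F : Type*} [Fintype Q] [DecidableEq Q] {l : ℕ} (F' : Finset F)
    (p : F → (Fin l ↪ Q)) (𝒰 : Finset (Finset (Fin l))) (a N : Finset (Fin l) → ℝ)
    (hN : ∀ U ∈ 𝒰, 0 < N U)
    (hcount : ∀ U ∈ 𝒰, ∀ S : Finset Q, ((F'.filter (fun f => U.map (p f) = S)).card : ℝ) ≤ N U)
    (hdis : ∀ f ∈ F', ∀ f' ∈ F', ∀ U ∈ 𝒰, ∀ U' ∈ 𝒰, U.map (p f) = U'.map (p f') → U = U')
    (h : (Q → Bool) → ℝ) :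
    ∑ f ∈ F', (∑ U ∈ 𝒰, a U * coef h (U.map (p f))) ^ 2 ≤
      (∑ U ∈ 𝒰, a U ^ 2 * N U) * avg (fun x => h x * h x) := by
  classical
  have hA : 0 ≤ ∑ U ∈ 𝒰, a U ^ 2 * N U :=
    sum_nonneg fun U hU => mul_nonneg (sq_nonneg _) (hN U hU).le
  have h1 : ∀ f ∈ F', (∑ U ∈ 𝒰, a U * coef h (U.map (p f))) ^ 2 ≤
      (∑ U ∈ 𝒰, a U ^ 2 * N U) * ∑ U ∈ 𝒰, coef h (U.map (p f)) ^ 2 / N U := by
    intro f _
    refine Finset.sum_sq_le_sum_mul_sum_of_sq_le_mul 𝒰
      (fun U hU => mul_nonneg (sq_nonneg _) (hN U hU).le)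
      (fun U hU => div_nonneg (sq_nonneg _) (hN U hU).le) ?_
    intro U hU
    have := (hN U hU).ne'
    apply le_of_eq
    field_simp
  refine (sum_le_sum h1).trans ?_
  rw [← mul_sum]
  refine mul_le_mul_of_nonneg_left ?_ hA
  rw [sum_comm]
  have h2 : ∀ U ∈ 𝒰, ∑ f ∈ F', coef h (U.map (p f)) ^ 2 / N U ≤
      ∑ S ∈ F'.image (fun f => U.map (p f)), coef h S ^ 2 := by
    intro U hU
    rw [← sum_div, div_le_iff₀ (hN U hU), sum_mul]
    rw [← Finset.sum_fiberwise_of_maps_to (g := fun f => U.map (p f))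
      (t := F'.image (fun f => U.map (p f))) (fun f hf => mem_image_of_mem _ hf)]
    refine sum_le_sum fun S _ => ?_
    have h3 : ∑ f ∈ F' with U.map (p f) = S, coef h (U.map (p f)) ^ 2 =
        ((F'.filter (fun f => U.map (p f) = S)).card : ℝ) * coef h S ^ 2 := by
      rw [← nsmul_eq_mul, ← sum_const]
      refine sum_congr rfl fun f hf => ?_
      rw [(mem_filter.mp hf).2]
    rw [h3, mul_comm]
    exact mul_le_mul_of_nonneg_left (hcount U hU S) (sq_nonneg _)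
  refine (sum_le_sum h2).trans ?_
  rw [← Finset.sum_biUnion, ← parseval]
  · exact sum_le_sum_of_subset_of_nonneg (subset_univ _) fun S _ _ => sq_nonneg _
  · intro U hU U' hU' hne
    rw [Function.onFun, Finset.disjoint_left]
    intro S hS hS'
    obtain ⟨f, hf, rfl⟩ := mem_image.mp hS
    obtain ⟨f', hf', h4⟩ := mem_image.mp hS'
    exact hne (hdis f hf f' hf' U hU U' hU' h4.symm)

end Pool.Agent.Lib.OWC
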