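import Mathlib

/-!
# PowSum: numerical sums over sets

All exponents use truncated subtraction.  Write `x = 9 l`, so `9 ≤ x`, `x ^ 4 ≤ q`, in particular
`2 x ≤ q`.  By cardinality (as in `avg_vec_sq_le` of `Pe46137/Nice.lean`: `sum_fiberwise_of_maps_to`,
`card_powersetCard`, `Nat.choose_le_pow`), `∑_{|U| = u} 9 ^ |U| = C(l, u) 9 ^ u ≤ x ^ u`.

* `pow_sum_a`: `≤ ∑_{u = k}^{d - 1} x ^ u q ^ (d - 1 - u) + x ^ d`.  As `2 x ≤ q`,
  `x ^ u q ^ (d - 1 - u) ≤ x ^ k q ^ (d - 1 - k) / 2 ^ (u - k)`, so the sum is at most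
  `2 x ^ k q ^ (d - 1 - k)` (show by induction on `r` that
  `∑_{u ∈ [k, k + r]} ≤ (2 - 1 / 2 ^ r) * ..`, or compare with a geometric series), and
  `x ^ d = x ^ k x ^ (d - k) ≤ x ^ k q ^ (d - 1 - k)` because `d - k ≤ 4 (d - 1 - k)`.
* `pow_sum_b`: in the same way `≤ ∑_{u = 1}^{d - 2} x ^ u q ^ (d - 2 - u) + x ^ (d - 1) ≤
  2 x q ^ (d - 3) + x q ^ (d - 3)`, because `d - 2 ≤ 4 (d - 3)`.
* `pow_sum_c`: `C(l, d) 9 ^ d * 9 q / 4 ≤ x ^ d * 9 q / 4 ≤ x q ^ (d - 3)`, because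
  `9 / 4 * x ^ (d - 1) ≤ x ^ d ≤ (x ^ 4) ^ (d - 4) ≤ q ^ (d - 4)`, as `d ≤ 4 (d - 4)` for `6 ≤ d`.
-/

namespace Pool.Agent.Lib.OWC

open Finset

variable {d l q : ℕ}

namespace PowSumAux

lemma card_layer (l u : ℕ) (S : Finset ℕ) (hu : u ∈ S) :
    (((univ.filter fun U : Finset (Fin l) => U.card ∈ S).filter fun U => U.card = u).card : ℝ) ≤
      (l : ℝ) ^ u := by
  have h1 : ((univ.filter fun U : Finset (Fin l) => U.card ∈ S).filter fun U => U.card = u) ⊆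
      powersetCard u univ := by
    intro U hU
    rw [mem_filter] at hU
    rw [mem_powersetCard]
    exact ⟨subset_univ _, hU.2⟩
  have h2 := card_le_card h1
  rw [card_powersetCard, card_univ, Fintype.card_fin] at h2
  have h3 : l.choose u ≤ l ^ u := Nat.choose_le_pow l u
  exact_mod_cast h2.trans h3

lemma layer (l : ℕ) (S : Finset ℕ) (f : ℕ → ℝ) (hf : ∀ u, 0 ≤ f u) :
    ∑ U : Finset (Fin l) with U.card ∈ S, (9 : ℝ) ^ U.card * f U.card ≤
      ∑ u ∈ S, ((9 : ℝ) * l) ^ u * f u := by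
  rw [← sum_fiberwise_of_maps_to (s := univ.filter fun U : Finset (Fin l) => U.card ∈ S) (t := S)
    (g := fun U => U.card) (fun U hU => (mem_filter.mp hU).2)]
  refine sum_le_sum fun u hu => ?_
  have h1 : ∑ U ∈ (univ.filter fun U : Finset (Fin l) => U.card ∈ S).filter fun U => U.card = u,
      (9 : ℝ) ^ U.card * f U.card =
      ∑ _U ∈ (univ.filter fun U : Finset (Fin l) => U.card ∈ S).filter fun U => U.card = u,
        (9 : ℝ) ^ u * f u := by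
    refine sum_congr rfl fun U hU => ?_
    rw [(mem_filter.mp hU).2]
  rw [h1, sum_const, nsmul_eq_mul, mul_pow]
  have h2 := card_layer l u S hu
  have h3 : 0 ≤ (9 : ℝ) ^ u * f u := mul_nonneg (by positivity) (hf u)
  calc _ ≤ (l : ℝ) ^ u * ((9 : ℝ) ^ u * f u) := mul_le_mul_of_nonneg_right h2 h3
    _ = _ := by ring

lemma geo {x q : ℝ} (hx : 0 ≤ x) (hxq : 2 * x ≤ q) (r : ℕ) : ∀ k : ℕ,
    ∑ v ∈ range (r + 1), x ^ (k + v) * q ^ (r - v) ≤ 2 * x ^ k * q ^ r := by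
  induction r with
  | zero =>
    intro k
    have : 0 ≤ x ^ k := pow_nonneg hx k
    simp
    linarith
  | succ r ih =>
    intro k
    have hq : 0 ≤ q := by linarith
    rw [sum_range_succ']
    have h1 : ∑ v ∈ range (r + 1), x ^ (k + (v + 1)) * q ^ (r + 1 - (v + 1)) =
        ∑ v ∈ range (r + 1), x ^ (k + 1 + v) * q ^ (r - v) := by
      refine sum_congr rfl fun v _ => ?_
      rw [Nat.add_sub_add_right, show k + (v + 1) = k + 1 + v by ring]
    rw [h1]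
    have h2 := ih (k + 1)
    have h3 : 2 * x ^ (k + 1) * q ^ r ≤ x ^ k * q ^ (r + 1) := by
      have h4 : 0 ≤ x ^ k * q ^ r := mul_nonneg (pow_nonneg hx k) (pow_nonneg hq r)
      calc 2 * x ^ (k + 1) * q ^ r = (x ^ k * q ^ r) * (2 * x) := by ring
        _ ≤ (x ^ k * q ^ r) * q := mul_le_mul_of_nonneg_left hxq h4
        _ = _ := by ring
    simp only [add_zero, Nat.sub_zero]
    linarith

/-- the sum with one extra term -/
lemma geo' {x q : ℝ} (hx : 1 ≤ x) (hxq : 2 * x ≤ q) (hx4 : x ^ 4 ≤ q) (r : ℕ) (hr : 1 ≤ r) (k : ℕ) :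
    ∑ v ∈ range (r + 2), x ^ (k + v) * q ^ (r - v) ≤ 3 * x ^ k * q ^ r := by
  have hx0 : 0 ≤ x := by linarith
  rw [sum_range_succ]
  have h1 := geo hx0 hxq r k
  have h2 : x ^ (k + (r + 1)) * q ^ (r - (r + 1)) ≤ x ^ k * q ^ r := by
    rw [Nat.sub_eq_zero_of_le (by omega), pow_zero, mul_one, pow_add]
    refine mul_le_mul_of_nonneg_left ?_ (pow_nonneg hx0 k)
    calc x ^ (r + 1) ≤ x ^ (4 * r) := pow_le_pow_right₀ hx (by omega)
      _ = (x ^ 4) ^ r := pow_mul x 4 r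
      _ ≤ q ^ r := pow_le_pow_left₀ (by positivity) hx4 r
  linarith

lemma facts (hl : 1 ≤ l) (hq : (9 * l) ^ 4 ≤ q) :
    (9 : ℝ) ≤ 9 * (l : ℝ) ∧ (9 * (l : ℝ)) ^ 4 ≤ q ∧ 2 * (9 * (l : ℝ)) ≤ q := by
  have h1 : (1 : ℝ) ≤ l := by exact_mod_cast hl
  have h2 : (9 : ℝ) ≤ 9 * (l : ℝ) := by linarith
  have h3 : (9 * (l : ℝ)) ^ 4 ≤ q := by exact_mod_cast hq
  refine ⟨h2, h3, le_trans ?_ h3⟩
  set x : ℝ := 9 * (l : ℝ) with hx
  have h4 : (9 : ℝ) ^ 3 ≤ x ^ 3 := pow_le_pow_left₀ (by norm_num) h2 3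
  have h5 : x ^ 4 = x ^ 3 * x := by ring
  rw [h5]
  nlinarith

end PowSumAux

open PowSumAux

theorem pow_sum_a (hd : 6 ≤ d) (hl : 1 ≤ l) (hq : (9 * l) ^ 4 ≤ q) {k : ℕ} (hk1 : 1 ≤ k)
    (hk2 : k ≤ 2) :
    ∑ U : Finset (Fin l) with k ≤ U.card ∧ U.card ≤ d,
      (9 : ℝ) ^ U.card * (q : ℝ) ^ (d - 1 - U.card) ≤ 3 * (9 * l) ^ k * (q : ℝ) ^ (d - 1 - k) := by
  obtain ⟨hx, hx4, hxq⟩ := facts hl hq
  have h1 := layer l (Ico k (d + 1)) (fun u => (q : ℝ) ^ (d - 1 - u)) (fun u => by positivity)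
  have h2 : (univ.filter fun U : Finset (Fin l) => k ≤ U.card ∧ U.card ≤ d) =
      univ.filter fun U : Finset (Fin l) => U.card ∈ Ico k (d + 1) := by
    ext U
    simp only [mem_filter, mem_univ, true_and, mem_Ico]
    omega
  rw [h2]
  refine h1.trans ?_
  rw [sum_Ico_eq_sum_range, show d + 1 - k = d - 1 - k + 2 by omega]
  have h3 := geo' (by linarith) hxq hx4 (d - 1 - k) (by omega) k
  refine le_trans (le_of_eq ?_) h3
  refine sum_congr rfl fun v _ => ?_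
  rw [Nat.sub_sub]
  congr 2
  omega

theorem pow_sum_b (hd : 6 ≤ d) (hl : 1 ≤ l) (hq : (9 * l) ^ 4 ≤ q) :
    ∑ U : Finset (Fin l) with 1 ≤ U.card ∧ U.card < d,
      (9 : ℝ) ^ U.card * (q : ℝ) ^ (d - 2 - U.card) ≤ 27 * l * (q : ℝ) ^ (d - 3) := by
  obtain ⟨hx, hx4, hxq⟩ := facts hl hq
  have h1 := layer l (Ico 1 d) (fun u => (q : ℝ) ^ (d - 2 - u)) (fun u => by positivity)
  have h2 : (univ.filter fun U : Finset (Fin l) => 1 ≤ U.card ∧ U.card < d) =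
      univ.filter fun U : Finset (Fin l) => U.card ∈ Ico 1 d := by
    ext U
    simp only [mem_filter, mem_univ, true_and, mem_Ico]
  rw [h2]
  refine h1.trans ?_
  rw [sum_Ico_eq_sum_range, show d - 1 = d - 3 + 2 by omega]
  have h3 := geo' (by linarith) hxq hx4 (d - 3) (by omega) 1
  have h4 : 3 * (9 * (l : ℝ)) ^ 1 * (q : ℝ) ^ (d - 3) = 27 * l * (q : ℝ) ^ (d - 3) := by ring
  rw [h4] at h3
  refine le_trans (le_of_eq ?_) h3
  refine sum_congr rfl fun v _ => ?_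
  congr 2
  omega

theorem pow_sum_c (hd : 6 ≤ d) (hl : 1 ≤ l) (hq : (9 * l) ^ 4 ≤ q) :
    ∑ U : Finset (Fin l) with U.card = d, (9 : ℝ) ^ d / 4 * (9 * q) ≤
      9 * l * (q : ℝ) ^ (d - 3) := by
  obtain ⟨hx, hx4, hxq⟩ := facts hl hq
  set x : ℝ := 9 * (l : ℝ) with hxd
  have hq0 : (0 : ℝ) ≤ q := Nat.cast_nonneg q
  have h1 := layer l {d} (fun _ => 1 / 4 * (9 * (q : ℝ))) (fun u => by positivity)
  rw [sum_singleton] at h1
  have h2 : (univ.filter fun U : Finset (Fin l) => U.card = d) =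
      univ.filter fun U : Finset (Fin l) => U.card ∈ ({d} : Finset ℕ) := by
    ext U
    simp only [mem_filter, mem_univ, true_and, mem_singleton]
  have h3 : ∑ U : Finset (Fin l) with U.card = d, (9 : ℝ) ^ d / 4 * (9 * q) =
      ∑ U : Finset (Fin l) with U.card ∈ ({d} : Finset ℕ), (9 : ℝ) ^ U.card * (1 / 4 * (9 * (q : ℝ))) := by
    rw [h2]
    refine sum_congr rfl fun U hU => ?_
    rw [mem_filter, mem_singleton] at hU
    rw [hU.2]
    ring
  rw [h3]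
  refine h1.trans ?_
  rw [← hxd]
  have h4 : 9 / 4 * x ^ (d - 1) ≤ (q : ℝ) ^ (d - 4) := by
    calc 9 / 4 * x ^ (d - 1) ≤ x * x ^ (d - 1) :=
          mul_le_mul_of_nonneg_right (by linarith) (by positivity)
      _ = x ^ d := by
          rw [← pow_succ', show d - 1 + 1 = d by omega]
      _ ≤ x ^ (4 * (d - 4)) := pow_le_pow_right₀ (by linarith) (by omega)
      _ = (x ^ 4) ^ (d - 4) := pow_mul x 4 (d - 4)
      _ ≤ (q : ℝ) ^ (d - 4) := pow_le_pow_left₀ (by positivity) hx4 _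
  calc x ^ d * (1 / 4 * (9 * (q : ℝ))) = (9 / 4 * x ^ (d - 1)) * (x * q) := by
        have : x ^ d = x ^ (d - 1) * x := by rw [← pow_succ, show d - 1 + 1 = d by omega]
        rw [this]
        ring
    _ ≤ (q : ℝ) ^ (d - 4) * (x * q) := mul_le_mul_of_nonneg_right h4 (by positivity)
    _ = x * (q : ℝ) ^ (d - 3) := by
        have : (q : ℝ) ^ (d - 3) = (q : ℝ) ^ (d - 4) * q := by
          rw [← pow_succ, show d - 4 + 1 = d - 3 by omega]
        rw [this]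
        ring

end Pool.Agent.Lib.OWC
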