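import Pool.Agent.Lib.OWC.PathLem
import Pool.Agent.Lib.OWC.Moment
import Pool.Agent.Lib.OWC.PowSum

/-!
# Half: the negative part on one side of a vertex

Let `F' = {f | w f i = a}`, `μ = avg g`, so `avg (g * g) = μ`, `0 ≤ μ ≤ 1`, and
`Y f = ∑_{S ≠ ∅} β S * coef g (S.map (pw (w f)))`; the term `S = ∅` is `β ∅ * coef g ∅ = β ∅ * μ`.
By `moment` with `N S = q ^ (d - 2 - |S|)` (`Paths.count_at`, `d - 1 - (|S| + 1) = d - 2 - |S|`;
`map_pw_inj`),
`∑ f ∈ F', Y f ^ 2 ≤ (∑_{S ≠ ∅, |S| ≤ d} β S ^ 2 * q ^ (d - 2 - |S|)) * μ ≤ 36 A ^ 2 l q ^ (d - 3) μ`: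
the terms with `|S| < d` by `β S ^ 2 ≤ 9 ^ |S| A ^ 2` and `pow_sum_b`, those with `|S| = d` by
`β S ^ 2 ≤ 9 ^ d / 4 ≤ A ^ 2 * (9 ^ d / 4 * (9 q))` and `pow_sum_c`.

If `A ^ 2 ≤ 4 β ∅` then `β ∅ > 0`.  If `μ = 0` then `g = 0` everywhere and all terms vanish.  Otherwise
`M = β ∅ * μ > 0` and `max 0 (-(M + Y)) ≤ Y ^ 2 / (4 M)` (`(M + Y / 2) ^ 2 ≥ 0`), so the sum is at most
`36 A ^ 2 l q ^ (d - 3) μ / (4 β ∅ μ) ≤ 36 l q ^ (d - 3)`.

If `A ^ 2 ≤ 4 / q`: `max 0 (-(β ∅ μ + Y f)) ≤ |Y f|` and by Cauchy-Schwarz and `Paths.count_point`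
`∑ f ∈ F', |Y f| ≤ √(q ^ (d - 2) * 36 * (4 / q) * l * q ^ (d - 3)) = √(144 l) q ^ (d - 3) ≤
36 l q ^ (d - 3)`.
-/

namespace Pool.Agent.Lib.OWC

open Finset Pool.Agent.Lib.Pe46137

namespace HalfAux

/-- the real estimate for one term -/
theorem term_le {M Y : ℝ} (hM : 0 < M) : max 0 (-(M + Y)) ≤ Y ^ 2 / (4 * M) := by
  refine max_le (by positivity) ?_
  rw [le_div_iff₀ (by positivity)]
  nlinarith [sq_nonneg (M + Y / 2)]

theorem term_le' {M Y : ℝ} (hM : 0 ≤ M) : max 0 (-(M + Y)) ≤ |Y| := by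
  refine max_le (abs_nonneg _) ?_
  linarith [neg_abs_le Y]

/-- the sum of the coefficients -/
theorem K_le {d l q : ℕ} (hd : 6 ≤ d) (hl : 1 ≤ l) (hq : (9 * l) ^ 4 ≤ q) (hq0 : (0 : ℝ) < q)
    (i : Fin l) (β : Finset (Fin l) → ℝ) {A : ℝ}
    (hβ1 : ∀ S, S.card < d → |β S| ≤ 3 ^ S.card * A) (hβ2 : ∀ S, S.card = d → |β S| ≤ 3 ^ d / 2)
    (hA1 : 1 / (9 * (q : ℝ)) ≤ A ^ 2) :
    ∑ S : Finset (Fin l) with i ∉ S ∧ 1 ≤ S.card ∧ S.card ≤ d,
      β S ^ 2 * (q : ℝ) ^ (d - 2 - S.card) ≤ 36 * A ^ 2 * l * (q : ℝ) ^ (d - 3) := by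
  have h1 := pow_sum_b hd hl hq
  have h2 := pow_sum_c hd hl hq
  have hA0 : 0 < A ^ 2 := lt_of_lt_of_le (by positivity) hA1
  have h3 : ∑ S : Finset (Fin l) with i ∉ S ∧ 1 ≤ S.card ∧ S.card ≤ d,
      β S ^ 2 * (q : ℝ) ^ (d - 2 - S.card) ≤
      ∑ S : Finset (Fin l) with 1 ≤ S.card ∧ S.card < d, β S ^ 2 * (q : ℝ) ^ (d - 2 - S.card) +
      ∑ S : Finset (Fin l) with S.card = d, β S ^ 2 * (q : ℝ) ^ (d - 2 - S.card) := by
    rw [← Finset.sum_union]
    · refine Finset.sum_le_sum_of_subset_of_nonneg ?_ fun S _ _ => by positivity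
      intro S hS
      simp only [Finset.mem_filter, Finset.mem_univ, true_and, Finset.mem_union] at hS ⊢
      omega
    · rw [Finset.disjoint_filter]
      intro S _ hS h
      omega
  have h4 : ∑ S : Finset (Fin l) with 1 ≤ S.card ∧ S.card < d,
      β S ^ 2 * (q : ℝ) ^ (d - 2 - S.card) ≤ A ^ 2 * (27 * l * (q : ℝ) ^ (d - 3)) := by
    refine le_trans ?_ (mul_le_mul_of_nonneg_left h1 hA0.le)
    rw [Finset.mul_sum]
    refine Finset.sum_le_sum fun S hS => ?_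
    simp only [Finset.mem_filter, Finset.mem_univ, true_and] at hS
    have h5 : β S ^ 2 ≤ 9 ^ S.card * A ^ 2 := by
      rw [← sq_abs]
      refine (pow_le_pow_left₀ (abs_nonneg _) (hβ1 S hS.2) 2).trans (le_of_eq ?_)
      rw [mul_pow, ← pow_mul, mul_comm S.card 2, pow_mul]
      norm_num
    calc β S ^ 2 * (q : ℝ) ^ (d - 2 - S.card) ≤ (9 ^ S.card * A ^ 2) * (q : ℝ) ^ (d - 2 - S.card) :=
          mul_le_mul_of_nonneg_right h5 (by positivity)
      _ = _ := by ring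
  have h5 : ∑ S : Finset (Fin l) with S.card = d, β S ^ 2 * (q : ℝ) ^ (d - 2 - S.card) ≤
      A ^ 2 * (9 * l * (q : ℝ) ^ (d - 3)) := by
    refine le_trans ?_ (mul_le_mul_of_nonneg_left h2 hA0.le)
    rw [Finset.mul_sum]
    refine Finset.sum_le_sum fun S hS => ?_
    simp only [Finset.mem_filter, Finset.mem_univ, true_and] at hS
    have h6 : β S ^ 2 ≤ 9 ^ d / 4 := by
      rw [← sq_abs]
      refine (pow_le_pow_left₀ (abs_nonneg _) (hβ2 S hS) 2).trans (le_of_eq ?_)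
      rw [div_pow, ← pow_mul, mul_comm d 2, pow_mul]
      norm_num
    have h7 : d - 2 - S.card = 0 := by omega
    rw [h7, pow_zero, mul_one]
    refine h6.trans ?_
    have h8 : 1 ≤ A ^ 2 * (9 * q) := by
      rw [div_le_iff₀ (by positivity)] at hA1
      exact hA1
    calc (9 : ℝ) ^ d / 4 = 9 ^ d / 4 * 1 := (mul_one _).symm
      _ ≤ 9 ^ d / 4 * (A ^ 2 * (9 * q)) := mul_le_mul_of_nonneg_left h8 (by positivity)
      _ = _ := by ring
  calc _ ≤ _ := h3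
    _ ≤ A ^ 2 * (27 * l * (q : ℝ) ^ (d - 3)) + A ^ 2 * (9 * l * (q : ℝ) ^ (d - 3)) :=
        add_le_add h4 h5
    _ = _ := by ring

end HalfAux

open HalfAux

theorem half {d l q : ℕ} [NeZero q] (hd : 6 ≤ d) (hl : 1 ≤ l) (hq : (9 * l) ^ 4 ≤ q) {F : Type}
    [Fintype F] {w : F → Fin l → ZMod q} (hw : Paths q (d - 1) w) (i : Fin l) (a : ZMod q)
    (β : Finset (Fin l) → ℝ) {A : ℝ} (hβ0 : 0 ≤ β ∅) (hA : 0 ≤ A)
    (hβ1 : ∀ S, S.card < d → |β S| ≤ 3 ^ S.card * A) (hβ2 : ∀ S, S.card = d → |β S| ≤ 3 ^ d / 2)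
    (hA1 : 1 / (9 * (q : ℝ)) ≤ A ^ 2) (hA2 : A ^ 2 ≤ 4 * β ∅ ∨ A ^ 2 ≤ 4 / q)
    (g : (Fin l × ZMod q → Bool) → ℝ) (hg : ∀ x, g x = 0 ∨ g x = 1) :
    ∑ f with w f i = a, max 0 (-(∑ S : Finset (Fin l) with i ∉ S ∧ S.card ≤ d,
      β S * coef g (S.map (pw (w f))))) ≤ 36 * l * (q : ℝ) ^ (d - 3) := by
  classical
  have hq0 : (0 : ℝ) < q := by exact_mod_cast Nat.pos_of_ne_zero (NeZero.ne q)
  have hA0 : 0 < A ^ 2 := lt_of_lt_of_le (by positivity) hA1
  have hl1 : (1 : ℝ) ≤ l := by exact_mod_cast hl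
  set F' : Finset F := univ.filter (fun f => w f i = a) with hF'
  set 𝒰 : Finset (Finset (Fin l)) := univ.filter (fun S => i ∉ S ∧ 1 ≤ S.card ∧ S.card ≤ d) with h𝒰
  set μ : ℝ := avg g with hμ
  set Y : F → ℝ := fun f => ∑ S ∈ 𝒰, β S * coef g (S.map (pw (w f))) with hY
  have hμ0 : 0 ≤ μ := avg_nonneg fun x => by rcases hg x with h | h <;> rw [h] <;> norm_num
  have hμ1 : μ ≤ 1 := by
    have h1 : μ ≤ avg (fun _ : Fin l × ZMod q → Bool => (1 : ℝ)) :=
      avg_mono fun x => by rcases hg x with h | h <;> rw [h] <;> norm_num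
    rwa [avg_const] at h1
  have hgg : avg (fun x => g x * g x) = μ := by
    rw [hμ]
    congr 1
    funext x
    rcases hg x with h | h <;> rw [h] <;> norm_num
  have hsplit : ∀ f, ∑ S : Finset (Fin l) with i ∉ S ∧ S.card ≤ d,
      β S * coef g (S.map (pw (w f))) = β ∅ * μ + Y f := by
    intro f
    have h1 : univ.filter (fun S : Finset (Fin l) => i ∉ S ∧ S.card ≤ d) = insert ∅ 𝒰 := by
      ext S
      rw [Finset.mem_insert, h𝒰]
      simp only [Finset.mem_filter, Finset.mem_univ, true_and]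
      rcases Finset.eq_empty_or_nonempty S with h | h
      · subst h
        simp
      · have := h.card_pos
        have h' := h.ne_empty
        constructor
        · rintro ⟨h1, h2⟩
          exact Or.inr ⟨h1, this, h2⟩
        · rintro (h1 | ⟨h1, _, h2⟩)
          · exact absurd h1 h'
          · exact ⟨h1, h2⟩
    have h2 : (∅ : Finset (Fin l)) ∉ 𝒰 := by
      rw [h𝒰]
      simp
    rw [h1, Finset.sum_insert h2, Finset.map_empty]
    congr 2
    rw [hμ]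
    unfold coef chi
    simp
  rw [Finset.sum_congr rfl fun f _ => by rw [hsplit f]]
  set K : ℝ := ∑ S ∈ 𝒰, β S ^ 2 * (q : ℝ) ^ (d - 2 - S.card) with hK
  have hK1 : K ≤ 36 * A ^ 2 * l * (q : ℝ) ^ (d - 3) := K_le hd hl hq hq0 i β hβ1 hβ2 hA1
  have hK0 : 0 ≤ K := Finset.sum_nonneg fun S _ => by positivity
  have hmom : ∑ f ∈ F', Y f ^ 2 ≤ K * μ := by
    have h1 := moment F' (fun f => pw (w f)) 𝒰 β (fun S => (q : ℝ) ^ (d - 2 - S.card))
      (fun U _ => by positivity) ?_ ?_ g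
    · rw [hgg] at h1
      exact h1
    · intro U hU S
      rw [h𝒰] at hU
      simp only [Finset.mem_filter, Finset.mem_univ, true_and] at hU
      have h2 := hw.count_at i a U hU.1 S
      have h3 : d - 1 - (U.card + 1) = d - 2 - U.card := by omega
      rw [h3] at h2
      exact_mod_cast h2
    · intro f _ f' _ U _ U' _ h
      exact map_pw_inj h
  rcases hA2 with hA2 | hA2
  · have hβp : 0 < β ∅ := by linarith
    rcases eq_or_lt_of_le hμ0 with h0 | h0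
    · rw [← h0, mul_zero] at hmom
      have h1 : ∀ f ∈ F', Y f ^ 2 = 0 := by
        have h2 := le_antisymm hmom (Finset.sum_nonneg fun f _ => sq_nonneg (Y f))
        exact (Finset.sum_eq_zero_iff_of_nonneg fun f _ => sq_nonneg (Y f)).1 h2
      rw [Finset.sum_eq_zero]
      · positivity
      · intro f hf
        have h3 : Y f = 0 := by
          have := h1 f hf
          exact pow_eq_zero_iff (two_ne_zero) |>.1 this
        rw [h3, ← h0]
        simp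
    · have hM : 0 < β ∅ * μ := mul_pos hβp h0
      calc ∑ f ∈ F', max 0 (-(β ∅ * μ + Y f)) ≤ ∑ f ∈ F', Y f ^ 2 / (4 * (β ∅ * μ)) :=
            Finset.sum_le_sum fun f _ => term_le hM
        _ = (∑ f ∈ F', Y f ^ 2) / (4 * (β ∅ * μ)) := (Finset.sum_div _ _ _).symm
        _ ≤ (K * μ) / (4 * (β ∅ * μ)) := by gcongr
        _ = K / (4 * β ∅) := by field_simp
        _ ≤ (36 * A ^ 2 * l * (q : ℝ) ^ (d - 3)) / (4 * β ∅) := by gcongr
        _ ≤ 36 * l * (q : ℝ) ^ (d - 3) := by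
            rw [div_le_iff₀ (by positivity)]
            have h1 : 0 ≤ 36 * l * (q : ℝ) ^ (d - 3) := by positivity
            have h2 := mul_le_mul_of_nonneg_left hA2 h1
            linarith
  · have hβμ : 0 ≤ β ∅ * μ := mul_nonneg hβ0 hμ0
    have h1 : ∑ f ∈ F', max 0 (-(β ∅ * μ + Y f)) ≤ ∑ f ∈ F', |Y f| :=
      Finset.sum_le_sum fun f _ => term_le' hβμ
    refine h1.trans ?_
    have h2 : (∑ f ∈ F', |Y f|) ^ 2 ≤ (36 * l * (q : ℝ) ^ (d - 3)) ^ 2 := by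
      have h3 : (∑ f ∈ F', |Y f|) ^ 2 ≤ F'.card * ∑ f ∈ F', Y f ^ 2 := by
        have := sq_sum_le_card_mul_sum_sq (s := F') (f := fun f => |Y f|)
        simpa only [sq_abs] using this
      have h4 : (F'.card : ℝ) ≤ (q : ℝ) ^ (d - 2) := by
        have := hw.count_point i a
        have h5 : d - 1 - 1 = d - 2 := by omega
        rw [h5] at this
        exact_mod_cast this
      have h5 : K * μ ≤ 36 * (4 / q) * l * (q : ℝ) ^ (d - 3) := by
        calc K * μ ≤ K * 1 := mul_le_mul_of_nonneg_left hμ1 hK0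
          _ = K := mul_one K
          _ ≤ 36 * A ^ 2 * l * (q : ℝ) ^ (d - 3) := hK1
          _ ≤ _ := by gcongr
      have h6 : (q : ℝ) ^ (d - 2) = (q : ℝ) ^ (d - 3) * q := by
        rw [← pow_succ]
        congr 1
        omega
      calc (∑ f ∈ F', |Y f|) ^ 2 ≤ F'.card * ∑ f ∈ F', Y f ^ 2 := h3
        _ ≤ (q : ℝ) ^ (d - 2) * (36 * (4 / q) * l * (q : ℝ) ^ (d - 3)) :=
            mul_le_mul h4 (hmom.trans h5) (Finset.sum_nonneg fun f _ => sq_nonneg (Y f))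
              (by positivity)
        _ = 144 * l * ((q : ℝ) ^ (d - 3)) ^ 2 := by
            rw [h6]
            field_simp
            ring
        _ ≤ 1296 * l ^ 2 * ((q : ℝ) ^ (d - 3)) ^ 2 := by
            apply mul_le_mul_of_nonneg_right _ (by positivity)
            nlinarith
        _ = _ := by ring
    exact le_of_sq_le_sq h2 (by positivity)

end Pool.Agent.Lib.OWC
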