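import Pool.Agent.Lib.Pe46137.Fourier

/-!
# LevelOne: the level one inequality

Let `μ = avg h`, `a v = coef h {v}`, `σ = ∑ v, a v ^ 2`, `L x = ∑ v, a v * chi {v} x`.  Then
`σ = avg (h * L)` (exchange).  With `m = σ / μ ^ 2` the tangent inequality
`exp m * (1 + t - m) ≤ exp t` at `t = L x / μ`, times `h x`, averaged, gives
`exp m * μ ≤ avg (h * exp (L / μ)) ≤ avg (exp (L / μ))`.
By `sum_prod_cube` (`exp (L x / μ) = ∏ v, exp (a v / μ * (if x v then -1 else 1))`)
`avg (exp (L / μ)) = ∏ v, cosh (a v / μ) ≤ ∏ v, exp ((a v / μ) ^ 2 / 2) = exp (m / 2)`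
(`Real.cosh_le_exp_half_sq`).  Taking logarithms, `m / 2 ≤ log (1 / μ)`.
-/

namespace Pool.Agent.Lib.OWC

open Finset Pool.Agent.Lib.Pe46137

theorem level_one {Q : Type*} [Fintype Q] [DecidableEq Q] (h : (Q → Bool) → ℝ)
    (h01 : ∀ x, h x = 0 ∨ h x = 1) (hμ : 0 < avg h) :
    ∑ v, coef h {v} ^ 2 ≤ 2 * avg h ^ 2 * Real.log (1 / avg h) := by
  set μ := avg h with hμdef
  set a : Q → ℝ := fun v => coef h {v} with ha
  set σ : ℝ := ∑ v, a v ^ 2 with hσ
  set L : (Q → Bool) → ℝ := fun x => ∑ v, a v * chi {v} x with hL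
  have hchi : ∀ (v : Q) (x : Q → Bool), chi {v} x = if x v then -1 else 1 := fun v x => by
    simp [chi]
  have h1 : avg (fun x => h x * L x) = σ := by
    have e : (fun x => h x * L x) = fun x => ∑ v ∈ (univ : Finset Q), a v * (h x * chi {v} x) := by
      funext x
      simp only [hL, mul_sum]
      exact sum_congr rfl fun v _ => by ring
    rw [e, avg_sum]
    refine sum_congr rfl fun v _ => ?_
    rw [avg_const_mul, ha]
    simp only [coef]
    ring
  set m : ℝ := σ / μ ^ 2 with hm
  have h2 : Real.exp m * μ ≤ avg (fun x => h x * Real.exp (L x / μ)) := by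
    have hle : avg (fun x => Real.exp m * ((1 - m) * h x + μ⁻¹ * (h x * L x))) ≤
        avg (fun x => h x * Real.exp (L x / μ)) := by
      refine avg_mono fun x => ?_
      rcases h01 x with h0 | h0
      · simp [h0]
      · rw [h0]
        have := Real.add_one_le_exp (L x / μ - m)
        have h3 : Real.exp (L x / μ) = Real.exp m * Real.exp (L x / μ - m) := by
          rw [← Real.exp_add]
          congr 1
          ring
        have h4 : μ⁻¹ * (1 * L x) = L x / μ := by
          rw [one_mul, div_eq_inv_mul]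
        rw [h3, h4, one_mul (Real.exp m * _), mul_one]
        refine mul_le_mul_of_nonneg_left ?_ (Real.exp_pos m).le
        linarith
    have heq : avg (fun x => Real.exp m * ((1 - m) * h x + μ⁻¹ * (h x * L x))) =
        Real.exp m * μ := by
      rw [avg_const_mul, avg_add, avg_const_mul, avg_const_mul, h1, ← hμdef, hm]
      have : (1 - σ / μ ^ 2) * μ + μ⁻¹ * σ = μ := by
        field_simp
        ring
      rw [this]
    linarith [heq]
  have h3 : avg (fun x => h x * Real.exp (L x / μ)) ≤ avg (fun x => Real.exp (L x / μ)) := by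
    refine avg_mono fun x => ?_
    rcases h01 x with h0 | h0
    · rw [h0, zero_mul]
      exact (Real.exp_pos _).le
    · rw [h0, one_mul]
  have h4 : avg (fun x => Real.exp (L x / μ)) = ∏ v, Real.cosh (a v / μ) := by
    set A : Q → Bool → ℝ := fun v b => Real.exp (a v / μ * (if b then -1 else 1)) with hA
    have e : ∀ x : Q → Bool, Real.exp (L x / μ) = ∏ v, A v (x v) := by
      intro x
      simp only [hA]
      rw [← Real.exp_sum]
      congr 1
      simp only [hL, sum_div]
      refine sum_congr rfl fun v _ => ?_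
      rw [hchi]
      ring
    unfold avg
    rw [(sum_congr rfl fun x _ => e x).trans (sum_prod_cube A)]
    have h5 : ∀ v : Q, A v true + A v false = 2 * Real.cosh (a v / μ) := by
      intro v
      rw [Real.cosh_eq]
      simp [hA]
      ring
    rw [prod_congr rfl fun v _ => h5 v, prod_mul_distrib, prod_const, card_univ]
    field_simp
  have h5 : ∏ v, Real.cosh (a v / μ) ≤ Real.exp (m / 2) := by
    have e : Real.exp (m / 2) = ∏ v, Real.exp ((a v / μ) ^ 2 / 2) := by
      rw [← Real.exp_sum]
      congr 1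
      rw [hm, hσ, sum_div, sum_div]
      exact sum_congr rfl fun v _ => by rw [div_pow]
    rw [e]
    refine prod_le_prod (fun v _ => (Real.cosh_pos _).le) fun v _ => ?_
    exact Real.cosh_le_exp_half_sq _
  have h6 : Real.exp m * μ ≤ Real.exp (m / 2) := by
    rw [h4] at h3
    linarith
  have h7 : Real.exp (m / 2) ≤ 1 / μ := by
    rw [le_div_iff₀ hμ]
    have h8 : Real.exp m = Real.exp (m / 2) * Real.exp (m / 2) := by
      rw [← Real.exp_add]
      congr 1
      ring
    have h9 := Real.exp_pos (m / 2)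
    rw [h8, mul_assoc] at h6
    nlinarith
  have h8 : m / 2 ≤ Real.log (1 / μ) := by
    rw [Real.le_log_iff_exp_le (by positivity)]
    exact h7
  have h9 : σ = m * μ ^ 2 := by
    rw [hm]
    field_simp
  rw [h9]
  have : 0 < μ ^ 2 := by positivity
  nlinarith

end Pool.Agent.Lib.OWC
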