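import Pool.Agent.Lib.OWC.Pseudo
import Pool.Agent.Lib.Pe46137.LongPos

/-!
Balanced functionals, families of words, restrictions.
(`pw w : Fin l ↪ Fin l × ZMod q` of `Pe46137/LongPos.lean` is the path `i ↦ (i, w i)`.)
-/

namespace Pool.Agent.Lib.OWC

open Finset Pool.Agent.Lib.Pe46137

variable {l : ℕ}

/-- two-sided control of the functional at every position -/
structure Balanced (q : ℝ) (pe : Finset (Fin l) → ℝ) : Prop where
  up : ∀ i, ∃ A : ℝ, 0 ≤ A ∧ (∀ T, pe (insert i T) ≤ A) ∧ 1 / (9 * q) ≤ A ^ 2 ∧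
    (A ^ 2 ≤ 4 * pe {i} ∨ A ^ 2 ≤ 4 / q)
  down : ∀ i, ∃ A : ℝ, 0 ≤ A ∧ (∀ T, |pe T - pe (insert i T)| ≤ A) ∧ 1 / (9 * q) ≤ A ^ 2 ∧
    (A ^ 2 ≤ 4 * (1 - pe {i}) ∨ A ^ 2 ≤ 4 / q)

/-- `q ^ m` words, of which at most `q ^ (m - |S|)` take given values on the set of positions
`S` -/
structure Paths (q m : ℕ) {F : Type} [Fintype F] (w : F → Fin l → ZMod q) : Prop where
  card : Fintype.card F = q ^ m
  count : ∀ (S : Finset (Fin l)) (a : Fin l → ZMod q),
    (univ.filter (fun f => ∀ i ∈ S, w f i = a i)).card ≤ q ^ (m - S.card)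

/-- the function with one coordinate fixed -/
def restr {Q : Type*} [DecidableEq Q] (h : (Q → Bool) → ℝ) (v : Q) (b : Bool) (x : Q → Bool) : ℝ :=
  h (Function.update x v b)

/-- coefficients of the functional, for a path through a vertex at position `i` on the side `b` -/
noncomputable def bet (d : ℕ) (pe : Finset (Fin l) → ℝ) (i : Fin l) (b : Bool)
    (S : Finset (Fin l)) : ℝ :=
  if S.card < d then
    ∑ T ∈ S.powerset, (-2) ^ T.card * (if b then pe (insert i T) else pe T - pe (insert i T))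
  else pHat pe S / 2

end Pool.Agent.Lib.OWC
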