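import Pool.Agent.Lib.OWC.Weights
import Pool.Agent.Lib.OWC.PosDefs
import Pool.Agent.Lib.Pe46137.Pebble

/-!
# Mix: a balanced pebbling functional

`l = (2 c + 1) * 2 ^ d`, `ω` from `exists_weights`,
`pe U = ∑ j ∈ range (2 c + 1), ω j * (if Inv d (shiftDown (j * 2 ^ d) (U.map Fin.valEmbedding)) then 1 else 0)`.
-/

namespace Pool.Agent.Lib.OWC

open Finset Pool.Agent.Lib.Pe46137

namespace MixAux

theorem sd_insert_lt {m i : ℕ} (V : Finset ℕ) (h : i < m) :
    shiftDown m (insert i V) = shiftDown m V := by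
  ext j
  simp only [mem_shiftDown, mem_insert]
  constructor
  · rintro (h1 | h1)
    · omega
    · exact h1
  · exact Or.inr

theorem sd_insert_ge {m i : ℕ} (V : Finset ℕ) (h : m ≤ i) :
    shiftDown m (insert i V) = insert (i - m) (shiftDown m V) := by
  ext j
  simp only [mem_shiftDown, mem_insert]
  constructor
  · rintro (h1 | h1)
    · left; omega
    · exact Or.inr h1
  · rintro (h1 | h1)
    · left; omega
    · exact Or.inr h1

theorem sd_empty (m : ℕ) : shiftDown m ∅ = ∅ := by
  ext j
  simp [mem_shiftDown]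

open Classical in
/-- indicator of the invariant for the shifted set -/
noncomputable def ind (d m : ℕ) (V : Finset ℕ) : ℝ := if Inv d (shiftDown m V) then 1 else 0

theorem ind_nonneg (d m : ℕ) (V : Finset ℕ) : 0 ≤ ind d m V := by
  unfold ind; split_ifs <;> norm_num

theorem ind_le_one (d m : ℕ) (V : Finset ℕ) : ind d m V ≤ 1 := by
  unfold ind; split_ifs <;> norm_num

theorem ind_empty (d m : ℕ) : ind d m ∅ = 1 := by
  unfold ind
  rw [sd_empty, if_pos (Inv_empty d)]

theorem ind_insert_lt (d : ℕ) {m i : ℕ} (V : Finset ℕ) (h : i < m) :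
    ind d m (insert i V) = ind d m V := by
  unfold ind
  rw [sd_insert_lt V h]

theorem ind_move {d m i : ℕ} {V : Finset ℕ} (hc : (insert i V).card ≤ d)
    (hi : i = 0 ∨ ∃ j ∈ V, j + 1 = i) : ind d m (insert i V) = ind d m V := by
  by_cases h : i < m
  · exact ind_insert_lt d V h
  · push Not at h
    have hs := sd_insert_ge V h
    have hcard : (insert (i - m) (shiftDown m V)).card ≤ d := by
      rw [← hs]
      have := card_split m (insert i V)
      omega
    have key := Inv_move hcard (by
      by_cases him : i = m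
      · left; omega
      · rcases hi with h0 | ⟨j, hj, hji⟩
        · left; omega
        · right
          refine ⟨j - m, ?_, by omega⟩
          rw [mem_shiftDown, Nat.sub_add_cancel (by omega)]
          exact hj)
    unfold ind
    rw [hs]
    by_cases hI : Inv d (shiftDown m V)
    · rw [if_pos hI, if_pos (key.mp hI)]
    · rw [if_neg hI, if_neg (fun h' => hI (key.mpr h'))]

/-- a position far beyond the shift kills the indicator -/
theorem ind_zero {d m i : ℕ} {V : Finset ℕ} (hi : i ∈ V) (h : m + 2 ^ d ≤ i + 1) :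
    ind d m V = 0 := by
  unfold ind
  rw [if_neg]
  intro hI
  have hp : 1 ≤ 2 ^ d := Nat.one_le_two_pow
  have hm : i - m ∈ shiftDown m V := by
    rw [mem_shiftDown, Nat.sub_add_cancel (by omega)]
    exact hi
  have := Inv_lt hI _ hm
  omega

theorem map_insert_val {l : ℕ} (i : Fin l) (U : Finset (Fin l)) :
    (insert i U).map Fin.valEmbedding = insert (i : ℕ) (U.map Fin.valEmbedding) := by
  rw [Finset.map_insert]; rfl

end MixAux

open MixAux

theorem exists_balanced {c d q l : ℕ} (hq1 : 4 ^ c ≤ q) (hq2 : q ≤ 4 * 4 ^ c)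
    (hl : l = (2 * c + 1) * 2 ^ d) :
    ∃ pe : Finset (Fin l) → ℝ, Pseudo d l pe ∧ Balanced (q : ℝ) pe := by
  classical
  obtain ⟨ω, h0, hsum, htail, hhead, hω0, hω0', hω2, hω2'⟩ := exists_weights c
  set K := 2 ^ d with hK
  have hKpos : 0 < K := by rw [hK]; positivity
  set pe : Finset (Fin l) → ℝ := fun U =>
    ∑ j ∈ range (2 * c + 1), ω j * ind d (j * K) (U.map Fin.valEmbedding) with hpe
  have hqpos : (0 : ℝ) < q := by
    have : 0 < q := lt_of_lt_of_le (by positivity) hq1
    exact_mod_cast this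
  have hq1' : (4 : ℝ) ^ c ≤ q := by exact_mod_cast hq1
  have hq2' : (q : ℝ) ≤ 4 * 4 ^ c := by exact_mod_cast hq2
  have h4 : (4 : ℝ) ^ c = (2 ^ c) ^ 2 := by
    rw [← pow_mul, mul_comm, pow_mul]; norm_num
  have h2pos : (0 : ℝ) < 2 ^ c := by positivity
  -- lower bound of squares
  have hlow : ∀ A : ℝ, 1 / (3 * 2 ^ c) ≤ A → 1 / (9 * (q : ℝ)) ≤ A ^ 2 := by
    intro A hA
    have hp : (0 : ℝ) < 1 / (3 * 2 ^ c) := by positivity
    calc 1 / (9 * (q : ℝ)) ≤ 1 / (9 * 4 ^ c) := by
          apply one_div_le_one_div_of_le (by positivity)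
          linarith
      _ = (1 / (3 * 2 ^ c)) ^ 2 := by rw [h4]; field_simp; norm_num
      _ ≤ A ^ 2 := by gcongr
  have hhigh : ∀ A : ℝ, 0 ≤ A → A ≤ 1 / 2 ^ c → A ^ 2 ≤ 4 / (q : ℝ) := by
    intro A hA0 hA
    calc A ^ 2 ≤ (1 / 2 ^ c) ^ 2 := by gcongr
      _ = 1 / 4 ^ c := by rw [h4]; field_simp
      _ ≤ 4 / (q : ℝ) := by
        rw [div_le_div_iff₀ (by positivity) hqpos]
        linarith
  -- partial sums
  have hsub : ∀ (p : ℕ → Prop) [DecidablePred p],
      ∑ j ∈ (range (2 * c + 1)).filter p, ω j ≤ 1 := by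
    intro p _
    rw [← hsum]
    exact sum_le_sum_of_subset_of_nonneg (filter_subset _ _) (fun j _ _ => h0 j)
  have hsub0 : ∀ (p : ℕ → Prop) [DecidablePred p],
      0 ≤ ∑ j ∈ (range (2 * c + 1)).filter p, ω j := by
    intro p _
    exact sum_nonneg fun j _ => h0 j
  -- upper bound of the functional by a partial sum
  have hup : ∀ (p : ℕ → Prop) [DecidablePred p] (U : Finset (Fin l)),
      (∀ j ∈ range (2 * c + 1), ¬ p j → ind d (j * K) (U.map Fin.valEmbedding) = 0) →
      pe U ≤ ∑ j ∈ (range (2 * c + 1)).filter p, ω j := by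
    intro p _ U h
    rw [hpe, sum_filter]
    refine sum_le_sum fun j hj => ?_
    by_cases hp : p j
    · rw [if_pos hp]
      exact mul_le_of_le_one_right (h0 j) (ind_le_one _ _ _)
    · rw [if_neg hp, h j hj hp, mul_zero]
  have hlo : ∀ (p : ℕ → Prop) [DecidablePred p] (U : Finset (Fin l)),
      (∀ j ∈ range (2 * c + 1), p j → ind d (j * K) (U.map Fin.valEmbedding) = 1) →
      ∑ j ∈ (range (2 * c + 1)).filter p, ω j ≤ pe U := by
    intro p _ U h
    rw [hpe, sum_filter]
    refine sum_le_sum fun j hj => ?_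
    by_cases hp : p j
    · rw [if_pos hp, h j hj hp, mul_one]
    · rw [if_neg hp]
      exact mul_nonneg (h0 j) (ind_nonneg _ _ _)
  have hcompl : ∀ (p : ℕ → Prop) [DecidablePred p],
      ∑ j ∈ (range (2 * c + 1)).filter (fun j => ¬ p j), ω j
        = 1 - ∑ j ∈ (range (2 * c + 1)).filter p, ω j := by
    intro p _
    have := sum_filter_add_sum_filter_not (range (2 * c + 1)) p ω
    rw [hsum] at this
    linarith
  refine ⟨pe, ⟨?_, ?_, ?_, ?_, ?_⟩, ⟨?_, ?_⟩⟩
  · intro U
    exact sum_nonneg fun j _ => mul_nonneg (h0 j) (ind_nonneg _ _ _)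
  · intro U
    rw [hpe]
    show ∑ j ∈ range (2 * c + 1), ω j * ind d (j * K) (U.map Fin.valEmbedding) ≤ 1
    rw [← hsum]
    exact sum_le_sum fun j _ => mul_le_of_le_one_right (h0 j) (ind_le_one _ _ _)
  · show ∑ j ∈ range (2 * c + 1), ω j * ind d (j * K) ((∅ : Finset (Fin l)).map Fin.valEmbedding) = 1
    rw [Finset.map_empty, ← hsum]
    exact sum_congr rfl fun j _ => by rw [ind_empty, mul_one]
  · intro U i hc hi
    show ∑ j ∈ range (2 * c + 1), ω j * ind d (j * K) ((insert i U).map Fin.valEmbedding)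
      = ∑ j ∈ range (2 * c + 1), ω j * ind d (j * K) (U.map Fin.valEmbedding)
    refine sum_congr rfl fun j _ => ?_
    rw [map_insert_val, ind_move]
    · rw [← map_insert_val, card_map]; exact hc
    · rcases hi with h | ⟨k, hk, hki⟩
      · exact Or.inl h
      · exact Or.inr ⟨(k : ℕ), Finset.mem_map_of_mem Fin.valEmbedding hk, hki⟩
  · intro U i hi hil
    show ∑ j ∈ range (2 * c + 1), ω j * ind d (j * K) (U.map Fin.valEmbedding) = 0
    refine sum_eq_zero fun j hj => ?_
    rw [mem_range] at hj
    rw [ind_zero (i := (i : ℕ)) (Finset.mem_map_of_mem Fin.valEmbedding hi), mul_zero]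
    rw [hil, hl, ← hK]
    calc j * K + K = (j + 1) * K := by ring
      _ ≤ (2 * c + 1) * K := Nat.mul_le_mul_right K (by omega)
  · -- up
    intro i
    set j0 := (i : ℕ) / K with hj0
    have hj0le : j0 * K ≤ (i : ℕ) := Nat.div_mul_le_self _ _
    have hj0lt : (i : ℕ) < (j0 + 1) * K := by
      rw [mul_comm]; exact Nat.lt_mul_div_succ _ hKpos
    have hj02 : j0 ≤ 2 * c := by
      have h1 : (i : ℕ) < (2 * c + 1) * K := by rw [← hl]; exact i.isLt
      have := (Nat.div_lt_iff_lt_mul hKpos).2 h1
      omega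
    have hmem2 : 2 * c ∈ (range (2 * c + 1)).filter (fun k => j0 ≤ k) := by
      rw [mem_filter, mem_range]; exact ⟨by omega, hj02⟩
    have hAge : ω (2 * c) ≤ ∑ k ∈ (range (2 * c + 1)).filter (fun k => j0 ≤ k), ω k :=
      single_le_sum (fun k _ => h0 k) hmem2
    refine ⟨∑ k ∈ (range (2 * c + 1)).filter (fun k => j0 ≤ k), ω k, hsub0 _, ?_,
      hlow _ (hω2.trans hAge), ?_⟩
    · intro T
      apply hup
      intro j _ hjj
      push Not at hjj
      rw [map_insert_val]
      apply ind_zero (i := (i : ℕ)) (mem_insert_self _ _)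
      rw [← hK]
      calc j * K + K = (j + 1) * K := by ring
        _ ≤ j0 * K := Nat.mul_le_mul_right K (by omega)
        _ ≤ (i : ℕ) + 1 := by omega
    · by_cases hlt : j0 < 2 * c
      · left
        have h1 := htail j0 hlt
        have h2 : ∑ k ∈ (range (2 * c + 1)).filter (fun k => j0 + 1 ≤ k), ω k ≤ pe {i} := by
          apply hlo
          intro j _ hjj
          rw [show ({i} : Finset (Fin l)) = insert i ∅ from rfl, map_insert_val, Finset.map_empty,
            ind_insert_lt, ind_empty]
          calc (i : ℕ) < (j0 + 1) * K := hj0lt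
            _ ≤ j * K := Nat.mul_le_mul_right K hjj
        have h3 := hsub (fun k => j0 ≤ k)
        have h4' := hsub0 (fun k => j0 ≤ k)
        nlinarith
      · right
        have hj0eq : j0 = 2 * c := by omega
        apply hhigh _ (hsub0 _)
        have : (range (2 * c + 1)).filter (fun k => j0 ≤ k) = {2 * c} := by
          ext k
          rw [mem_filter, mem_range, mem_singleton]
          omega
        rw [this, sum_singleton]
        exact hω2'
  · -- down
    intro i
    set j0 := (i : ℕ) / K with hj0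
    have hj0le : j0 * K ≤ (i : ℕ) := Nat.div_mul_le_self _ _
    have hj0lt : (i : ℕ) < (j0 + 1) * K := by
      rw [mul_comm]; exact Nat.lt_mul_div_succ _ hKpos
    have hj02 : j0 ≤ 2 * c := by
      have h1 : (i : ℕ) < (2 * c + 1) * K := by rw [← hl]; exact i.isLt
      have := (Nat.div_lt_iff_lt_mul hKpos).2 h1
      omega
    have hmem0 : 0 ∈ (range (2 * c + 1)).filter (fun k => k ≤ j0) := by
      rw [mem_filter, mem_range]; exact ⟨by omega, Nat.zero_le _⟩
    have hAge : ω 0 ≤ ∑ k ∈ (range (2 * c + 1)).filter (fun k => k ≤ j0), ω k :=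
      single_le_sum (fun k _ => h0 k) hmem0
    refine ⟨∑ k ∈ (range (2 * c + 1)).filter (fun k => k ≤ j0), ω k, hsub0 _, ?_,
      hlow _ (hω0.trans hAge), ?_⟩
    · intro T
      show |∑ j ∈ range (2 * c + 1), ω j * ind d (j * K) (T.map Fin.valEmbedding)
        - ∑ j ∈ range (2 * c + 1), ω j * ind d (j * K) ((insert i T).map Fin.valEmbedding)| ≤ _
      rw [← sum_sub_distrib]
      refine (abs_sum_le_sum_abs _ _).trans ?_
      rw [sum_filter]
      refine sum_le_sum fun j _ => ?_
      rw [← mul_sub, abs_mul, abs_of_nonneg (h0 j)]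
      by_cases hjj : j ≤ j0
      · rw [if_pos hjj]
        refine mul_le_of_le_one_right (h0 j) ?_
        have a1 := ind_nonneg d (j * K) (T.map Fin.valEmbedding)
        have a2 := ind_le_one d (j * K) (T.map Fin.valEmbedding)
        have a3 := ind_nonneg d (j * K) ((insert i T).map Fin.valEmbedding)
        have a4 := ind_le_one d (j * K) ((insert i T).map Fin.valEmbedding)
        rw [abs_le]; constructor <;> linarith
      · rw [if_neg hjj]
        push Not at hjj
        rw [map_insert_val, ind_insert_lt, sub_self, abs_zero, mul_zero]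
        calc (i : ℕ) < (j0 + 1) * K := hj0lt
          _ ≤ j * K := Nat.mul_le_mul_right K (by omega)
    · by_cases hlt : 1 ≤ j0
      · left
        obtain ⟨j1, hj1⟩ : ∃ j1, j0 = j1 + 1 := ⟨j0 - 1, by omega⟩
        have h1 := hhead j1 (by omega)
        rw [← hj1] at h1
        have h2 : ∑ k ∈ (range (2 * c + 1)).filter (fun k => k ≤ j1), ω k ≤ 1 - pe {i} := by
          have h5 : pe {i} ≤ ∑ k ∈ (range (2 * c + 1)).filter (fun k => ¬ (k ≤ j1)), ω k := by
            apply hup
            intro j _ hjj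
            push Not at hjj
            rw [show ({i} : Finset (Fin l)) = insert i ∅ from rfl, map_insert_val]
            apply ind_zero (i := (i : ℕ)) (mem_insert_self _ _)
            rw [← hK]
            calc j * K + K = (j + 1) * K := by ring
              _ ≤ j0 * K := Nat.mul_le_mul_right K (by omega)
              _ ≤ (i : ℕ) + 1 := by omega
          rw [hcompl] at h5
          linarith
        have h3 := hsub (fun k => k ≤ j0)
        have h4' := hsub0 (fun k => k ≤ j0)
        nlinarith
      · right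
        have hj0eq : j0 = 0 := Nat.lt_one_iff.mp (not_le.mp hlt)
        apply hhigh _ (hsub0 _)
        have : (range (2 * c + 1)).filter (fun k => k ≤ j0) = {0} := by
          ext k
          rw [mem_filter, mem_range, mem_singleton]
          omega
        rw [this, sum_singleton]
        exact hω0'

end Pool.Agent.Lib.OWC
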