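import Pool.Agent.Lib.OWC.PathLem
import Pool.Agent.Lib.OWC.Moment
import Pool.Agent.Lib.OWC.PowSum

/-!
# SecMom: the second moment of the part of degree at least `k`

`moment` with `F' = univ`, `N U = q ^ (d - 1 - |U|)` (`Paths.count_map`, `map_pw_inj`), then
`β U ^ 2 ≤ 9 ^ |U|` and `pow_sum_a`.
-/

namespace Pool.Agent.Lib.OWC

open Finset Pool.Agent.Lib.Pe46137

theorem sec_mom {d l q : ℕ} [NeZero q] (hd : 6 ≤ d) (hl : 1 ≤ l) (hq : (9 * l) ^ 4 ≤ q) {k : ℕ}
    (hk1 : 1 ≤ k) (hk2 : k ≤ 2) {F : Type} [Fintype F] {w : F → Fin l → ZMod q}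
    (hw : Paths q (d - 1) w) (β : Finset (Fin l) → ℝ) (hβ : ∀ U, |β U| ≤ 3 ^ U.card)
    (h : (Fin l × ZMod q → Bool) → ℝ) :
    ∑ f, (∑ U : Finset (Fin l) with k ≤ U.card ∧ U.card ≤ d,
      β U * coef h (U.map (pw (w f)))) ^ 2 ≤
      3 * (9 * l) ^ k * (q : ℝ) ^ (d - 1 - k) * avg (fun x => h x * h x) := by
  have hq0 : (0 : ℝ) < q := by
    have := Nat.pos_of_ne_zero (NeZero.ne q)
    exact_mod_cast this
  have key := moment (Finset.univ : Finset F) (fun f => pw (w f))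
    (univ.filter (fun U : Finset (Fin l) => k ≤ U.card ∧ U.card ≤ d)) β
    (fun U => (q : ℝ) ^ (d - 1 - U.card)) (fun U _ => by positivity)
    (fun U _ S => by
      have := hw.count_map U S
      exact_mod_cast this)
    (fun f _ f' _ U _ U' _ hUU => map_pw_inj hUU) h
  refine key.trans ?_
  have havg : 0 ≤ avg (fun x => h x * h x) := by
    unfold avg
    exact div_nonneg (sum_nonneg fun x _ => mul_self_nonneg _) (by positivity)
  refine mul_le_mul_of_nonneg_right ?_ havg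
  refine (sum_le_sum fun U _ => ?_).trans (pow_sum_a hd hl hq hk1 hk2)
  refine mul_le_mul_of_nonneg_right ?_ (by positivity)
  calc β U ^ 2 = |β U| ^ 2 := (sq_abs _).symm
    _ ≤ (3 ^ U.card) ^ 2 := pow_le_pow_left₀ (abs_nonneg _) (hβ U) 2
    _ = 9 ^ U.card := by rw [← pow_mul, mul_comm, pow_mul]; norm_num

end Pool.Agent.Lib.OWC
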