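import Pool.Agent.Lib.OWC.Cond
import Pool.Agent.Lib.OWC.SecMom
import Pool.Agent.Lib.OWC.LevelOne

/-!
# Pos: the functionals are nonnegative up to a small error

Let `μ = avg h = avg (h * h)`; if `μ = 0` then `h = 0` and `Phi = 0`.  `Phi = μ + X1 + X2` by `Phi_eq`:
`μ` is the term `U = ∅` (`pHat pe ∅ = 1`, `coef h ∅ = avg h`), `X1` the terms `|U| = 1`, `X2` the terms
`2 ≤ |U| ≤ d`; `X = X1 + X2`.  Let `q' = q ^ (d - 3)`.

Case `μ ≤ q ^ (-3)`.  `max 0 (-Phi) ≤ |X|`, and by Cauchy-Schwarz, `sec_mom` (`k = 1`), `|F| = q ^ (d-1)`: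
`∑ |X| ≤ √(q ^ (d-1) * 27 l q ^ (d-2) μ) ≤ √(27 l q ^ (2 d - 6)) ≤ 6 l q'`.

Case `μ > q ^ (-3)`.  Let `H = {v | μ / (2 l) ≤ |coef h {v}|}`.  By `level_one`
`|H| * (μ / (2 l)) ^ 2 ≤ 2 μ ^ 2 log (1 / μ) ≤ 6 μ ^ 2 log q`, so `|H| ≤ 24 l ^ 2 log q`.  The paths that
meet `H` (`∃ i, (i, w f i) ∈ H`): by `cond`, at most `∑_{(i, a) ∈ H} 72 l q' ≤ 1728 l ^ 3 log q * q'`.
For the other paths `|X1| ≤ ∑ i, |pHat pe {i}| * |coef h {(i, w f i)}| ≤ l * μ / (2 l) = μ / 2`, so
`max 0 (-Phi) ≤ max 0 (-(μ / 2 + X2)) ≤ X2 ^ 2 / (2 μ)`, in sum at most (`sec_mom`, `k = 2`)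
`243 l ^ 2 q' μ / (2 μ) ≤ 122 l ^ 2 q'`.  Total `≤ 2000 l ^ 3 log q * q'` (`log q ≥ 1` as `q ≥ 6561`).
-/

namespace Pool.Agent.Lib.OWC

open Finset Pool.Agent.Lib.Pe46137

namespace PosAux

/-- the part of the functional of degree at least `k` -/
noncomputable def XX {l q : ℕ} [NeZero q] (d : ℕ) (pe : Finset (Fin l) → ℝ) (h : (Fin l × ZMod q → Bool) → ℝ)
    (k : ℕ) (v : Fin l → ZMod q) : ℝ :=
  ∑ U : Finset (Fin l) with k ≤ U.card ∧ U.card ≤ d, pHat pe U * coef h (U.map (pw v))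

theorem phi_split0 {d l q : ℕ} [NeZero q] {pe : Finset (Fin l) → ℝ} (hp : Pseudo d l pe)
    (h : (Fin l × ZMod q → Bool) → ℝ) (v : Fin l → ZMod q) :
    Phi d pe (pw v) h = avg h + XX d pe h 1 v := by
  classical
  rw [Phi_eq, XX]
  have h1 : (univ.filter (fun U : Finset (Fin l) => U.card ≤ d)) =
      insert ∅ (univ.filter (fun U : Finset (Fin l) => 1 ≤ U.card ∧ U.card ≤ d)) := by
    ext U
    simp only [mem_filter, mem_univ, true_and, mem_insert]
    constructor
    · intro hU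
      by_cases h0 : U = ∅
      · exact Or.inl h0
      · exact Or.inr ⟨card_pos.2 (nonempty_iff_ne_empty.2 h0), hU⟩
    · rintro (rfl | hU)
      · simp
      · exact hU.2
  rw [h1, sum_insert (by simp), hp.pHat_empty, one_mul]
  congr 1
  unfold coef
  simp [chi]

theorem x_split {d l q : ℕ} [NeZero q] (hd : 1 ≤ d) {pe : Finset (Fin l) → ℝ}
    (h : (Fin l × ZMod q → Bool) → ℝ) (v : Fin l → ZMod q) :
    XX d pe h 1 v = (∑ i, pHat pe {i} * coef h {(i, v i)}) + XX d pe h 2 v := by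
  classical
  unfold XX
  have h1 : (univ.filter (fun U : Finset (Fin l) => 1 ≤ U.card ∧ U.card ≤ d)) =
      (univ.map ⟨fun i : Fin l => ({i} : Finset (Fin l)), singleton_injective⟩) ∪
        (univ.filter (fun U : Finset (Fin l) => 2 ≤ U.card ∧ U.card ≤ d)) := by
    ext U
    simp only [mem_filter, mem_univ, true_and, mem_union, mem_map, Function.Embedding.coeFn_mk]
    constructor
    · rintro ⟨h1, h2⟩
      by_cases h3 : U.card = 1
      · obtain ⟨i, rfl⟩ := card_eq_one.1 h3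
        exact Or.inl ⟨i, rfl⟩
      · exact Or.inr ⟨by omega, h2⟩
    · rintro (⟨i, rfl⟩ | h2)
      · rw [card_singleton]; exact ⟨le_rfl, hd⟩
      · exact ⟨by omega, h2.2⟩
  have h2 : Disjoint (univ.map ⟨fun i : Fin l => ({i} : Finset (Fin l)), singleton_injective⟩)
      (univ.filter (fun U : Finset (Fin l) => 2 ≤ U.card ∧ U.card ≤ d)) := by
    rw [Finset.disjoint_left]
    intro U hU hU'
    simp only [mem_map, mem_univ, true_and, Function.Embedding.coeFn_mk] at hU
    obtain ⟨i, rfl⟩ := hU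
    simp at hU'
  rw [h1, sum_union h2, sum_map]
  congr 1

/-- elementary inequality -/
theorem max_le {μ t : ℝ} (hμ : 0 < μ) : max 0 (-(μ / 2 + t)) ≤ t ^ 2 / (2 * μ) := by
  apply _root_.max_le
  · positivity
  · rw [le_div_iff₀ (by positivity)]
    nlinarith [sq_nonneg (t + μ)]

end PosAux

open PosAux

theorem positivity_bound {d l q : ℕ} [NeZero q] (hd : 6 ≤ d) (hl : 1 ≤ l)
    (hq : (9 * l) ^ 4 ≤ q) {pe : Finset (Fin l) → ℝ} (hp : Pseudo d l pe)
    (hb : Balanced (q : ℝ) pe) {F : Type} [Fintype F] {w : F → Fin l → ZMod q}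
    (hw : Paths q (d - 1) w) (h : (Fin l × ZMod q → Bool) → ℝ) (h01 : ∀ x, h x = 0 ∨ h x = 1) :
    ∑ f, max 0 (-Phi d pe (pw (w f)) h) ≤ 2000 * l ^ 3 * Real.log q * (q : ℝ) ^ (d - 3) := by
  classical
  have hl0 : (1 : ℝ) ≤ l := by exact_mod_cast hl
  have hq6 : 6561 ≤ q := by
    calc 6561 = (9 * 1) ^ 4 := by norm_num
      _ ≤ (9 * l) ^ 4 := Nat.pow_le_pow_left (by omega) 4
      _ ≤ q := hq
  have hqr : (6561 : ℝ) ≤ q := by exact_mod_cast hq6
  have hq0 : (0 : ℝ) < q := by linarith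
  have hlog : 1 ≤ Real.log q := by
    rw [Real.le_log_iff_exp_le hq0]
    have := Real.exp_one_lt_d9
    linarith
  have hQ : (0 : ℝ) < (q : ℝ) ^ (d - 3) := by positivity
  have hl3 : (l : ℝ) ≤ (l : ℝ) ^ 3 := by nlinarith [sq_nonneg ((l : ℝ) - 1)]
  have hl23 : (l : ℝ) ^ 2 ≤ (l : ℝ) ^ 3 := by nlinarith [sq_nonneg (l : ℝ)]
  have hl30 : (0 : ℝ) < (l : ℝ) ^ 3 := by positivity
  have hμ0 : 0 ≤ avg h := avg_nonneg (fun x => by rcases h01 x with h' | h' <;> rw [h'] <;> norm_num)
  have hhh : (fun x => h x * h x) = h := by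
    funext x; rcases h01 x with h' | h' <;> rw [h'] <;> norm_num
  have hβ : ∀ U, |pHat pe U| ≤ 3 ^ U.card := hp.abs_pHat_le
  by_cases hμ : avg h ≤ (q : ℝ)⁻¹ ^ 3
  · -- small functions
    have h1 := sec_mom hd hl hq (k := 1) le_rfl (by norm_num) hw (pHat pe) hβ h
    rw [hhh] at h1
    have h2 : ∀ f, max 0 (-Phi d pe (pw (w f)) h) ≤ |XX d pe h 1 (w f)| := by
      intro f
      rw [phi_split0 hp]
      apply _root_.max_le (abs_nonneg _)
      have := neg_abs_le (XX d pe h 1 (w f))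
      linarith
    have h3 : (∑ f, |XX d pe h 1 (w f)|) ^ 2 ≤ (q : ℝ) ^ (d - 1) * ∑ f, XX d pe h 1 (w f) ^ 2 := by
      have h4 := sq_sum_le_card_mul_sum_sq (s := (univ : Finset F)) (f := fun f => |XX d pe h 1 (w f)|)
      rw [card_univ, hw.card] at h4
      push_cast at h4
      simpa only [sq_abs] using h4
    have h5 : (∑ f, |XX d pe h 1 (w f)|) ^ 2 ≤ (6 * l * (q : ℝ) ^ (d - 3)) ^ 2 := by
      refine h3.trans ?_
      have h6 : ∑ f, XX d pe h 1 (w f) ^ 2 ≤ 3 * (9 * l) ^ 1 * (q : ℝ) ^ (d - 1 - 1) * (q : ℝ)⁻¹ ^ 3 :=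
        h1.trans (mul_le_mul_of_nonneg_left hμ (by positivity))
      refine (mul_le_mul_of_nonneg_left h6 (by positivity)).trans ?_
      have h7 : (q : ℝ) ^ (d - 1) * (3 * (9 * l) ^ 1 * (q : ℝ) ^ (d - 1 - 1) * (q : ℝ)⁻¹ ^ 3) =
          27 * l * ((q : ℝ) ^ (d - 3)) ^ 2 := by
        obtain ⟨m, rfl⟩ : ∃ m, d = m + 3 := ⟨d - 3, by omega⟩
        have e1 : m + 3 - 1 = m + 2 := by omega
        have e2 : m + 3 - 3 = m := by omega
        have e3 : m + 2 - 1 = m + 1 := by omega
        rw [e1, e2, e3]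
        field_simp
        ring
      rw [h7]
      have h8 : (27 : ℝ) * l ≤ (6 * l) ^ 2 := by nlinarith
      calc 27 * (l : ℝ) * ((q : ℝ) ^ (d - 3)) ^ 2 ≤ (6 * l) ^ 2 * ((q : ℝ) ^ (d - 3)) ^ 2 :=
            mul_le_mul_of_nonneg_right h8 (by positivity)
        _ = _ := by ring
    have h9 : ∑ f, |XX d pe h 1 (w f)| ≤ 6 * l * (q : ℝ) ^ (d - 3) :=
      (abs_le_of_sq_le_sq' h5 (by positivity)).2
    refine (sum_le_sum fun f _ => h2 f).trans (h9.trans ?_)
    apply mul_le_mul_of_nonneg_right _ hQ.le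
    nlinarith [mul_le_mul_of_nonneg_left hlog hl30.le]
  · -- large functions
    rw [not_le] at hμ
    have hμp : 0 < avg h := lt_of_le_of_lt (by positivity) hμ
    set μ := avg h with hμdef
    set H : Finset (Fin l × ZMod q) := univ.filter (fun v => μ / (2 * l) ≤ |coef h {v}|) with hH
    have hlogμ : Real.log (1 / μ) ≤ 3 * Real.log q := by
      have h1 : 1 / μ ≤ (q : ℝ) ^ 3 := by
        rw [div_le_iff₀ hμp]
        have h2 : (q : ℝ) ^ 3 * (q : ℝ)⁻¹ ^ 3 = 1 := by
          rw [← mul_pow, mul_inv_cancel₀ hq0.ne', one_pow]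
        rw [← h2]
        exact mul_le_mul_of_nonneg_left hμ.le (by positivity)
      calc Real.log (1 / μ) ≤ Real.log ((q : ℝ) ^ 3) := Real.log_le_log (by positivity) h1
        _ = 3 * Real.log q := by rw [Real.log_pow]; norm_num
    have hcard : (H.card : ℝ) ≤ 24 * l ^ 2 * Real.log q := by
      have h1 := level_one h h01 hμp
      have h2 : (H.card : ℝ) * (μ / (2 * l)) ^ 2 ≤ ∑ v, coef h {v} ^ 2 := by
        calc (H.card : ℝ) * (μ / (2 * l)) ^ 2 = ∑ v ∈ H, (μ / (2 * l)) ^ 2 := by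
              rw [sum_const, nsmul_eq_mul]
          _ ≤ ∑ v ∈ H, coef h {v} ^ 2 := by
              refine sum_le_sum fun v hv => ?_
              have h3 := (mem_filter.1 hv).2
              rw [← sq_abs (coef h {v})]
              exact pow_le_pow_left₀ (by positivity) h3 2
          _ ≤ ∑ v, coef h {v} ^ 2 :=
              sum_le_sum_of_subset_of_nonneg (subset_univ _) (fun _ _ _ => sq_nonneg _)
      have h3 : (H.card : ℝ) * (μ / (2 * l)) ^ 2 ≤ 6 * μ ^ 2 * Real.log q := by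
        refine h2.trans (h1.trans ?_)
        have := mul_le_mul_of_nonneg_left hlogμ (by positivity : (0 : ℝ) ≤ 2 * μ ^ 2)
        calc 2 * avg h ^ 2 * Real.log (1 / avg h) ≤ 2 * μ ^ 2 * (3 * Real.log q) := this
          _ = 6 * μ ^ 2 * Real.log q := by ring
      have h4 : (H.card : ℝ) * (μ / (2 * l)) ^ 2 = (H.card : ℝ) / (4 * l ^ 2) * μ ^ 2 := by
        field_simp
        ring
      rw [h4] at h3
      have h5 : (H.card : ℝ) / (4 * l ^ 2) ≤ 6 * Real.log q := by
        have h6 : (0 : ℝ) < μ ^ 2 := by positivity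
        by_contra hc
        rw [not_le] at hc
        have := mul_lt_mul_of_pos_right hc h6
        linarith
      rw [div_le_iff₀ (by positivity)] at h5
      linarith
    -- bad paths
    set Bd : Finset F := univ.filter (fun f => ∃ i, (i, w f i) ∈ H) with hBd
    have hbad : ∑ f ∈ Bd, max 0 (-Phi d pe (pw (w f)) h) ≤
        1728 * l ^ 3 * Real.log q * (q : ℝ) ^ (d - 3) := by
      have h1 : ∑ f ∈ Bd, max 0 (-Phi d pe (pw (w f)) h) ≤
          ∑ v ∈ H, ∑ f with w f v.1 = v.2, max 0 (-Phi d pe (pw (w f)) h) := by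
        simp_rw [sum_filter (fun f => w f _ = _)]
        rw [sum_comm]
        calc ∑ f ∈ Bd, max 0 (-Phi d pe (pw (w f)) h)
            ≤ ∑ f ∈ Bd, ∑ v ∈ H, (if w f v.1 = v.2 then max 0 (-Phi d pe (pw (w f)) h) else 0) := by
              refine sum_le_sum fun f hf => ?_
              obtain ⟨i, hi⟩ := (mem_filter.1 hf).2
              have h2 := single_le_sum (f := fun v : Fin l × ZMod q =>
                (if w f v.1 = v.2 then max 0 (-Phi d pe (pw (w f)) h) else 0))
                (fun v _ => by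
                  show (0 : ℝ) ≤ if w f v.1 = v.2 then max 0 (-Phi d pe (pw (w f)) h) else 0
                  split_ifs
                  · exact le_max_left _ _
                  · exact le_rfl) hi
              simpa using h2
          _ ≤ ∑ f, ∑ v ∈ H, (if w f v.1 = v.2 then max 0 (-Phi d pe (pw (w f)) h) else 0) := by
              refine sum_le_sum_of_subset_of_nonneg (subset_univ _) (fun f _ _ => sum_nonneg fun v _ => ?_)
              split_ifs
              · exact le_max_left _ _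
              · exact le_rfl
      refine h1.trans ?_
      calc ∑ v ∈ H, ∑ f with w f v.1 = v.2, max 0 (-Phi d pe (pw (w f)) h)
          ≤ ∑ v ∈ H, 72 * l * (q : ℝ) ^ (d - 3) :=
            sum_le_sum fun v _ => cond hd hl hq hp hb hw v.1 v.2 h h01
        _ = H.card * (72 * l * (q : ℝ) ^ (d - 3)) := by rw [sum_const, nsmul_eq_mul]
        _ ≤ (24 * l ^ 2 * Real.log q) * (72 * l * (q : ℝ) ^ (d - 3)) :=
            mul_le_mul_of_nonneg_right hcard (by positivity)
        _ = _ := by ring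
    have hgood : ∑ f ∈ univ \ Bd, max 0 (-Phi d pe (pw (w f)) h) ≤
        122 * l ^ 2 * (q : ℝ) ^ (d - 3) := by
      have h1 : ∀ f ∈ univ \ Bd, max 0 (-Phi d pe (pw (w f)) h) ≤
          XX d pe h 2 (w f) ^ 2 / (2 * μ) := by
        intro f hf
        have hf' : ∀ i, |coef h {(i, w f i)}| ≤ μ / (2 * l) := by
          intro i
          by_contra hc
          rw [not_le] at hc
          apply (mem_sdiff.1 hf).2
          exact mem_filter.2 ⟨mem_univ _, i, mem_filter.2 ⟨mem_univ _, hc.le⟩⟩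
        have h2 : |∑ i, pHat pe {i} * coef h {(i, w f i)}| ≤ μ / 2 := by
          calc |∑ i, pHat pe {i} * coef h {(i, w f i)}|
              ≤ ∑ i, |pHat pe {i} * coef h {(i, w f i)}| := abs_sum_le_sum_abs _ _
            _ ≤ ∑ _i : Fin l, μ / (2 * l) := by
                refine sum_le_sum fun i _ => ?_
                rw [abs_mul]
                calc |pHat pe {i}| * |coef h {(i, w f i)}| ≤ 1 * (μ / (2 * l)) :=
                      mul_le_mul (hp.abs_pHat_single_le i) (hf' i) (abs_nonneg _) zero_le_one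
                  _ = μ / (2 * l) := one_mul _
            _ = μ / 2 := by
                rw [sum_const, card_univ, Fintype.card_fin, nsmul_eq_mul]
                field_simp
        refine le_trans ?_ (PosAux.max_le hμp (t := XX d pe h 2 (w f)))
        apply max_le_max le_rfl
        rw [phi_split0 hp, x_split (by omega)]
        have := (abs_le.1 h2).1
        linarith
      have h2 := sec_mom hd hl hq (k := 2) (by norm_num) le_rfl hw (pHat pe) hβ h
      rw [hhh] at h2
      calc ∑ f ∈ univ \ Bd, max 0 (-Phi d pe (pw (w f)) h)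
          ≤ ∑ f ∈ univ \ Bd, XX d pe h 2 (w f) ^ 2 / (2 * μ) := sum_le_sum h1
        _ ≤ ∑ f, XX d pe h 2 (w f) ^ 2 / (2 * μ) :=
            sum_le_sum_of_subset_of_nonneg (subset_univ _) (fun _ _ _ => by positivity)
        _ = (∑ f, XX d pe h 2 (w f) ^ 2) / (2 * μ) := by rw [sum_div]
        _ ≤ (3 * (9 * l) ^ 2 * (q : ℝ) ^ (d - 1 - 2) * μ) / (2 * μ) :=
            div_le_div_of_nonneg_right h2 (by positivity)
        _ = 243 / 2 * l ^ 2 * (q : ℝ) ^ (d - 3) := by
            have e1 : d - 1 - 2 = d - 3 := by omega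
            rw [e1]
            field_simp
            ring
        _ ≤ 122 * l ^ 2 * (q : ℝ) ^ (d - 3) := by
            apply mul_le_mul_of_nonneg_right _ hQ.le
            apply mul_le_mul_of_nonneg_right (by norm_num) (by positivity)
    rw [← sum_sdiff (subset_univ Bd)]
    refine (add_le_add hgood hbad).trans ?_
    rw [← add_mul]
    apply mul_le_mul_of_nonneg_right _ hQ.le
    nlinarith [mul_le_mul_of_nonneg_left hlog hl30.le]

end Pool.Agent.Lib.OWC
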