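import Pool.Agent.Lib.OWC.Defs
import Pool.Agent.Lib.OWC.CoreOW
import Pool.Agent.Lib.OWC.Pos
import Pool.Agent.Lib.Pe46137.Price

/-!
# Net: from a network to the core inequality

Notation of `Pe46137/Assembly.lean`: `Cl l q = (Fin l × ZMod q) ⊕ Bool` has `l * q + 2` elements,
`Sum.inr true` is the first, `Sum.inr false` the last cluster; `lay`, `walk`, `hat`, `hat_walk`;
`lay_walk_pw` in `Pe46137/LongPos.lean`.
-/

namespace Pool.Agent.Lib.OWC

open Finset Pool.Agent.Lib.Pe46137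

/-- an injection of the clusters into the vertices -/
theorem exists_emb {n l q : ℕ} [NeZero q] (hn : l * q + 2 ≤ n) {s t : Fin n} (hst : s ≠ t) :
    ∃ φ : Cl l q ↪ Fin n, φ (Sum.inr true) = s ∧ φ (Sum.inr false) = t := by
  have hcard : Fintype.card (Cl l q) ≤ Fintype.card (Fin n) := by
    rw [card_Cl, Fintype.card_fin]; exact hn
  obtain ⟨ψ⟩ := Function.Embedding.nonempty_of_card_le hcard
  obtain ⟨π, h1, h2⟩ := exists_perm (a := ψ (Sum.inr true)) (b := ψ (Sum.inr false)) (s := s)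
    (t := t) (fun h => by simpa using ψ.injective h) hst
  exact ⟨ψ.trans π.toEmbedding, h1, h2⟩

/-- sets of arcs between consecutive layers are acyclic -/
theorem acyclic_of_lay {n l q : ℕ} (φ : Cl l q ↪ Fin n) (A : Set (Fin n × Fin n))
    (hA : ∀ a b, (a, b) ∈ A → ∃ u v : Cl l q, a = φ u ∧ b = φ v ∧ lay v = lay u + 1) :
    Acyclic A := by
  intro v hv
  have key : ∀ a b, Relation.TransGen (fun a b => (a, b) ∈ A) a b →
      ∃ u v : Cl l q, a = φ u ∧ b = φ v ∧ lay u < lay v := by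
    intro a b h
    induction h with
    | single h =>
      obtain ⟨u, v, h1, h2, h3⟩ := hA _ _ h
      exact ⟨u, v, h1, h2, by omega⟩
    | tail _ h ih =>
      obtain ⟨u, v, h1, h2, h3⟩ := ih
      obtain ⟨u', v', h1', h2', h3'⟩ := hA _ _ h
      have : v = u' := φ.injective (h2.symm.trans h1')
      exact ⟨u, v', h1, h2', by rw [h3', ← this]; omega⟩
  obtain ⟨u, v', h1, h2, h3⟩ := key v v hv
  have : u = v' := φ.injective (h1.symm.trans h2)
  rw [this] at h3
  exact lt_irrefl _ h3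

/-- the worlds -/
def world {n l q : ℕ} (φ : Cl l q ↪ Fin n) (x : Fin l × ZMod q → Bool) : Set (Fin n × Fin n) :=
  {a | ∃ u v : Cl l q, a = (φ u, φ v) ∧ lay v = lay u + 1 ∧ ¬ (hat x u = true ∧ hat x v = false)}

/-- the paths -/
def track {n l q : ℕ} (φ : Cl l q ↪ Fin n) (p : Fin l ↪ Fin l × ZMod q) : Set (Fin n × Fin n) :=
  {a | ∃ i ≤ l, a = (φ (walk p i), φ (walk p (i + 1)))}

theorem world_acyclic {n l q : ℕ} (φ : Cl l q ↪ Fin n) (x : Fin l × ZMod q → Bool) :
    Acyclic (world φ x) := by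
  refine acyclic_of_lay φ _ ?_
  rintro a b ⟨u, v, h1, h2, _⟩
  obtain ⟨h3, h4⟩ := Prod.ext_iff.mp h1
  exact ⟨u, v, h3, h4, h2⟩

theorem track_acyclic {n l q : ℕ} (φ : Cl l q ↪ Fin n) (w : Fin l → ZMod q) :
    Acyclic (track φ (pw w)) := by
  refine acyclic_of_lay φ _ ?_
  rintro a b ⟨i, hi, h1⟩
  obtain ⟨h3, h4⟩ := Prod.ext_iff.mp h1
  exact ⟨_, _, h3, h4, by rw [lay_walk_pw _ (by omega), lay_walk_pw _ (by omega)]⟩

theorem world_not_reachable {n l q : ℕ} (φ : Cl l q ↪ Fin n) (x : Fin l × ZMod q → Bool) :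
    ¬ Reachable (world φ x) (φ (Sum.inr true)) (φ (Sum.inr false)) := by
  intro h
  have key : ∀ b, Reachable (world φ x) (φ (Sum.inr true)) b →
      ∃ u : Cl l q, b = φ u ∧ hat x u = true := by
    intro b hb
    induction hb with
    | refl => exact ⟨_, rfl, rfl⟩
    | tail _ h ih =>
      obtain ⟨u, h1, h2⟩ := ih
      obtain ⟨u', v', h3, h4, h5⟩ := h
      obtain ⟨h6, h7⟩ := Prod.ext_iff.mp h3
      have : u = u' := φ.injective (h1.symm.trans h6)
      refine ⟨v', h7, ?_⟩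
      by_contra hc
      exact h5 ⟨this ▸ h2, by simpa using hc⟩
  obtain ⟨u, h1, h2⟩ := key _ h
  rw [← φ.injective h1] at h2
  simp [hat] at h2

theorem track_reachable {n l q : ℕ} (φ : Cl l q ↪ Fin n) (p : Fin l ↪ Fin l × ZMod q) :
    Reachable (track φ p) (φ (Sum.inr true)) (φ (Sum.inr false)) := by
  have key : ∀ i ≤ l + 1, Reachable (track φ p) (φ (Sum.inr true)) (φ (walk p i)) := by
    intro i
    induction i with
    | zero => intro _; exact Relation.ReflTransGen.refl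
    | succ i ih =>
      intro hi
      exact (ih (by omega)).tail ⟨i, by omega, rfl⟩
  have := key (l + 1) le_rfl
  rwa [walk_last p le_rfl] at this

/-- from the sum inequality to the bound -/
theorem finish {F K w r ρ η : ℝ} (hF : 0 < F) (hK : 0 ≤ K) (hη : 0 ≤ η)
    (hrρ : r ≤ ρ) (hrw : r ≤ w ^ 2) (hw : 1 ≤ w) (hρη : 2 * (ρ * η) ≤ F)
    (h : F ≤ w * Real.sqrt (F * K) + r * (η + Real.sqrt (F * K))) :
    F ≤ 16 * w ^ 4 * K := by
  set R := Real.sqrt (F * K) with hR
  have hR0 : 0 ≤ R := Real.sqrt_nonneg _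
  have h1 : r * η ≤ ρ * η := mul_le_mul_of_nonneg_right hrρ hη
  have h2 : w * R ≤ w ^ 2 * R := by
    refine mul_le_mul_of_nonneg_right ?_ hR0
    nlinarith
  have h3 : r * R ≤ w ^ 2 * R := mul_le_mul_of_nonneg_right hrw hR0
  have h4 : F ≤ 4 * w ^ 2 * R := by
    have : r * (η + R) = r * η + r * R := by ring
    rw [this] at h
    linarith
  have h5 : F * F ≤ (4 * w ^ 2 * R) * (4 * w ^ 2 * R) :=
    mul_le_mul h4 h4 hF.le (by positivity)
  have h6 : R * R = F * K := Real.mul_self_sqrt (by positivity)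
  have h7 : (4 * w ^ 2 * R) * (4 * w ^ 2 * R) = F * (16 * w ^ 4 * K) := by
    calc (4 * w ^ 2 * R) * (4 * w ^ 2 * R) = 16 * w ^ 4 * (R * R) := by ring
      _ = F * (16 * w ^ 4 * K) := by rw [h6]; ring
  rw [h7] at h5
  exact le_of_mul_le_mul_left h5 hF

theorem net_bound {n d l q ρ : ℕ} [Fact q.Prime] (hd : 6 ≤ d) (hl : 1 ≤ l)
    (hq : (9 * l) ^ 4 ≤ q) (hn : l * q + 2 ≤ n) {pe : Finset (Fin l) → ℝ} (hp : Pseudo d l pe)
    (hb : Balanced (q : ℝ) pe) {F : Type} [Fintype F] {w : F → Fin l → ZMod q}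
    (hw : Paths q (d - 1) w) {s t : Fin n} (hst : s ≠ t) {W : Type} [Fintype W]
    (N : Network (Fin n × Fin n) W)
    (hN : ∀ G : Set (Fin n × Fin n), Acyclic G → (N.Accepts G ↔ Reachable G s t))
    (hav : N.Avoids Set.univ) (hρ : {p : W × W | N.OneWay p.1 p.2}.ncard ≤ ρ)
    (hρq : 4000 * ρ * (l : ℝ) ^ 3 * Real.log q ≤ (q : ℝ) ^ 2) :
    (q : ℝ) ^ (d - 1) ≤ 16 * (Fintype.card W : ℝ) ^ 4 * (9 * l + 1) ^ d := by
  classical
  have hq0 : NeZero q := ⟨(Fact.out : q.Prime).ne_zero⟩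
  have hq1 : (1 : ℝ) ≤ q := by exact_mod_cast (Fact.out : q.Prime).one_lt.le
  obtain ⟨φ, hφs, hφt⟩ := exists_emb (l := l) (q := q) hn hst
  set J : W → (Fin l × ZMod q → Bool) → ℝ := fun v x =>
    if Relation.ReflTransGen (N.Closed (world φ x)) N.source v then 1 else 0 with hJ
  have hJ01 : ∀ v x, J v x = 0 ∨ J v x = 1 := by
    intro v x
    simp only [hJ]
    split_ifs <;> simp
  have hJstep : ∀ v v' x, N.Closed (world φ x) v v' → J v x ≤ J v' x := by
    intro v v' x h
    by_cases hv : Relation.ReflTransGen (N.Closed (world φ x)) N.source v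
    · have hv' : Relation.ReflTransGen (N.Closed (world φ x)) N.source v' := hv.tail h
      simp [hJ, hv, hv']
    · have h1 : J v x = 0 := by simp [hJ, hv]
      rw [h1]
      rcases hJ01 v' x with h2 | h2 <;> rw [h2]
      norm_num
  set R : Finset (W × W) := univ.filter (fun p => N.OneWay p.1 p.2) with hR
  have hRρ : R.card ≤ ρ := by
    refine le_trans (le_of_eq ?_) hρ
    rw [← Set.ncard_coe_finset]
    congr 1
    ext p
    simp [hR]
  have hRW : R.card ≤ Fintype.card W ^ 2 := by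
    refine le_trans (card_le_univ R) ?_
    rw [Fintype.card_prod, sq]
  have hcore := core (d := d) (l := l) (pe := pe) (by omega) hl hp (fun f => pw (w f))
    (fun f f' hne S S' h => by
      have := hw.almost_disjoint hne h
      omega) J hJ01 R
    (η := 2000 * l ^ 3 * Real.log q * (q : ℝ) ^ (d - 3))
    (fun h h01 => positivity_bound hd hl hq hp hb hw h h01)
    (fun f => N.Closed (track φ (pw (w f)))) (s := N.source) (t := N.sink) ?_ ?_ ?_ ?_
  · rw [hw.card] at hcore
    push_cast at hcore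
    have hlog : 0 ≤ Real.log q := Real.log_nonneg hq1
    refine finish (ρ := ρ) (r := R.card) (η := 2000 * l ^ 3 * Real.log q * (q : ℝ) ^ (d - 3))
      (by positivity) (by positivity) (by positivity)
      (by exact_mod_cast hRρ) (by exact_mod_cast hRW) ?_ ?_ hcore
    · have : 0 < Fintype.card W := Fintype.card_pos_iff.mpr ⟨N.source⟩
      exact_mod_cast this
    · calc 2 * ((ρ : ℝ) * (2000 * l ^ 3 * Real.log q * (q : ℝ) ^ (d - 3)))
          = (4000 * ρ * (l : ℝ) ^ 3 * Real.log q) * (q : ℝ) ^ (d - 3) := by ring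
        _ ≤ (q : ℝ) ^ 2 * (q : ℝ) ^ (d - 3) := by gcongr
        _ = (q : ℝ) ^ (d - 1) := by
            rw [← pow_add]; congr 1; omega
  · intro f v v' hvv
    rcases hvv with h | ⟨e, he, h⟩ | ⟨e, _, h⟩
    · refine ⟨none, by simp, ?_⟩
      by_cases h' : N.wire v' v
      · exact Or.inl fun x _ => le_antisymm (hJstep _ _ _ (Or.inl h)) (hJstep _ _ _ (Or.inl h'))
      · refine Or.inr ⟨?_, fun x _ => hJstep _ _ _ (Or.inl h)⟩
        simp only [hR, mem_filter, mem_univ, true_and]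
        exact Or.inl ⟨h, h'⟩
    · obtain ⟨i, hi, rfl⟩ := he
      have hin : ∀ x, ¬ CrossO (some i) (fun j => x (pw (w f) j)) →
          (φ (walk (pw (w f)) i), φ (walk (pw (w f)) (i + 1))) ∈ world φ x := by
        intro x hx
        refine ⟨_, _, rfl, ?_, ?_⟩
        · rw [lay_walk_pw _ (by omega), lay_walk_pw _ (by omega)]
        · rw [hat_walk, hat_walk]
          exact fun hc => hx ⟨i, rfl, hc⟩
      refine ⟨some i, by simpa using hi, ?_⟩
      by_cases h' : N.pos (φ (walk (pw (w f)) i), φ (walk (pw (w f)) (i + 1))) v' v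
      · exact Or.inl fun x hx => le_antisymm (hJstep _ _ _ (Or.inr (Or.inl ⟨_, hin x hx, h⟩)))
          (hJstep _ _ _ (Or.inr (Or.inl ⟨_, hin x hx, h'⟩)))
      · refine Or.inr ⟨?_, fun x hx => hJstep _ _ _ (Or.inr (Or.inl ⟨_, hin x hx, h⟩))⟩
        simp only [hR, mem_filter, mem_univ, true_and]
        exact Or.inr (Or.inl ⟨_, h, h'⟩)
    · exact absurd h (hav e (Set.mem_univ _) v v')
  · intro x
    simp [hJ, Relation.ReflTransGen.refl]
  · intro x
    simp only [hJ]
    rw [if_neg]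
    intro h
    have h1 := (hN (world φ x) (world_acyclic φ x)).mp h
    rw [← hφs, ← hφt] at h1
    exact world_not_reachable φ x h1
  · intro f
    refine (hN _ (track_acyclic φ (w f))).mpr ?_
    rw [← hφs, ← hφt]
    exact track_reachable φ _

end Pool.Agent.Lib.OWC
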