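import Pool.Agent.Lib.OWC.Params
import Pool.Agent.Lib.OWC.Mix
import Pool.Agent.Lib.OWC.Net

/-!
# Lower: the lower bound for one network

`params`; `lam = Nat.log 2 n`, `kap`, `sig` as there, `L = logb 2 n`: `lam ≤ L < lam + 1`, `L ≥ 1`,
`kap ≤ logb 2 L + 1` (`2 ^ (kap - 1) < lam + 1`, so `2 ^ (kap - 1) ≤ lam ≤ L`), `sig ≤ logb 2 (ρ + 1) + 1`.
First alternative: `2 L ≤ 2 lam + 2 ≤ sig + 12 kap + 112 ≤ logb 2 (ρ + 1) + 12 logb 2 L + 125`; the last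
term of the claim is nonnegative (`1 ≤ S`, the network has a source).

Second alternative: `l = (2 c + 1) 2 ^ d`, `exists_balanced`, `exists_paths` (`l ≤ q`), `net_bound` (`hρq`:
`log q ≤ lam + 1` as `q ≤ n < 2 ^ (lam + 1)`) give `q ^ (d - 1) ≤ 16 S ^ 4 (9 l + 1) ^ d`.  As
`9 l + 1 ≤ 2 * 9 l` and `(9 l) ^ 4 ≤ q`, `(9 l + 1) ^ (4 d) ≤ 2 ^ (4 d) q ^ d`, so
`q ^ (4 d - 4) ≤ 2 ^ 16 S ^ 16 2 ^ (4 d) q ^ d`, `q ^ (3 d - 4) ≤ 2 ^ (16 + 4 d) S ^ 16`.  As `q ≥ 2 ^ 12`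
and `6 ≤ d`: `2 ^ (16 + 4 d) ≤ 2 ^ (12 d) ≤ q ^ d`, so `q ^ (2 d - 4) ≤ S ^ 16`, and `d ≤ 2 d - 4 `, thus
`q ^ d ≤ S ^ 16`.  With `2 ^ lam ≤ q ^ 2`: `2 ^ (lam d) ≤ q ^ (2 d) ≤ S ^ 32`, `lam d ≤ 32 logb 2 S`,
`d ≤ 32 logb 2 S / lam ≤ 64 logb 2 S / L`.  So `2 L ≤ 2 lam + 2 ≤ sig + 12 kap + 52 + 10 d ≤
logb 2 (ρ + 1) + 12 logb 2 L + 65 + 640 logb 2 S / L`.
-/

namespace Pool.Agent.Lib.OWC

open Pool.Agent.Lib.Pe46137

namespace LowerAux

theorem log_le {n : ℕ} (hn : 1 ≤ n) : (Nat.log 2 n : ℝ) ≤ Real.logb 2 n := by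
  rw [Real.le_logb_iff_rpow_le (by norm_num) (by exact_mod_cast hn), Real.rpow_natCast]
  exact_mod_cast Nat.pow_log_le_self 2 (by omega)

theorem lt_log {n : ℕ} (hn : 1 ≤ n) : Real.logb 2 n < Nat.log 2 n + 1 := by
  rw [Real.logb_lt_iff_lt_rpow (by norm_num) (by exact_mod_cast hn)]
  have h : n < 2 ^ (Nat.log 2 n + 1) := Nat.lt_pow_succ_log_self (by norm_num) n
  have h1 : ((Nat.log 2 n : ℝ) + 1) = ((Nat.log 2 n + 1 : ℕ) : ℝ) := by push_cast; ring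
  rw [h1, Real.rpow_natCast]
  exact_mod_cast h

theorem clog_le {m : ℕ} : (Nat.clog 2 (m + 1) : ℝ) ≤ Real.logb 2 (m + 1) + 1 := by
  rcases Nat.eq_zero_or_pos m with h | h
  · subst h
    simp
  · have h1 : 2 ^ (Nat.clog 2 (m + 1)).pred < m + 1 :=
      Nat.pow_pred_clog_lt_self (by norm_num) (by omega)
    have h2 : (((Nat.clog 2 (m + 1)).pred : ℕ) : ℝ) ≤ Real.logb 2 (m + 1) := by
      rw [Real.le_logb_iff_rpow_le (by norm_num) (by positivity), Real.rpow_natCast]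
      exact_mod_cast h1.le
    have h3 : Nat.clog 2 (m + 1) ≤ (Nat.clog 2 (m + 1)).pred + 1 := by
      rw [Nat.pred_eq_sub_one]; omega
    have h4 : (Nat.clog 2 (m + 1) : ℝ) ≤ ((Nat.clog 2 (m + 1)).pred : ℝ) + 1 := by
      exact_mod_cast h3
    linarith

theorem clog_le' {m : ℕ} (hm : 1 ≤ m) : (Nat.clog 2 (m + 1) : ℝ) ≤ Real.logb 2 m + 1 := by
  have h1 : 2 ^ (Nat.clog 2 (m + 1)).pred < m + 1 :=
    Nat.pow_pred_clog_lt_self (by norm_num) (by omega)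
  have h2 : (((Nat.clog 2 (m + 1)).pred : ℕ) : ℝ) ≤ Real.logb 2 m := by
    rw [Real.le_logb_iff_rpow_le (by norm_num) (by exact_mod_cast hm), Real.rpow_natCast]
    have h5 : 2 ^ (Nat.clog 2 (m + 1)).pred ≤ m := by omega
    exact_mod_cast h5
  have h3 : Nat.clog 2 (m + 1) ≤ (Nat.clog 2 (m + 1)).pred + 1 := by
    rw [Nat.pred_eq_sub_one]; omega
  have h4 : (Nat.clog 2 (m + 1) : ℝ) ≤ ((Nat.clog 2 (m + 1)).pred : ℝ) + 1 := by
    exact_mod_cast h3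
  linarith

/-- the arithmetic of the second alternative -/
theorem key {q l d S : ℕ} (hd : 6 ≤ d) (hl : 1 ≤ l) (hq : (9 * l) ^ 4 ≤ q)
    (h : q ^ (d - 1) ≤ 16 * S ^ 4 * (9 * l + 1) ^ d) : q ^ d ≤ S ^ 16 := by
  have hq12 : 2 ^ 12 ≤ q := by
    refine le_trans ?_ hq
    calc 2 ^ 12 ≤ 9 ^ 4 := by norm_num
      _ ≤ (9 * l) ^ 4 := Nat.pow_le_pow_left (by omega) 4
  have hq0 : 0 < q := lt_of_lt_of_le (by norm_num) hq12
  have h1 : q ^ (4 * (d - 1)) ≤ 2 ^ 16 * S ^ 16 * (9 * l + 1) ^ (4 * d) := by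
    calc q ^ (4 * (d - 1)) = (q ^ (d - 1)) ^ 4 := by rw [← pow_mul, mul_comm]
      _ ≤ (16 * S ^ 4 * (9 * l + 1) ^ d) ^ 4 := Nat.pow_le_pow_left h 4
      _ = 2 ^ 16 * S ^ 16 * (9 * l + 1) ^ (4 * d) := by
        rw [mul_pow, mul_pow, ← pow_mul, ← pow_mul, mul_comm d 4]
        norm_num
  have h2 : (9 * l + 1) ^ (4 * d) ≤ 2 ^ (4 * d) * q ^ d := by
    calc (9 * l + 1) ^ (4 * d) ≤ (2 * (9 * l)) ^ (4 * d) := Nat.pow_le_pow_left (by omega) _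
      _ = 2 ^ (4 * d) * ((9 * l) ^ 4) ^ d := by rw [mul_pow, ← pow_mul (9 * l)]
      _ ≤ 2 ^ (4 * d) * q ^ d := Nat.mul_le_mul_left _ (Nat.pow_le_pow_left hq d)
  have h3 : 2 ^ (16 + 4 * d) ≤ q ^ d := by
    calc 2 ^ (16 + 4 * d) ≤ 2 ^ (12 * d) := Nat.pow_le_pow_right (by norm_num) (by omega)
      _ = (2 ^ 12) ^ d := by rw [pow_mul]
      _ ≤ q ^ d := Nat.pow_le_pow_left hq12 d
  have h4 : q ^ (2 * d - 4) * q ^ (2 * d) ≤ S ^ 16 * q ^ (2 * d) := by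
    calc q ^ (2 * d - 4) * q ^ (2 * d) = q ^ (4 * (d - 1)) := by
          rw [← pow_add]; congr 1; omega
      _ ≤ 2 ^ 16 * S ^ 16 * (9 * l + 1) ^ (4 * d) := h1
      _ ≤ 2 ^ 16 * S ^ 16 * (2 ^ (4 * d) * q ^ d) := Nat.mul_le_mul_left _ h2
      _ = S ^ 16 * (2 ^ (16 + 4 * d) * q ^ d) := by rw [pow_add]; ring
      _ ≤ S ^ 16 * (q ^ d * q ^ d) :=
          Nat.mul_le_mul_left _ (Nat.mul_le_mul_right _ h3)
      _ = S ^ 16 * q ^ (2 * d) := by rw [two_mul, pow_add]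
  have h5 : q ^ (2 * d - 4) ≤ S ^ 16 := Nat.le_of_mul_le_mul_right h4 (pow_pos hq0 _)
  exact le_trans (Nat.pow_le_pow_right hq0 (by omega)) h5

end LowerAux

open LowerAux

theorem lower {n ρ S : ℕ} {s t : Fin n} (hst : s ≠ t) (N : Network (Fin n × Fin n) (Fin S))
    (hN : ∀ G : Set (Fin n × Fin n), Acyclic G → (N.Accepts G ↔ Reachable G s t))
    (hav : N.Avoids Set.univ) (hρ : {p : Fin S × Fin S | N.OneWay p.1 p.2}.ncard ≤ ρ) :
    2 * Real.logb 2 n ≤ Real.logb 2 (ρ + 1) + 640 * (1 + Real.logb 2 (Real.logb 2 n)) +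
      640 * (Real.logb 2 S / Real.logb 2 n) := by
  have hn : 2 ≤ n := by
    by_contra h
    apply hst
    have hs := s.2
    have ht := t.2
    exact Fin.ext (by omega)
  have hS : 1 ≤ S := by
    have := N.source.2
    omega
  have hlam1 : 1 ≤ Nat.log 2 n := Nat.log_pos (by norm_num) hn
  have hL1 : (Nat.log 2 n : ℝ) ≤ Real.logb 2 n := log_le (by omega)
  have hL2 : Real.logb 2 n < Nat.log 2 n + 1 := lt_log (by omega)
  have hlamR : (1 : ℝ) ≤ (Nat.log 2 n : ℝ) := by exact_mod_cast hlam1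
  have hLpos : 1 ≤ Real.logb 2 n := le_trans hlamR hL1
  have hLL : 0 ≤ Real.logb 2 (Real.logb 2 n) := Real.logb_nonneg (by norm_num) hLpos
  have hSS : 0 ≤ Real.logb 2 S := Real.logb_nonneg (by norm_num) (by exact_mod_cast hS)
  have hkap : (Nat.clog 2 (Nat.log 2 n + 1) : ℝ) ≤ Real.logb 2 (Real.logb 2 n) + 1 := by
    refine le_trans (clog_le' hlam1) ?_
    have := Real.logb_le_logb_of_le (b := 2) (by norm_num) (lt_of_lt_of_le one_pos hlamR) hL1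
    linarith
  have hsig : (Nat.clog 2 (ρ + 1) : ℝ) ≤ Real.logb 2 (ρ + 1) + 1 := clog_le
  rcases params (ρ := ρ) hn with h | ⟨d, c, q, hd, hqp, hq1, hq2, hql, hqn, hρq, hlamq, hlam⟩
  · have h1 : 2 * (Nat.log 2 n : ℝ) ≤ (Nat.clog 2 (ρ + 1) : ℝ) +
        12 * (Nat.clog 2 (Nat.log 2 n + 1) : ℝ) + 110 := by exact_mod_cast h
    have h2 : 0 ≤ Real.logb 2 S / Real.logb 2 n := div_nonneg hSS (by linarith)
    linarith
  · have : Fact q.Prime := ⟨hqp⟩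
    set l := (2 * c + 1) * 2 ^ d with hl
    have hl1 : 1 ≤ l := Nat.mul_pos (by omega) (pow_pos (by norm_num) d)
    have hlq : l ≤ q := by
      refine le_trans ?_ hql
      calc l ≤ 9 * l := by omega
        _ = (9 * l) ^ 1 := (pow_one _).symm
        _ ≤ (9 * l) ^ 4 := Nat.pow_le_pow_right (by omega) (by norm_num)
    have hqn' : q ≤ n := by
      calc q = 1 * q := (one_mul q).symm
        _ ≤ l * q := Nat.mul_le_mul_right q hl1
        _ ≤ n := by omega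
    obtain ⟨pe, hpe, hbal⟩ := exists_balanced (c := c) (d := d) (q := q) (l := l) hq1 hq2 hl
    obtain ⟨F, hF, w, hw⟩ := exists_paths (m := d - 1) hlq
    have hlogq : Real.log q ≤ (Nat.log 2 n : ℝ) + 1 := by
      have h1 : Real.log q ≤ Real.log n :=
        Real.log_le_log (by exact_mod_cast hqp.pos) (by exact_mod_cast hqn')
      have h2 : Real.log n = Real.logb 2 n * Real.log 2 := by
        rw [Real.logb, div_mul_cancel₀ _ (ne_of_gt (Real.log_pos (by norm_num)))]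
      have h3 : Real.log 2 ≤ 1 := by
        have := Real.log_two_lt_d9
        linarith
      have h4 : Real.logb 2 n * Real.log 2 ≤ Real.logb 2 n * 1 :=
        mul_le_mul_of_nonneg_left h3 (by linarith)
      linarith
    have hρq' : 4000 * (ρ : ℝ) * (l : ℝ) ^ 3 * Real.log q ≤ (q : ℝ) ^ 2 := by
      have h1 : 4000 * (ρ : ℝ) * (l : ℝ) ^ 3 * ((Nat.log 2 n : ℝ) + 1) ≤ (q : ℝ) ^ 2 := by
        exact_mod_cast hρq
      refine le_trans (mul_le_mul_of_nonneg_left hlogq (by positivity)) h1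
    have hnb := net_bound (n := n) (d := d) (l := l) (q := q) (ρ := ρ) hd hl1 hql hqn hpe hbal hw
      hst N hN hav hρ hρq'
    rw [Fintype.card_fin] at hnb
    have hnb' : q ^ (d - 1) ≤ 16 * S ^ 4 * (9 * l + 1) ^ d := by exact_mod_cast hnb
    have hk : q ^ d ≤ S ^ 16 := key hd hl1 hql hnb'
    have h5 : 2 ^ (Nat.log 2 n * d) ≤ S ^ 32 := by
      calc 2 ^ (Nat.log 2 n * d) = (2 ^ Nat.log 2 n) ^ d := by rw [pow_mul]
        _ ≤ (q ^ 2) ^ d := Nat.pow_le_pow_left hlamq d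
        _ = (q ^ d) ^ 2 := by rw [← pow_mul, ← pow_mul, mul_comm]
        _ ≤ (S ^ 16) ^ 2 := Nat.pow_le_pow_left hk 2
        _ = S ^ 32 := by rw [← pow_mul]
    have h6 : ((Nat.log 2 n : ℝ) * d) ≤ 32 * Real.logb 2 S := by
      have h7 : ((Nat.log 2 n * d : ℕ) : ℝ) ≤ Real.logb 2 ((S : ℝ) ^ 32) := by
        rw [Real.le_logb_iff_rpow_le (by norm_num) (by positivity), Real.rpow_natCast]
        exact_mod_cast h5
      rw [Real.logb_pow] at h7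
      push_cast at h7
      linarith
    have h8 : (d : ℝ) ≤ 64 * (Real.logb 2 S / Real.logb 2 n) := by
      rw [← mul_div_assoc, le_div_iff₀ (by linarith)]
      have h9 : Real.logb 2 n ≤ 2 * (Nat.log 2 n : ℝ) := by linarith
      have h10 : (d : ℝ) * Real.logb 2 n ≤ d * (2 * (Nat.log 2 n : ℝ)) :=
        mul_le_mul_of_nonneg_left h9 (Nat.cast_nonneg d)
      linarith
    have h11 : 2 * (Nat.log 2 n : ℝ) ≤ (Nat.clog 2 (ρ + 1) : ℝ) +
        12 * (Nat.clog 2 (Nat.log 2 n + 1) : ℝ) + 50 + 10 * d := by exact_mod_cast hlam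
    linarith

end Pool.Agent.Lib.OWC
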