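import Pool.Agent.Lib.OWC.NetK
import Pool.Agent.Lib.OWC.Lower

/-!
# LowerK: the lower bound for one network with few negated variables on accepting walks
-/

namespace Pool.Agent.Lib.OWC

open Pool.Agent.Lib.Pe46137 LowerAux

/-- the arithmetic of the second alternative -/
theorem keyK {q l d S : ℕ} (hd : 6 ≤ d) (hl : 1 ≤ l) (hq : (9 * l) ^ 4 ≤ q)
    (h : q ^ (d - 1) ≤ 32 * S ^ 4 * (9 * l + 1) ^ d) : q ^ d ≤ S ^ 16 := by
  have hq12 : 2 ^ 12 ≤ q := by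
    refine le_trans ?_ hq
    calc 2 ^ 12 ≤ 9 ^ 4 := by norm_num
      _ ≤ (9 * l) ^ 4 := Nat.pow_le_pow_left (by omega) 4
  have hq0 : 0 < q := lt_of_lt_of_le (by norm_num) hq12
  have h1 : q ^ (4 * (d - 1)) ≤ 2 ^ 20 * S ^ 16 * (9 * l + 1) ^ (4 * d) := by
    calc q ^ (4 * (d - 1)) = (q ^ (d - 1)) ^ 4 := by rw [← pow_mul, mul_comm]
      _ ≤ (32 * S ^ 4 * (9 * l + 1) ^ d) ^ 4 := Nat.pow_le_pow_left h 4
      _ = 2 ^ 20 * S ^ 16 * (9 * l + 1) ^ (4 * d) := by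
        rw [mul_pow, mul_pow, ← pow_mul, ← pow_mul, mul_comm d 4]
        norm_num
  have h2 : (9 * l + 1) ^ (4 * d) ≤ 2 ^ (4 * d) * q ^ d := by
    calc (9 * l + 1) ^ (4 * d) ≤ (2 * (9 * l)) ^ (4 * d) := Nat.pow_le_pow_left (by omega) _
      _ = 2 ^ (4 * d) * ((9 * l) ^ 4) ^ d := by rw [mul_pow, ← pow_mul (9 * l)]
      _ ≤ 2 ^ (4 * d) * q ^ d := Nat.mul_le_mul_left _ (Nat.pow_le_pow_left hq d)
  have h3 : 2 ^ (20 + 4 * d) ≤ q ^ d := by
    calc 2 ^ (20 + 4 * d) ≤ 2 ^ (12 * d) := Nat.pow_le_pow_right (by norm_num) (by omega)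
      _ = (2 ^ 12) ^ d := by rw [pow_mul]
      _ ≤ q ^ d := Nat.pow_le_pow_left hq12 d
  have h4 : q ^ (2 * d - 4) * q ^ (2 * d) ≤ S ^ 16 * q ^ (2 * d) := by
    calc q ^ (2 * d - 4) * q ^ (2 * d) = q ^ (4 * (d - 1)) := by
          rw [← pow_add]; congr 1; omega
      _ ≤ 2 ^ 20 * S ^ 16 * (9 * l + 1) ^ (4 * d) := h1
      _ ≤ 2 ^ 20 * S ^ 16 * (2 ^ (4 * d) * q ^ d) := Nat.mul_le_mul_left _ h2
      _ = S ^ 16 * (2 ^ (20 + 4 * d) * q ^ d) := by rw [pow_add]; ring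
      _ ≤ S ^ 16 * (q ^ d * q ^ d) :=
          Nat.mul_le_mul_left _ (Nat.mul_le_mul_right _ h3)
      _ = S ^ 16 * q ^ (2 * d) := by rw [two_mul, pow_add]
  have h5 : q ^ (2 * d - 4) ≤ S ^ 16 := Nat.le_of_mul_le_mul_right h4 (pow_pos hq0 _)
  exact le_trans (Nat.pow_le_pow_right hq0 (by omega)) h5

/-- the two alternatives for a grid on `n'` points -/
theorem lowerK_aux {n n' k ρ S B : ℕ} {s t : Fin n} (hst : s ≠ t) (M : Set (Fin n × Fin n))
    (X : Finset (Fin n)) (hXM : ∀ u ∈ X, ∀ v ∈ X, u ≠ v → (u, v) ∈ M)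
    (hX : 2 * B * n' + 2 ≤ X.card) (hB : 0 < B) (hkB : 4 * k ≤ B ^ 2) (hn : 2 ≤ n')
    (N : Network (Fin n × Fin n) (Fin S)) (hN : N.Decides {G | Acyclic G} s t M k)
    (hρ : {p : Fin S × Fin S | N.OneWay p.1 p.2}.ncard ≤ ρ) :
    ∃ e : ℝ, 0 ≤ e ∧ e * Nat.log 2 n' ≤ 32 * Real.logb 2 S ∧
      2 * (Nat.log 2 n' : ℝ) ≤ (Nat.clog 2 (2 * ρ + 1) : ℝ) +
        12 * (Nat.clog 2 (Nat.log 2 n' + 1) : ℝ) + 110 + 10 * e := by
  have hS : 1 ≤ S := by
    have := N.source.2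
    omega
  have hSS : 0 ≤ Real.logb 2 S := Real.logb_nonneg (by norm_num) (by exact_mod_cast hS)
  rcases params (ρ := 2 * ρ) hn with h |
    ⟨d, c, q, hd, hqp, hq1, hq2, hql, hqn, hρq, hlamq, hlam⟩
  · refine ⟨0, le_rfl, by simpa using hSS, ?_⟩
    have h1 : 2 * (Nat.log 2 n' : ℝ) ≤ (Nat.clog 2 (2 * ρ + 1) : ℝ) +
        12 * (Nat.clog 2 (Nat.log 2 n' + 1) : ℝ) + 110 := by exact_mod_cast h
    linarith
  · have : Fact q.Prime := ⟨hqp⟩
    set l := (2 * c + 1) * 2 ^ d with hl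
    have hl1 : 1 ≤ l := Nat.mul_pos (by omega) (pow_pos (by norm_num) d)
    have hlq : l ≤ q := by
      refine le_trans ?_ hql
      calc l ≤ 9 * l := by omega
        _ = (9 * l) ^ 1 := (pow_one _).symm
        _ ≤ (9 * l) ^ 4 := Nat.pow_le_pow_right (by omega) (by norm_num)
    have hqn' : q ≤ n' := by
      calc q = 1 * q := (one_mul q).symm
        _ ≤ l * q := Nat.mul_le_mul_right q hl1
        _ ≤ n' := by omega
    obtain ⟨pe, hpe, hbal⟩ := exists_balanced (c := c) (d := d) (q := q) (l := l) hq1 hq2 hl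
    obtain ⟨F, hF, w, hw⟩ := exists_paths (m := d - 1) hlq
    have hL2 : Real.logb 2 n' < Nat.log 2 n' + 1 := lt_log (by omega)
    have hL1 : (Nat.log 2 n' : ℝ) ≤ Real.logb 2 n' := log_le (by omega)
    have hL0 : (0 : ℝ) ≤ Nat.log 2 n' := Nat.cast_nonneg _
    have hlogq : Real.log q ≤ (Nat.log 2 n' : ℝ) + 1 := by
      have h1 : Real.log q ≤ Real.log n' :=
        Real.log_le_log (by exact_mod_cast hqp.pos) (by exact_mod_cast hqn')
      have h2 : Real.log n' = Real.logb 2 n' * Real.log 2 := by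
        rw [Real.logb, div_mul_cancel₀ _ (ne_of_gt (Real.log_pos (by norm_num)))]
      have h3 : Real.log 2 ≤ 1 := by
        have := Real.log_two_lt_d9
        linarith
      have h4 : Real.logb 2 n' * Real.log 2 ≤ Real.logb 2 n' * 1 :=
        mul_le_mul_of_nonneg_left h3 (by linarith)
      linarith
    have hρq' : 8000 * (ρ : ℝ) * (l : ℝ) ^ 3 * Real.log q ≤ (q : ℝ) ^ 2 := by
      have h1 : 4000 * (2 * (ρ : ℝ)) * (l : ℝ) ^ 3 * ((Nat.log 2 n' : ℝ) + 1) ≤ (q : ℝ) ^ 2 := by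
        exact_mod_cast hρq
      refine le_trans (mul_le_mul_of_nonneg_left hlogq (by positivity)) ?_
      linarith
    have hXq : 2 * B * (l * q + 2) + 2 ≤ X.card :=
      le_trans (Nat.add_le_add_right (Nat.mul_le_mul_left _ hqn) 2) hX
    have hnb := net_boundK (d := d) (l := l) (q := q) (ρ := ρ) hd hl1 hql hpe hbal hw
      hst M X hXM hXq hB hkB N hN hρ hρq'
    rw [Fintype.card_fin] at hnb
    have hnb' : q ^ (d - 1) ≤ 32 * S ^ 4 * (9 * l + 1) ^ d := by exact_mod_cast hnb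
    have hk : q ^ d ≤ S ^ 16 := keyK hd hl1 hql hnb'
    have h5 : 2 ^ (Nat.log 2 n' * d) ≤ S ^ 32 := by
      calc 2 ^ (Nat.log 2 n' * d) = (2 ^ Nat.log 2 n') ^ d := by rw [pow_mul]
        _ ≤ (q ^ 2) ^ d := Nat.pow_le_pow_left hlamq d
        _ = (q ^ d) ^ 2 := by rw [← pow_mul, ← pow_mul, mul_comm]
        _ ≤ (S ^ 16) ^ 2 := Nat.pow_le_pow_left hk 2
        _ = S ^ 32 := by rw [← pow_mul]
    refine ⟨d, Nat.cast_nonneg _, ?_, ?_⟩
    · have h7 : ((Nat.log 2 n' * d : ℕ) : ℝ) ≤ Real.logb 2 ((S : ℝ) ^ 32) := by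
        rw [Real.le_logb_iff_rpow_le (by norm_num) (by positivity), Real.rpow_natCast]
        exact_mod_cast h5
      rw [Real.logb_pow] at h7
      push_cast at h7
      linarith
    · have h11 : 2 * (Nat.log 2 n' : ℝ) ≤ (Nat.clog 2 (2 * ρ + 1) : ℝ) +
          12 * (Nat.clog 2 (Nat.log 2 n' + 1) : ℝ) + 50 + 10 * d := by exact_mod_cast hlam
      linarith

theorem lowerK {n k ρ S : ℕ} {s t : Fin n} (hst : s ≠ t) (M : Set (Fin n × Fin n))
    (X : Finset (Fin n)) (hXM : ∀ u ∈ X, ∀ v ∈ X, u ≠ v → (u, v) ∈ M) (hkX : k + 1 ≤ X.card ^ 2)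
    (N : Network (Fin n × Fin n) (Fin S)) (hN : N.Decides {G | Acyclic G} s t M k)
    (hρ : {p : Fin S × Fin S | N.OneWay p.1 p.2}.ncard ≤ ρ) :
    Real.logb 2 ((X.card : ℝ) ^ 2 / (k + 1)) *
      (Real.logb 2 ((X.card : ℝ) ^ 2 / ((k + 1) * (ρ + 1))) -
        1280 * (1 + Real.logb 2 (Real.logb 2 n))) ≤ 1280 * Real.logb 2 S := by
  have h2 : (1 : ℝ) < 2 := by norm_num
  have hn : 2 ≤ n := by
    by_contra h
    apply hst
    have hs := s.2
    have ht := t.2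
    exact Fin.ext (by omega)
  have hS : 1 ≤ S := by
    have := N.source.2
    omega
  have hSS : 0 ≤ Real.logb 2 S := Real.logb_nonneg h2 (by exact_mod_cast hS)
  have hlam1 : 1 ≤ Nat.log 2 n := Nat.log_pos (by norm_num) hn
  have hL1 : (Nat.log 2 n : ℝ) ≤ Real.logb 2 n := log_le (by omega)
  have hlamR : (1 : ℝ) ≤ (Nat.log 2 n : ℝ) := by exact_mod_cast hlam1
  have hLpos : 1 ≤ Real.logb 2 n := le_trans hlamR hL1
  have hLL : 0 ≤ Real.logb 2 (Real.logb 2 n) := Real.logb_nonneg h2 hLpos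
  set x := X.card with hx
  have hx1 : 1 ≤ x := by
    by_contra h
    have : x = 0 := by omega
    rw [this] at hkX
    omega
  have hx1' : (1 : ℝ) ≤ x := by exact_mod_cast hx1
  have hk0 : (0 : ℝ) < (k : ℝ) + 1 := by positivity
  have hρ0 : (1 : ℝ) ≤ (ρ : ℝ) + 1 := by
    have : (0 : ℝ) ≤ ρ := Nat.cast_nonneg _
    linarith
  set Y := (x : ℝ) ^ 2 / (k + 1) with hY
  have hY1 : 1 ≤ Y := by
    rw [hY, le_div_iff₀ hk0, one_mul]
    exact_mod_cast hkX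
  have hlY : 0 ≤ Real.logb 2 Y := Real.logb_nonneg h2 hY1
  have hlρ : 0 ≤ Real.logb 2 ((ρ : ℝ) + 1) := Real.logb_nonneg h2 hρ0
  have hsplit : Real.logb 2 ((x : ℝ) ^ 2 / ((k + 1) * (ρ + 1))) =
      Real.logb 2 Y - Real.logb 2 ((ρ : ℝ) + 1) := by
    rw [← div_div, Real.logb_div (by positivity) (by positivity)]
  rw [hsplit]
  set D := Real.logb 2 Y - Real.logb 2 ((ρ : ℝ) + 1) -
    1280 * (1 + Real.logb 2 (Real.logb 2 n)) with hD
  rcases le_or_gt D 0 with hD0 | hD0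
  · have : Real.logb 2 Y * D ≤ 0 := mul_nonpos_of_nonneg_of_nonpos hlY hD0
    linarith
  -- the parameters
  have hbig : 1280 < Real.logb 2 Y := by
    rw [hD] at hD0
    linarith
  set a := Nat.sqrt k + 1 with ha
  set B := 2 * a with hB
  have ha1 : 1 ≤ a := by omega
  have hka : k < a ^ 2 := by rw [sq]; exact Nat.lt_succ_sqrt k
  have hak : a ^ 2 ≤ 2 * (k + 1) := by
    have h1 : Nat.sqrt k * Nat.sqrt k ≤ k := Nat.sqrt_le k
    rw [ha]
    nlinarith [sq_nonneg ((Nat.sqrt k : ℤ) - 1)]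
  have hkB : 4 * k ≤ B ^ 2 := by
    rw [hB, mul_pow]
    omega
  have hB8 : B ^ 2 ≤ 8 * (k + 1) := by
    rw [hB, mul_pow]
    omega
  have hB0 : 0 < B := by omega
  set n' := (x - 2) / (2 * B) with hn'
  have hx2 : x < 2 * B * (n' + 2) := by
    have h1 : x - 2 < 2 * B * (n' + 1) := Nat.lt_mul_div_succ _ (by omega)
    have h3 : 2 * B * (n' + 2) = 2 * B * (n' + 1) + 2 * B := by ring
    omega
  have hYn : Y ≤ 32 * ((n' : ℝ) + 2) ^ 2 := by
    rw [hY, div_le_iff₀ hk0]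
    have h1 : (x : ℝ) ≤ 2 * B * (n' + 2) := by exact_mod_cast hx2.le
    have h3 : (B : ℝ) ^ 2 ≤ 8 * (k + 1) := by exact_mod_cast hB8
    calc (x : ℝ) ^ 2 ≤ (2 * B * (n' + 2)) ^ 2 := by gcongr
      _ = 4 * ((n' : ℝ) + 2) ^ 2 * B ^ 2 := by ring
      _ ≤ 4 * ((n' : ℝ) + 2) ^ 2 * (8 * (k + 1)) := by gcongr
      _ = 32 * ((n' : ℝ) + 2) ^ 2 * (k + 1) := by ring
  have hn2 : 2 ≤ n' := by
    by_contra hc
    have h1 : n' ≤ 1 := by omega
    have h3 : (n' : ℝ) ≤ 1 := by exact_mod_cast h1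
    have h4 : (0 : ℝ) ≤ n' := Nat.cast_nonneg _
    have h5 : Y ≤ 2 ^ (9 : ℕ) := by
      refine le_trans hYn ?_
      have : ((n' : ℝ) + 2) ^ 2 ≤ 3 ^ 2 := by gcongr; linarith
      norm_num
      linarith
    have h6 : Real.logb 2 Y ≤ 9 := by
      have := Real.logb_le_logb_of_le h2 (by linarith) h5
      rwa [Real.logb_pow, Real.logb_self_eq_one h2, mul_one] at this
    linarith
  have hlen : x - 2 ≥ 2 * B * n' := Nat.mul_div_le _ _
  have hx2' : 2 * B * n' + 2 ≤ x := by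
    have h1 : 1 ≤ 2 * B * n' := Nat.mul_pos (by omega) (by omega)
    omega
  have hn'n : n' ≤ n := by
    have h1 : x ≤ n := by
      have := X.card_le_univ
      rwa [Fintype.card_fin] at this
    have h3 : n' ≤ x - 2 := Nat.div_le_self _ _
    omega
  obtain ⟨e, he0, he1, he2⟩ := lowerK_aux hst M X hXM hx2' hB0 hkB hn2 N hN hρ
  -- logarithms
  have hlam' : 1 ≤ Nat.log 2 n' := Nat.log_pos (by norm_num) hn2
  have hlamR' : (1 : ℝ) ≤ (Nat.log 2 n' : ℝ) := by exact_mod_cast hlam'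
  have hL1' : (Nat.log 2 n' : ℝ) ≤ Real.logb 2 n' := log_le (by omega)
  have hL2' : Real.logb 2 n' < Nat.log 2 n' + 1 := lt_log (by omega)
  have hn'R : (2 : ℝ) ≤ n' := by exact_mod_cast hn2
  have hY2 : Real.logb 2 Y ≤ 2 * (Nat.log 2 n' : ℝ) + 9 := by
    have h1 : Y ≤ 128 * (n' : ℝ) ^ 2 := by
      refine le_trans hYn ?_
      have : ((n' : ℝ) + 2) ^ 2 ≤ (2 * n') ^ 2 := by gcongr; linarith
      nlinarith
    have h3 := Real.logb_le_logb_of_le h2 (by linarith) h1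
    rw [Real.logb_mul (by norm_num) (by positivity), Real.logb_pow] at h3
    have h4 : Real.logb 2 128 = 7 := by
      rw [show (128 : ℝ) = 2 ^ (7 : ℕ) by norm_num, Real.logb_pow, Real.logb_self_eq_one h2]
      norm_num
    rw [h4] at h3
    push_cast at h3
    linarith
  have hkap : (Nat.clog 2 (Nat.log 2 n' + 1) : ℝ) ≤ Real.logb 2 (Real.logb 2 n) + 1 := by
    refine le_trans (clog_le' hlam') ?_
    have h1 : Real.logb 2 n' ≤ Real.logb 2 n :=
      Real.logb_le_logb_of_le h2 (by linarith) (by exact_mod_cast hn'n)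
    have := Real.logb_le_logb_of_le (b := 2) h2 (lt_of_lt_of_le one_pos hlamR') (hL1'.trans h1)
    linarith
  have hsig : (Nat.clog 2 (2 * ρ + 1) : ℝ) ≤ Real.logb 2 ((ρ : ℝ) + 1) + 2 := by
    have h1 := clog_le (m := 2 * ρ)
    push_cast at h1
    have h3 : Real.logb 2 (2 * (ρ : ℝ) + 1) ≤ Real.logb 2 (2 * (ρ + 1)) :=
      Real.logb_le_logb_of_le h2 (by positivity) (by linarith)
    rw [Real.logb_mul (by norm_num) (by positivity), Real.logb_self_eq_one h2] at h3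
    linarith
  have hDe : D ≤ 10 * e := by
    rw [hD]
    linarith
  have hY4 : Real.logb 2 Y ≤ 4 * (Nat.log 2 n' : ℝ) := by linarith
  calc Real.logb 2 Y * D ≤ (4 * (Nat.log 2 n' : ℝ)) * (10 * e) :=
        mul_le_mul hY4 hDe hD0.le (by linarith)
    _ = 40 * (e * (Nat.log 2 n' : ℝ)) := by ring
    _ ≤ 40 * (32 * Real.logb 2 S) := by gcongr
    _ = 1280 * Real.logb 2 S := by ring

end Pool.Agent.Lib.OWC
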