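import Pool.Agent.Lib.OWC.Defs
import Pool.Agent.Lib.Pe46137.Network

/-!
# Savitch: doing without one-way pairs

`Comp M D f m` of `Pe46137/Network.lean`: `f` is computed on the inputs in `D` by a symmetric switching
network with at most `m` states that avoids the negations of `M`; `comp_exists`, `Comp.and`, `Comp.or`,
`Comp.mono`, `Comp.congr` are there.

Given `N` (set of states `Fin S`), let `X` be the set of the source, the sink and the end points of the
one-way pairs, `|X| ≤ 2 ρ + 2`.  For states `u, v` let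
`T 0 u v G ↔ N.Closed G u v ∨ EqvGen (two-way contacts closed on G) u v`, where the two-way contacts are
`wire u v ∧ wire v u`, `pos e u v ∧ pos e v u`, `neg e u v ∧ neg e v u`, and
`T (j + 1) u v G ↔ ∃ r ∈ X, T j u r G ∧ T j r v G`.
* `Comp M D (T 0 u v) (S + 2)`: the two-way contacts form a switching network on `Fin S` with source `u`
  and sink `v`; `N.Closed G u v` is computed by a network on `Bool` whose contacts between `true` and
  `false` are the contacts of `N` from `u` to `v`.  `Comp.or`.
* `Comp M D (T j u v) ((4 ρ + 5) ^ j * (S + 2))` by induction (`comp_exists X`, `Comp.and`;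
  `|X| * (m + m) + 2 ≤ (2 |X| + 1) m` for `2 ≤ m`), compare `comp_lev`, `size_le` in `Pe46137/Price.lean`.
* If `2 ρ + 2 ≤ 2 ^ j`: `T j source sink G ↔ N.Accepts G`.  Right: `T j u v G` implies
  `ReflTransGen (N.Closed G) u v` (a two-way contact may be passed both ways).  Left: induction along the
  walk shows that for every state `v` reachable from the source there is `u ∈ X` with a chain
  source = `u_0, u_1, …, u_k = u` in `X`, `T 0 u_i u_(i+1) G`, and `EqvGen (two-way) u v`: a contact
  `v → v'` which is not one-way is two-way (`¬ OneWay v v'` gives the same label from `v'` to `v`),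
  otherwise `v, v' ∈ X` and the chain gets the steps `u, v` (`EqvGen`) and `v, v'` (`Closed`).  Shorten the
  chain to at most `|X| - 1` steps and use `T` doubling: copy `HopChain`, `short_chain`, `lev_of_chain` of
  `Pe46137/Price.lean`, which do not use the nature of the relation `hop` (chain for an arbitrary
  relation).  Use `j = Nat.clog 2 (2 ρ + 2)` (`Nat.le_pow_clog`).

`to_network`: from a switching network `N'` on `W` (`Fintype`) to a `Network` on `Fin m`,
`m = card W ≤ k`, by an equivalence and symmetrisation (`wire v w := N'.wire v w ∨ N'.wire w v`, etc.): no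
pair is one-way, `ReflTransGen` of a symmetric relation is `EqvGen`.
-/

namespace Pool.Agent.Lib.OWC

open Finset Pool.Agent.Lib.Pe46137

namespace SavitchAux

section chain

variable {W : Type*}

/-- a chain of `k` steps of `r` through `X` -/
def Chain (X : Finset W) (r : W → W → Prop) (k : ℕ) (u v : W) : Prop :=
  ∃ p : ℕ → W, p 0 = u ∧ p k = v ∧ (∀ i ≤ k, p i ∈ X) ∧ ∀ i < k, r (p i) (p (i + 1))

/-- reachability by at most `2 ^ j` steps -/
def lv (X : Finset W) (r : W → W → Prop) : ℕ → W → W → Prop
  | 0, u, v => r u v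
  | j + 1, u, v => ∃ w ∈ X, lv X r j u w ∧ lv X r j w v

/-- the number of states -/
def sz (x y : ℕ) : ℕ → ℕ
  | 0 => y
  | j + 1 => x * (sz x y j + sz x y j) + 2

theorem sz_le {x y : ℕ} (hy : 2 ≤ y) (j : ℕ) : sz x y j ≤ (2 * x + 1) ^ j * y := by
  have h2 : ∀ j, 2 ≤ sz x y j := by
    intro j
    cases j with
    | zero => exact hy
    | succ j => simp only [sz]; omega
  induction j with
  | zero => simp [sz]
  | succ j ih =>
    simp only [sz]
    calc x * (sz x y j + sz x y j) + 2 ≤ x * (sz x y j + sz x y j) + sz x y j := by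
          have := h2 j
          omega
      _ = (2 * x + 1) * sz x y j := by ring
      _ ≤ (2 * x + 1) * ((2 * x + 1) ^ j * y) := Nat.mul_le_mul_left _ ih
      _ = (2 * x + 1) ^ (j + 1) * y := by ring

theorem lv_of_chain {X : Finset W} {r : W → W → Prop} (hr : ∀ u, r u u) :
    ∀ (j k : ℕ) {u v : W}, k ≤ 2 ^ j → Chain X r k u v → lv X r j u v := by
  intro j
  induction j with
  | zero =>
    rintro k u v hk ⟨p, h0, h1, _, h3⟩
    rcases Nat.eq_zero_or_pos k with h | h
    · subst h
      have : u = v := h0.symm.trans h1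
      subst this
      exact hr _
    · have : k = 1 := by simp at hk; omega
      subst this
      have := h3 0 one_pos
      rw [h0] at this
      rw [← h1]; exact this
  | succ j ih =>
    rintro k u v hk ⟨p, h0, h1, h2, h3⟩
    have hk2 : k ≤ 2 * 2 ^ j := by rwa [← pow_succ']
    refine ⟨p (min k (2 ^ j)), h2 _ (min_le_left _ _), ?_, ?_⟩
    · refine ih (min k (2 ^ j)) (min_le_right _ _) ⟨p, h0, rfl, fun i hi => h2 i ?_,
        fun i hi => h3 i ?_⟩
      · exact le_trans hi (min_le_left _ _)
      · exact lt_of_lt_of_le hi (min_le_left _ _)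
    · refine ih (k - min k (2 ^ j)) (by omega) ⟨fun i => p (min k (2 ^ j) + i), by simp,
        ?_, fun i hi => h2 _ (by omega), fun i hi => ?_⟩
      · simp only
        rw [← h1]; congr 1; omega
      · exact h3 _ (by omega)

theorem short_chain {X : Finset W} {r : W → W → Prop} {u v : W} (k : ℕ)
    (h : Chain X r k u v) : ∃ k', k' + 1 ≤ X.card ∧ Chain X r k' u v := by
  classical
  have hex : ∃ k, Chain X r k u v := ⟨k, h⟩
  obtain ⟨p, h0, h1, h2, h3⟩ := Nat.find_spec hex
  set m := Nat.find hex with hm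
  refine ⟨m, ?_, p, h0, h1, h2, h3⟩
  by_contra hc
  push Not at hc
  -- two equal vertices
  obtain ⟨i, hi, j, hj, hij, hpp⟩ := exists_ne_map_eq_of_card_lt_of_maps_to
    (s := range (m + 1)) (t := X) (f := p) (by rw [card_range]; omega)
    (fun i hi => by
      have := mem_range.mp (Finset.mem_coe.mp hi)
      exact h2 i (by omega))
  have hi' := mem_range.mp hi
  have hj' := mem_range.mp hj
  have key : ∀ i j, i < j → j ≤ m → p i = p j → False := by
    intro i j hij hjm hpp
    have hlt : m - (j - i) < m := by omega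
    refine Nat.find_min hex hlt ⟨fun r => if r ≤ i then p r else p (r + (j - i)), ?_, ?_, ?_, ?_⟩
    · simp [h0]
    · simp only
      split_ifs with h
      · have : j = m := by omega
        have hri : m - (j - i) = i := by omega
        rw [hri, hpp, this, h1]
      · rw [Nat.sub_add_cancel (by omega), h1]
    · intro r hr
      simp only
      split_ifs with h
      · exact h2 r (by omega)
      · exact h2 _ (by omega)
    · intro r hr
      simp only
      by_cases hri : r < i
      · rw [if_pos (by omega), if_pos (by omega)]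
        exact h3 r (by omega)
      · by_cases hri' : r = i
        · rw [if_pos (by omega), if_neg (by omega), hri', hpp]
          have : i + 1 + (j - i) = j + 1 := by omega
          rw [this]
          exact h3 j (by omega)
        · rw [if_neg (by omega), if_neg (by omega)]
          have : r + 1 + (j - i) = r + (j - i) + 1 := by omega
          rw [this]
          exact h3 _ (by omega)
  rcases lt_or_gt_of_ne hij with h | h
  · exact key i j h (by omega) hpp
  · exact key j i h (by omega) hpp.symm

theorem Chain.ext {X : Finset W} {r : W → W → Prop} {k : ℕ} {u w v : W} (h : Chain X r k u w)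
    (hv : v ∈ X) (hh : r w v) : Chain X r (k + 1) u v := by
  obtain ⟨p, h0, h1, h2, h3⟩ := h
  refine ⟨fun i => if i ≤ k then p i else v, by simp [h0], by simp, ?_, ?_⟩
  · intro i _
    simp only
    split_ifs with h
    · exact h2 i h
    · exact hv
  · intro i hi
    simp only
    by_cases hik : i < k
    · rw [if_pos (by omega), if_pos (by omega)]
      exact h3 i hik
    · have : i = k := by omega
      rw [if_pos (by omega), if_neg (by omega), this, h1]
      exact hh

end chain

variable {E : Type} {S : ℕ}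

/-- two-way contacts closed on `G` -/
def tw (N : Network E (Fin S)) (G : Set E) (u v : Fin S) : Prop :=
  (N.wire u v ∧ N.wire v u) ∨ (∃ e ∈ G, N.pos e u v ∧ N.pos e v u) ∨
    ∃ e ∈ Gᶜ, N.neg e u v ∧ N.neg e v u

/-- one step -/
def hp (N : Network E (Fin S)) (G : Set E) (u v : Fin S) : Prop :=
  N.Closed G u v ∨ Relation.EqvGen (tw N G) u v

theorem tw_closed {N : Network E (Fin S)} {G : Set E} {u v : Fin S} (h : tw N G u v) :
    N.Closed G u v ∧ N.Closed G v u := by
  rcases h with h | ⟨e, he, h⟩ | ⟨e, he, h⟩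
  · exact ⟨Or.inl h.1, Or.inl h.2⟩
  · exact ⟨Or.inr (Or.inl ⟨e, he, h.1⟩), Or.inr (Or.inl ⟨e, he, h.2⟩)⟩
  · exact ⟨Or.inr (Or.inr ⟨e, he, h.1⟩), Or.inr (Or.inr ⟨e, he, h.2⟩)⟩

theorem eqv_tw {N : Network E (Fin S)} {G : Set E} {u v : Fin S} (h : Relation.EqvGen (tw N G) u v) :
    Relation.ReflTransGen (N.Closed G) u v ∧ Relation.ReflTransGen (N.Closed G) v u := by
  induction h with
  | rel x y h => exact ⟨Relation.ReflTransGen.single (tw_closed h).1,
      Relation.ReflTransGen.single (tw_closed h).2⟩
  | refl x => exact ⟨Relation.ReflTransGen.refl, Relation.ReflTransGen.refl⟩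
  | symm x y _ ih => exact ⟨ih.2, ih.1⟩
  | trans x y z _ _ ih1 ih2 => exact ⟨ih1.1.trans ih2.1, ih2.2.trans ih1.2⟩

theorem lv_sound {N : Network E (Fin S)} {G : Set E} {X : Finset (Fin S)} :
    ∀ (j : ℕ) {u v : Fin S}, lv X (hp N G) j u v → Relation.ReflTransGen (N.Closed G) u v := by
  intro j
  induction j with
  | zero =>
    rintro u v (h | h)
    · exact Relation.ReflTransGen.single h
    · exact (eqv_tw h).1
  | succ j ih =>
    rintro u v ⟨w, _, h1, h2⟩
    exact (ih h1).trans (ih h2)

theorem tw_of_not_oneWay {N : Network E (Fin S)} {G : Set E} {u v : Fin S} (h : N.Closed G u v)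
    (h' : ¬ N.OneWay u v) : tw N G u v := by
  unfold Network.OneWay at h'
  push Not at h'
  obtain ⟨a1, a2, a3⟩ := h'
  rcases h with h | ⟨e, he, h⟩ | ⟨e, he, h⟩
  · exact Or.inl ⟨h, a1 h⟩
  · exact Or.inr (Or.inl ⟨e, he, h, a2 e h⟩)
  · exact Or.inr (Or.inr ⟨e, he, h, a3 e h⟩)

theorem chain_of_reachable {N : Network E (Fin S)} {G : Set E} {X : Finset (Fin S)}
    (hs : N.source ∈ X) (hX : ∀ u v, N.OneWay u v → u ∈ X ∧ v ∈ X) {v : Fin S}
    (h : Relation.ReflTransGen (N.Closed G) N.source v) :
    ∃ k, ∃ u ∈ X, Chain X (hp N G) k N.source u ∧ Relation.EqvGen (tw N G) u v := by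
  induction h with
  | refl => exact ⟨0, N.source, hs, ⟨fun _ => N.source, rfl, rfl, fun _ _ => hs,
      fun i hi => by omega⟩, Relation.EqvGen.refl _⟩
  | @tail b c _ hbc ih =>
    obtain ⟨k, u, hu, hk, huv⟩ := ih
    by_cases how : N.OneWay b c
    · obtain ⟨hb, hc⟩ := hX b c how
      exact ⟨k + 1 + 1, c, hc, (hk.ext hb (Or.inr huv)).ext hc (Or.inl hbc), Relation.EqvGen.refl _⟩
    · exact ⟨k, u, hu, hk, huv.trans _ _ _ (Relation.EqvGen.rel _ _ (tw_of_not_oneWay hbc how))⟩

theorem lv_iff {N : Network E (Fin S)} {G : Set E} {X : Finset (Fin S)}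
    (hs : N.source ∈ X) (ht : N.sink ∈ X) (hX : ∀ u v, N.OneWay u v → u ∈ X ∧ v ∈ X) {j : ℕ}
    (hj : X.card ≤ 2 ^ j) : lv X (hp N G) j N.source N.sink ↔ N.Accepts G := by
  refine ⟨lv_sound j, fun h => ?_⟩
  obtain ⟨k, u, hu, hk, huv⟩ := chain_of_reachable hs hX h
  obtain ⟨k', h1, h2⟩ := short_chain (k + 1) (hk.ext ht (Or.inr huv))
  exact lv_of_chain (r := hp N G) (fun u => (Or.inr (Relation.EqvGen.refl u) : hp N G u u)) j k'
    (by omega) h2

theorem comp_tw {N : Network E (Fin S)} {M : Set E} (hM : N.Avoids M) (D : Set (Set E))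
    (u v : Fin S) : Comp M D (fun G => Relation.EqvGen (tw N G) u v) S := by
  refine ⟨Fin S, inferInstance, ⟨u, v, fun x y => N.wire x y ∧ N.wire y x,
    fun e x y => N.pos e x y ∧ N.pos e y x, fun e x y => N.neg e x y ∧ N.neg e y x⟩,
    by rw [Fintype.card_fin], ?_, fun G _ => Iff.rfl⟩
  intro e he x y h
  exact hM e he x y h.1

theorem comp_closed {N : Network E (Fin S)} {M : Set E} (hM : N.Avoids M) (D : Set (Set E))
    (u v : Fin S) : Comp M D (fun G => N.Closed G u v) 2 := by
  refine ⟨Bool, inferInstance, ⟨true, false, fun _ _ => N.wire u v,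
    fun e _ _ => N.pos e u v, fun e _ _ => N.neg e u v⟩,
    by simp, ?_, fun G _ => ⟨fun h => ?_, fun h => ?_⟩⟩
  · intro e he x y h
    exact hM e he u v h
  · by_contra hc
    have := eqv_closed (r := SwitchingNetwork.Closed _ G Gᶜ) {true} (by
      intro x y h
      exact absurd h hc) h
    simp at this
  · exact Relation.EqvGen.rel _ _ h

theorem comp_lv {N : Network E (Fin S)} {M : Set E} (hM : N.Avoids M) (D : Set (Set E))
    (X : Finset (Fin S)) (j : ℕ) :
    ∀ u v, Comp M D (fun G => lv X (hp N G) j u v) (sz X.card (S + 2) j) := by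
  induction j with
  | zero =>
    intro u v
    refine (((comp_closed hM D u v).or (comp_tw hM D u v)).mono ?_).congr fun G _ => Iff.rfl
    simp only [sz]
    omega
  | succ j ih =>
    intro u v
    exact (comp_exists X (f := fun w G => lv X (hp N G) j u w ∧ lv X (hp N G) j w v)
      fun w _ => (ih u w).and (ih w v))

end SavitchAux

open SavitchAux

theorem savitch {E : Type} {S ρ : ℕ} (N : Network E (Fin S)) (M : Set E) (hM : N.Avoids M)
    (hρ : {p : Fin S × Fin S | N.OneWay p.1 p.2}.ncard ≤ ρ) (D : Set (Set E)) :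
    Comp M D (fun G => N.Accepts G)
      ((4 * ρ + 5) ^ Nat.clog 2 (2 * ρ + 2) * (S + 2)) := by
  classical
  set O : Finset (Fin S × Fin S) := univ.filter (fun p => N.OneWay p.1 p.2) with hO
  have hOc : O.card ≤ ρ := by
    have : {p : Fin S × Fin S | N.OneWay p.1 p.2} = (O : Set (Fin S × Fin S)) := by
      ext p
      simp [hO]
    rw [this, Set.ncard_coe_finset] at hρ
    exact hρ
  set X : Finset (Fin S) := {N.source, N.sink} ∪ (O.image Prod.fst ∪ O.image Prod.snd) with hX
  have hXc : X.card ≤ 2 * ρ + 2 := by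
    have h1 : X.card ≤ ({N.source, N.sink} : Finset (Fin S)).card +
        (O.image Prod.fst ∪ O.image Prod.snd).card := card_union_le _ _
    have h2 := card_union_le (O.image Prod.fst) (O.image Prod.snd)
    have h3 : ({N.source, N.sink} : Finset (Fin S)).card ≤ 2 := card_le_two
    have h4 : (O.image Prod.fst).card ≤ O.card := card_image_le
    have h5 : (O.image Prod.snd).card ≤ O.card := card_image_le
    omega
  have hs : N.source ∈ X := by simp [hX]
  have ht : N.sink ∈ X := by simp [hX]
  have hXO : ∀ u v, N.OneWay u v → u ∈ X ∧ v ∈ X := by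
    intro u v h
    have hm : (u, v) ∈ O := mem_filter.2 ⟨mem_univ _, h⟩
    refine ⟨mem_union_right _ (mem_union_left _ (mem_image.2 ⟨_, hm, rfl⟩)),
      mem_union_right _ (mem_union_right _ (mem_image.2 ⟨_, hm, rfl⟩))⟩
  set j := Nat.clog 2 (2 * ρ + 2) with hj
  have hj2 : 2 * ρ + 2 ≤ 2 ^ j := Nat.le_pow_clog (by norm_num) _
  refine ((comp_lv hM D X j N.source N.sink).mono ?_).congr fun G _ => lv_iff hs ht hXO (hXc.trans hj2)
  refine (sz_le (by omega) j).trans ?_
  refine Nat.mul_le_mul_right _ (Nat.pow_le_pow_left ?_ j)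
  omega

theorem to_network {E : Type} {M : Set E} {D : Set (Set E)} {f : Set E → Prop} {k : ℕ}
    (h : Comp M D f k) : ∃ m ≤ k, ∃ N : Network E (Fin m), (∀ G ∈ D, (N.Accepts G ↔ f G)) ∧
      N.Avoids M ∧ {p : Fin m × Fin m | N.OneWay p.1 p.2}.ncard ≤ 0 := by
  classical
  obtain ⟨W, _, N', h1, h2, h3⟩ := h
  set e := Fintype.equivFin W with he
  set NN : Network E (Fin (Fintype.card W)) := ⟨e N'.source, e N'.sink,
    fun v w => N'.wire (e.symm v) (e.symm w) ∨ N'.wire (e.symm w) (e.symm v),
    fun i v w => N'.pos i (e.symm v) (e.symm w) ∨ N'.pos i (e.symm w) (e.symm v),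
    fun i v w => N'.neg i (e.symm v) (e.symm w) ∨ N'.neg i (e.symm w) (e.symm v)⟩ with hNN
  refine ⟨Fintype.card W, h1, NN, ?_, ?_, ?_⟩
  · intro G hG
    rw [← h3 G hG]
    constructor
    · have key : ∀ a b, Relation.ReflTransGen (NN.Closed G) a b →
          Relation.EqvGen (N'.Closed G Gᶜ) (e.symm a) (e.symm b) := by
        intro a b h
        induction h with
        | refl => exact Relation.EqvGen.refl _
        | @tail b c _ hbc ih =>
          refine ih.trans _ _ _ ?_
          rcases hbc with (h | h) | ⟨i, hi, h | h⟩ | ⟨i, hi, h | h⟩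
          · exact Relation.EqvGen.rel _ _ (Or.inl h)
          · exact Relation.EqvGen.symm _ _ (Relation.EqvGen.rel _ _ (Or.inl h))
          · exact Relation.EqvGen.rel _ _ (Or.inr (Or.inl ⟨i, hi, h⟩))
          · exact Relation.EqvGen.symm _ _ (Relation.EqvGen.rel _ _ (Or.inr (Or.inl ⟨i, hi, h⟩)))
          · exact Relation.EqvGen.rel _ _ (Or.inr (Or.inr ⟨i, hi, h⟩))
          · exact Relation.EqvGen.symm _ _ (Relation.EqvGen.rel _ _ (Or.inr (Or.inr ⟨i, hi, h⟩)))
      intro h
      have h' : Relation.EqvGen (N'.Closed G Gᶜ) (e.symm (e N'.source)) (e.symm (e N'.sink)) :=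
        key _ _ h
      rwa [Equiv.symm_apply_apply, Equiv.symm_apply_apply] at h'
    · intro h
      have key : ∀ a b, Relation.EqvGen (N'.Closed G Gᶜ) a b →
          Relation.ReflTransGen (NN.Closed G) (e a) (e b) ∧
          Relation.ReflTransGen (NN.Closed G) (e b) (e a) := by
        intro a b h
        induction h with
        | rel x y h =>
          refine ⟨Relation.ReflTransGen.single ?_, Relation.ReflTransGen.single ?_⟩
          · rcases h with h | ⟨i, hi, h⟩ | ⟨i, hi, h⟩
            · exact Or.inl (Or.inl (by simpa using h))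
            · exact Or.inr (Or.inl ⟨i, hi, Or.inl (by simpa using h)⟩)
            · exact Or.inr (Or.inr ⟨i, hi, Or.inl (by simpa using h)⟩)
          · rcases h with h | ⟨i, hi, h⟩ | ⟨i, hi, h⟩
            · exact Or.inl (Or.inr (by simpa using h))
            · exact Or.inr (Or.inl ⟨i, hi, Or.inr (by simpa using h)⟩)
            · exact Or.inr (Or.inr ⟨i, hi, Or.inr (by simpa using h)⟩)
        | refl x => exact ⟨Relation.ReflTransGen.refl, Relation.ReflTransGen.refl⟩
        | symm x y _ ih => exact ⟨ih.2, ih.1⟩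
        | trans x y z _ _ ih1 ih2 => exact ⟨ih1.1.trans ih2.1, ih2.2.trans ih1.2⟩
      exact (key _ _ h).1
  · rintro i hi v w (h | h)
    · exact h2 i hi _ _ h
    · exact h2 i hi _ _ h
  · refine le_of_eq ?_
    rw [Set.ncard_eq_zero]
    ext ⟨v, w⟩
    simp only [Set.mem_ofPred_eq, Set.mem_empty_iff_false, iff_false]
    rintro (h | ⟨i, h⟩ | ⟨i, h⟩)
    · exact h.2 (Or.symm h.1)
    · exact h.2 (Or.symm h.1)
    · exact h.2 (Or.symm h.1)

end Pool.Agent.Lib.OWC
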