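import Pool.Agent.Lib.OWC.Lower
import Pool.Agent.Lib.OWC.Savitch

/-!
# Main: the trade-off
-/

namespace Pool.Agent.Lib.OWC

open Pool.Agent.Lib.Pe46137

/-- the digraph itself as a network -/
def plain {n : ℕ} (s t : Fin n) : Network (Fin n × Fin n) (Fin n) where
  source := s
  sink := t
  wire _ _ := False
  pos e v w := e = (v, w)
  neg _ _ _ := False

theorem plain_accepts {n : ℕ} (s t : Fin n) (G : Set (Fin n × Fin n)) :
    (plain s t).Accepts G ↔ Reachable G s t := by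
  have h : (plain s t).Closed G = fun a b => (a, b) ∈ G := by
    funext a b
    simp [Network.Closed, plain]
  unfold Network.Accepts Reachable
  rw [h]
  rfl

theorem plain_avoids {n : ℕ} (s t : Fin n) (M : Set (Fin n × Fin n)) : (plain s t).Avoids M :=
  fun _ _ _ _ h => h

theorem ncard_pairs_le {n : ℕ} (A : Set (Fin n × Fin n)) : A.ncard ≤ n ^ 2 := by
  refine le_trans (Set.ncard_le_card A) ?_
  rw [Nat.card_eq_fintype_card, Fintype.card_prod, Fintype.card_fin, sq]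

/-- there are networks without one-way pairs -/
theorem exists_symmetric {n : ℕ} (s t : Fin n) (𝒢 : Set (Set (Fin n × Fin n)))
    (M : Set (Fin n × Fin n)) : ∃ m, ∃ N : Network (Fin n × Fin n) (Fin m),
      (∀ G ∈ 𝒢, (N.Accepts G ↔ Reachable G s t)) ∧
      N.Avoids M ∧ {p : Fin m × Fin m | N.OneWay p.1 p.2}.ncard ≤ 0 := by
  obtain ⟨m, _, N, h1, h2, h3⟩ := to_network (savitch (plain s t) M (plain_avoids s t M)
    (ncard_pairs_le _) 𝒢)
  exact ⟨m, N, fun G hG => (h1 G hG).trans (plain_accepts s t G), h2, h3⟩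

theorem size_spec {n : ℕ} (s t : Fin n) (𝒢 : Set (Set (Fin n × Fin n)))
    (M : Set (Fin n × Fin n)) (ρ : ℕ) : ∃ N : Network (Fin n × Fin n) (Fin (size 𝒢 s t M ρ)),
      (∀ G ∈ 𝒢, (N.Accepts G ↔ Reachable G s t)) ∧ N.Avoids M ∧
      {p : Fin (size 𝒢 s t M ρ) × Fin (size 𝒢 s t M ρ) | N.OneWay p.1 p.2}.ncard ≤ ρ := by
  obtain ⟨m, N, h1, h2, h3⟩ := exists_symmetric s t 𝒢 M
  have hne : {m | ∃ N : Network (Fin n × Fin n) (Fin m),
      (∀ G ∈ 𝒢, (N.Accepts G ↔ Reachable G s t)) ∧ N.Avoids M ∧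
      {p : Fin m × Fin m | N.OneWay p.1 p.2}.ncard ≤ ρ}.Nonempty :=
    ⟨m, N, h1, h2, le_trans h3 (Nat.zero_le _)⟩
  exact Nat.sInf_mem hne

theorem elim {n : ℕ} (s t : Fin n) (𝒢 : Set (Set (Fin n × Fin n)))
    (M : Set (Fin n × Fin n)) (ρ : ℕ) :
    size 𝒢 s t M 0 ≤ (4 * ρ + 5) ^ Nat.clog 2 (2 * ρ + 2) * (size 𝒢 s t M ρ + 2) := by
  obtain ⟨N, h1, h2, h3⟩ := size_spec s t 𝒢 M ρ
  obtain ⟨m, hm, N', h1', h2', h3'⟩ := to_network (savitch N M h2 h3 𝒢)
  refine le_trans (Nat.sInf_le ⟨N', fun G hG => (h1' G hG).trans (h1 G hG), h2', h3'⟩) hm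

theorem elim_log {n : ℕ} (s t : Fin n) (𝒢 : Set (Set (Fin n × Fin n)))
    (M : Set (Fin n × Fin n)) (ρ : ℕ) :
    Real.logb 2 (size 𝒢 s t M 0) ≤
      640 * (Real.logb 2 (size 𝒢 s t M ρ) + Real.logb 2 (ρ + 1) ^ 2) := by
  have hpos : ∀ ρ, 1 ≤ size 𝒢 s t M ρ := by
    intro ρ
    obtain ⟨N, _⟩ := size_spec s t 𝒢 M ρ
    have := N.source.2
    omega
  have h2 : (1 : ℝ) < 2 := by norm_num
  have hlog : ∀ ρ, 0 ≤ Real.logb 2 (size 𝒢 s t M ρ) := fun ρ =>
    Real.logb_nonneg h2 (by exact_mod_cast hpos ρ)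
  rcases Nat.eq_zero_or_pos ρ with h0 | h0
  · subst h0
    have := hlog 0
    nlinarith [sq_nonneg (Real.logb 2 (((0 : ℕ) : ℝ) + 1))]
  · set S := size 𝒢 s t M ρ with hS
    have hS1 : 1 ≤ S := hpos ρ
    have hS1' : (1 : ℝ) ≤ S := by exact_mod_cast hS1
    set r := Real.logb 2 ((ρ : ℝ) + 1) with hr
    have hρ1 : (1 : ℝ) ≤ ρ := by exact_mod_cast h0
    have hr1 : 1 ≤ r := by
      rw [hr, Real.le_logb_iff_rpow_le h2 (by positivity)]
      norm_num
      linarith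
    have e1 := elim s t 𝒢 M ρ
    rw [← hS] at e1
    have e2 : Real.logb 2 (size 𝒢 s t M 0) ≤
        Real.logb 2 (((4 * ρ + 5) ^ Nat.clog 2 (2 * ρ + 2) * (S + 2) : ℕ) : ℝ) := by
      refine Real.logb_le_logb_of_le h2 ?_ (by exact_mod_cast e1)
      have := hpos 0
      positivity
    have e3 : Real.logb 2 (((4 * ρ + 5) ^ Nat.clog 2 (2 * ρ + 2) * (S + 2) : ℕ) : ℝ) =
        Nat.clog 2 (2 * ρ + 2) * Real.logb 2 (4 * ρ + 5) + Real.logb 2 (S + 2) := by
      push_cast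
      rw [Real.logb_mul (by positivity) (by positivity), Real.logb_pow]
    have e4 : Real.logb 2 (4 * ρ + 5) ≤ r + 3 := by
      have : r + 3 = Real.logb 2 (8 * (ρ + 1)) := by
        rw [Real.logb_mul (by norm_num) (by positivity), hr]
        have : Real.logb 2 8 = 3 := by
          rw [show (8 : ℝ) = 2 ^ (3 : ℕ) by norm_num, Real.logb_pow, Real.logb_self_eq_one h2]
          norm_num
        rw [this]; ring
      rw [this]
      refine Real.logb_le_logb_of_le h2 (by positivity) ?_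
      linarith
    have e5 : Real.logb 2 ((S : ℝ) + 2) ≤ Real.logb 2 S + 2 := by
      have : Real.logb 2 S + 2 = Real.logb 2 (4 * S) := by
        rw [Real.logb_mul (by norm_num) (by positivity)]
        have : Real.logb 2 4 = 2 := by
          rw [show (4 : ℝ) = 2 ^ (2 : ℕ) by norm_num, Real.logb_pow, Real.logb_self_eq_one h2]
          norm_num
        rw [this]; ring
      rw [this]
      refine Real.logb_le_logb_of_le h2 (by positivity) ?_
      linarith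
    have e6 : (Nat.clog 2 (2 * ρ + 2) : ℝ) ≤ r + 2 := by
      obtain ⟨k, hk⟩ : ∃ k, Nat.clog 2 (2 * ρ + 2) = k + 1 := by
        refine ⟨Nat.clog 2 (2 * ρ + 2) - 1, ?_⟩
        have : 0 < Nat.clog 2 (2 * ρ + 2) := Nat.clog_pos (by norm_num) (by omega)
        omega
      have h3 : 2 ^ k < 2 * ρ + 2 := by
        have := Nat.pow_pred_clog_lt_self (b := 2) (by norm_num) (x := 2 * ρ + 2) (by omega)
        rw [hk] at this
        simpa using this
      have h4 : (k : ℝ) ≤ Real.logb 2 (2 * (ρ + 1)) := by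
        rw [Real.le_logb_iff_rpow_le h2 (by positivity), Real.rpow_natCast]
        have : ((2 ^ k : ℕ) : ℝ) ≤ ((2 * ρ + 2 : ℕ) : ℝ) := Nat.cast_le.mpr h3.le
        push_cast at this
        linarith
      rw [Real.logb_mul (by norm_num) (by positivity), Real.logb_self_eq_one h2] at h4
      rw [hk]
      push_cast
      linarith
    have e7 : 0 ≤ Real.logb 2 (4 * (ρ : ℝ) + 5) := Real.logb_nonneg h2 (by linarith)
    have e8 : (Nat.clog 2 (2 * ρ + 2) : ℝ) * Real.logb 2 (4 * ρ + 5) ≤ (r + 2) * (r + 3) :=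
      mul_le_mul e6 e4 e7 (by linarith)
    have e9 := hlog ρ
    rw [← hS] at e9
    rw [e3] at e2
    nlinarith

theorem main : ∃ C : ℝ, 0 < C ∧ ∀ (n : ℕ) (s t : Fin n), s ≠ t →
    ∀ (𝒢 : Set (Set (Fin n × Fin n))) (ρ : ℕ),
    ((∀ G, Acyclic G → G ∈ 𝒢) →
      2 * Real.logb 2 n ≤ Real.logb 2 (ρ + 1) + C * (1 + Real.logb 2 (Real.logb 2 n)) +
        C * (Real.logb 2 (size 𝒢 s t Set.univ ρ) / Real.logb 2 n)) ∧
    size 𝒢 s t Set.univ (n ^ 2) ≤ n ∧
    ∀ M : Set (Fin n × Fin n), Real.logb 2 (size 𝒢 s t M 0) ≤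
      C * (Real.logb 2 (size 𝒢 s t M ρ) + Real.logb 2 (ρ + 1) ^ 2) := by
  refine ⟨640, by norm_num, fun n s t hst 𝒢 ρ => ⟨fun h𝒢 => ?_, ?_, fun M =>
    elim_log s t 𝒢 M ρ⟩⟩
  · obtain ⟨N, h1, h2, h3⟩ := size_spec s t 𝒢 Set.univ ρ
    exact lower hst N (fun G hG => h1 G (h𝒢 G hG)) h2 h3
  · exact Nat.sInf_le ⟨plain s t, fun G _ => plain_accepts s t G, plain_avoids s t _,
      ncard_pairs_le _⟩

end Pool.Agent.Lib.OWC
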