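import Pool.Agent.Lib.OWC.LowerK
import Pool.Agent.Lib.OWC.Main

/-!
# MainK: one-way pairs of states and negated variables
-/

namespace Pool.Agent.Lib.OWC

open Pool.Agent.Lib.Pe46137

section code

variable {E W : Type}

/-- negated variables as separate variables -/
def enc (P F : Set E) : Set (E ⊕ E) := {z | Sum.elim (fun e => e ∈ P) (fun e => e ∈ F) z}

/-- negated variables as separate variables -/
def Network.up (N : Network E W) : Network (E ⊕ E) W where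
  source := N.source
  sink := N.sink
  wire := N.wire
  pos z := Sum.elim N.pos N.neg z
  neg _ _ _ := False

/-- and back -/
def Network.down (N : Network (E ⊕ E) W) : Network E W where
  source := N.source
  sink := N.sink
  wire := N.wire
  pos e := N.pos (Sum.inl e)
  neg e := N.pos (Sum.inr e)

theorem up_closed (N : Network E W) (P F : Set E) (v w : W) :
    N.up.Closed (enc P F) v w ↔ N.ClosedBy P F v w := by
  constructor
  · rintro (h | ⟨z, hz, h⟩ | ⟨_, _, h⟩)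
    · exact Or.inl h
    · rcases z with e | e
      · exact Or.inr (Or.inl ⟨e, hz, h⟩)
      · exact Or.inr (Or.inr ⟨e, hz, h⟩)
    · exact h.elim
  · rintro (h | ⟨e, he, h⟩ | ⟨e, he, h⟩)
    · exact Or.inl h
    · exact Or.inr (Or.inl ⟨Sum.inl e, he, h⟩)
    · exact Or.inr (Or.inl ⟨Sum.inr e, he, h⟩)

theorem down_closed {N : Network (E ⊕ E) W} (hN : N.Avoids Set.univ) (P F : Set E) (v w : W) :
    N.down.ClosedBy P F v w ↔ N.Closed (enc P F) v w := by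
  constructor
  · rintro (h | ⟨e, he, h⟩ | ⟨e, he, h⟩)
    · exact Or.inl h
    · exact Or.inr (Or.inl ⟨Sum.inl e, he, h⟩)
    · exact Or.inr (Or.inl ⟨Sum.inr e, he, h⟩)
  · rintro (h | ⟨z, hz, h⟩ | ⟨z, _, h⟩)
    · exact Or.inl h
    · rcases z with e | e
      · exact Or.inr (Or.inl ⟨e, hz, h⟩)
      · exact Or.inr (Or.inr ⟨e, hz, h⟩)
    · exact absurd h (hN z (Set.mem_univ _) v w)

theorem up_accepts (N : Network E W) (P F : Set E) :
    N.up.Accepts (enc P F) ↔ N.Reaches P F := by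
  have h : N.up.Closed (enc P F) = N.ClosedBy P F := by
    funext v w
    exact propext (up_closed N P F v w)
  unfold Network.Accepts Network.Reaches
  rw [h]
  rfl

theorem down_reaches {N : Network (E ⊕ E) W} (hN : N.Avoids Set.univ) (P F : Set E) :
    N.down.Reaches P F ↔ N.Accepts (enc P F) := by
  have h : N.down.ClosedBy P F = N.Closed (enc P F) := by
    funext v w
    exact propext (down_closed hN P F v w)
  unfold Network.Accepts Network.Reaches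
  rw [h]
  rfl

theorem up_oneWay {N : Network E W} {v w : W} (h : N.up.OneWay v w) : N.OneWay v w := by
  rcases h with h | ⟨z, h⟩ | ⟨z, h⟩
  · exact Or.inl h
  · rcases z with e | e
    · exact Or.inr (Or.inl ⟨e, h⟩)
    · exact Or.inr (Or.inr ⟨e, h⟩)
  · exact h.1.elim

theorem down_oneWay {N : Network (E ⊕ E) W} {v w : W} (h : N.down.OneWay v w) :
    N.OneWay v w := by
  rcases h with h | ⟨e, h⟩ | ⟨e, h⟩
  · exact Or.inl h
  · exact Or.inr (Or.inl ⟨Sum.inl e, h⟩)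
  · exact Or.inr (Or.inl ⟨Sum.inr e, h⟩)

/-- doing without one-way pairs, with the same negated variables on the walks -/
theorem without_oneWay {S ρ : ℕ} (N : Network E (Fin S))
    (hρ : {p : Fin S × Fin S | N.OneWay p.1 p.2}.ncard ≤ ρ) :
    ∃ m ≤ (4 * ρ + 5) ^ Nat.clog 2 (2 * ρ + 2) * (S + 2), ∃ N' : Network E (Fin m),
      (∀ P F, (N'.Reaches P F ↔ N.Reaches P F)) ∧
      {p : Fin m × Fin m | N'.OneWay p.1 p.2}.ncard ≤ 0 := by
  have h1 : {p : Fin S × Fin S | N.up.OneWay p.1 p.2}.ncard ≤ ρ :=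
    le_trans (Set.ncard_le_ncard (fun p hp => up_oneWay hp) (Set.toFinite _)) hρ
  obtain ⟨m, hm, N', h2, h3, h4⟩ := to_network (savitch N.up Set.univ (fun _ _ _ _ h => h) h1
    Set.univ)
  refine ⟨m, hm, N'.down, fun P F => ?_, ?_⟩
  · rw [down_reaches h3, h2 _ (Set.mem_univ _), up_accepts]
  · exact le_trans (Set.ncard_le_ncard (fun p hp => down_oneWay hp) (Set.toFinite _)) h4

end code

theorem plain_decides {n : ℕ} (s t : Fin n) (𝒢 : Set (Set (Fin n × Fin n)))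
    (M : Set (Fin n × Fin n)) (k : ℕ) : (plain s t).Decides 𝒢 s t M k := by
  have h : ∀ P F, ((plain s t).Reaches P F ↔ Reachable P s t) := by
    intro P F
    have h : (plain s t).ClosedBy P F = fun a b => (a, b) ∈ P := by
      funext a b
      simp [Network.ClosedBy, plain]
    unfold Network.Reaches Reachable
    rw [h]
    rfl
  intro G _
  exact ⟨fun hr => (h _ _).mp hr, fun hr => ⟨∅, Set.empty_subset _, by simp, (h _ _).mpr hr⟩⟩

theorem cost_spec {n : ℕ} (s t : Fin n) (𝒢 : Set (Set (Fin n × Fin n)))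
    (M : Set (Fin n × Fin n)) (k ρ : ℕ) :
    ∃ N : Network (Fin n × Fin n) (Fin (cost 𝒢 s t M k ρ)), N.Decides 𝒢 s t M k ∧
      {p : Fin (cost 𝒢 s t M k ρ) × Fin (cost 𝒢 s t M k ρ) | N.OneWay p.1 p.2}.ncard ≤ ρ := by
  obtain ⟨m, _, N, h1, h2⟩ := without_oneWay (plain s t) (ncard_pairs_le _)
  have hne : {m | ∃ N : Network (Fin n × Fin n) (Fin m), N.Decides 𝒢 s t M k ∧
      {p : Fin m × Fin m | N.OneWay p.1 p.2}.ncard ≤ ρ}.Nonempty := by
    refine ⟨m, N, fun G hG => ?_, le_trans h2 (Nat.zero_le _)⟩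
    refine ⟨fun h => (plain_decides s t 𝒢 M k G hG).1 ((h1 _ _).mp h), fun h => ?_⟩
    obtain ⟨F, h5, h6, h7⟩ := (plain_decides s t 𝒢 M k G hG).2 h
    exact ⟨F, h5, h6, (h1 _ _).mpr h7⟩
  exact Nat.sInf_mem hne

theorem cost_elim {n : ℕ} (s t : Fin n) (𝒢 : Set (Set (Fin n × Fin n)))
    (M : Set (Fin n × Fin n)) (k ρ : ℕ) :
    cost 𝒢 s t M k 0 ≤ (4 * ρ + 5) ^ Nat.clog 2 (2 * ρ + 2) * (cost 𝒢 s t M k ρ + 2) := by
  obtain ⟨N, h1, h2⟩ := cost_spec s t 𝒢 M k ρ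
  obtain ⟨m, hm, N', h3, h4⟩ := without_oneWay N h2
  refine le_trans (Nat.sInf_le ⟨N', fun G hG => ⟨fun h => (h1 G hG).1 ((h3 _ _).mp h),
    fun h => ?_⟩, h4⟩) hm
  obtain ⟨F, h5, h6, h7⟩ := (h1 G hG).2 h
  exact ⟨F, h5, h6, (h3 _ _).mpr h7⟩

theorem elim_log_aux {S S' ρ : ℕ} (hS : 1 ≤ S) (hS' : 1 ≤ S') (hρ : 1 ≤ ρ)
    (h : S' ≤ (4 * ρ + 5) ^ Nat.clog 2 (2 * ρ + 2) * (S + 2)) :
    Real.logb 2 S' ≤ 1280 * (Real.logb 2 S + Real.logb 2 (ρ + 1) ^ 2) := by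
  have h2 : (1 : ℝ) < 2 := by norm_num
  have hS1' : (1 : ℝ) ≤ S := by exact_mod_cast hS
  set r := Real.logb 2 ((ρ : ℝ) + 1) with hr
  have hρ1 : (1 : ℝ) ≤ ρ := by exact_mod_cast hρ
  have hr1 : 1 ≤ r := by
    rw [hr, Real.le_logb_iff_rpow_le h2 (by positivity)]
    norm_num
    linarith
  have e2 : Real.logb 2 S' ≤
      Real.logb 2 (((4 * ρ + 5) ^ Nat.clog 2 (2 * ρ + 2) * (S + 2) : ℕ) : ℝ) := by
    refine Real.logb_le_logb_of_le h2 (by positivity) (by exact_mod_cast h)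
  have e3 : Real.logb 2 (((4 * ρ + 5) ^ Nat.clog 2 (2 * ρ + 2) * (S + 2) : ℕ) : ℝ) =
      Nat.clog 2 (2 * ρ + 2) * Real.logb 2 (4 * ρ + 5) + Real.logb 2 (S + 2) := by
    push_cast
    rw [Real.logb_mul (by positivity) (by positivity), Real.logb_pow]
  have e4 : Real.logb 2 (4 * ρ + 5) ≤ r + 3 := by
    have : r + 3 = Real.logb 2 (8 * (ρ + 1)) := by
      rw [Real.logb_mul (by norm_num) (by positivity), hr]
      have : Real.logb 2 8 = 3 := by
        rw [show (8 : ℝ) = 2 ^ (3 : ℕ) by norm_num, Real.logb_pow, Real.logb_self_eq_one h2]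
        norm_num
      rw [this]; ring
    rw [this]
    refine Real.logb_le_logb_of_le h2 (by positivity) ?_
    linarith
  have e5 : Real.logb 2 ((S : ℝ) + 2) ≤ Real.logb 2 S + 2 := by
    have : Real.logb 2 S + 2 = Real.logb 2 (4 * S) := by
      rw [Real.logb_mul (by norm_num) (by positivity)]
      have : Real.logb 2 4 = 2 := by
        rw [show (4 : ℝ) = 2 ^ (2 : ℕ) by norm_num, Real.logb_pow, Real.logb_self_eq_one h2]
        norm_num
      rw [this]; ring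
    rw [this]
    refine Real.logb_le_logb_of_le h2 (by positivity) ?_
    linarith
  have e6 : (Nat.clog 2 (2 * ρ + 2) : ℝ) ≤ r + 2 := by
    have h3 := LowerAux.clog_le (m := 2 * ρ + 1)
    push_cast at h3
    have h4 : Real.logb 2 (2 * (ρ : ℝ) + 1 + 1) = r + 1 := by
      rw [show 2 * (ρ : ℝ) + 1 + 1 = 2 * (ρ + 1) by ring,
        Real.logb_mul (by norm_num) (by positivity), Real.logb_self_eq_one h2]
      ring
    rw [h4] at h3
    linarith
  have e7 : 0 ≤ Real.logb 2 (4 * (ρ : ℝ) + 5) := Real.logb_nonneg h2 (by linarith)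
  have e8 : (Nat.clog 2 (2 * ρ + 2) : ℝ) * Real.logb 2 (4 * ρ + 5) ≤ (r + 2) * (r + 3) :=
    mul_le_mul e6 e4 e7 (by linarith)
  have e9 : 0 ≤ Real.logb 2 (S : ℝ) := Real.logb_nonneg h2 hS1'
  rw [e3] at e2
  nlinarith

theorem mainK : ∃ C : ℝ, 0 < C ∧ ∀ (n : ℕ) (s t : Fin n), s ≠ t →
    ∀ (𝒢 : Set (Set (Fin n × Fin n))) (M : Set (Fin n × Fin n)) (k ρ : ℕ),
    ((∀ G, Acyclic G → G ∈ 𝒢) → ∀ X : Finset (Fin n),
      (∀ u ∈ X, ∀ v ∈ X, u ≠ v → (u, v) ∈ M) → k + 1 ≤ X.card ^ 2 →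
      Real.logb 2 ((X.card : ℝ) ^ 2 / (k + 1)) *
        (Real.logb 2 ((X.card : ℝ) ^ 2 / ((k + 1) * (ρ + 1))) -
          C * (1 + Real.logb 2 (Real.logb 2 n))) ≤ C * Real.logb 2 (cost 𝒢 s t M k ρ)) ∧
    (n ^ 2 ≤ ρ → cost 𝒢 s t M k ρ ≤ n) ∧
    Real.logb 2 (cost 𝒢 s t M k 0) ≤
      C * (Real.logb 2 (cost 𝒢 s t M k ρ) + Real.logb 2 (ρ + 1) ^ 2) := by
  refine ⟨1280, by norm_num, fun n s t hst 𝒢 M k ρ => ⟨fun h𝒢 X hX hk => ?_, fun hρ => ?_, ?_⟩⟩
  · obtain ⟨N, h1, h2⟩ := cost_spec s t 𝒢 M k ρ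
    exact lowerK hst M X hX hk N (fun G hG => h1 G (h𝒢 G hG)) h2
  · exact Nat.sInf_le ⟨plain s t, plain_decides s t 𝒢 M k, le_trans (ncard_pairs_le _) hρ⟩
  · have hpos : ∀ ρ, 1 ≤ cost 𝒢 s t M k ρ := by
      intro ρ
      obtain ⟨N, _⟩ := cost_spec s t 𝒢 M k ρ
      have := N.source.2
      omega
    have hlog : ∀ ρ, 0 ≤ Real.logb 2 (cost 𝒢 s t M k ρ) := fun ρ =>
      Real.logb_nonneg (by norm_num) (by exact_mod_cast hpos ρ)
    rcases Nat.eq_zero_or_pos ρ with h0 | h0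
    · subst h0
      have := hlog 0
      nlinarith [sq_nonneg (Real.logb 2 (((0 : ℕ) : ℝ) + 1))]
    · exact elim_log_aux (hpos ρ) (hpos 0) h0 (cost_elim s t 𝒢 M k ρ)

end Pool.Agent.Lib.OWC
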