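import Pool.Agent.Lib.OWC.DefsK
import Pool.Agent.Lib.OWC.Net
import Pool.Agent.Lib.Pe46137.Hiding

/-!
# NetK: from a network with few negated variables on accepting walks to the core inequality

Every cluster of the grid has `B` entry and `B` exit vertices; the arc between two consecutive
clusters is hidden among `B ^ 2` candidates (`hide_family`).
-/

namespace Pool.Agent.Lib.OWC

open Finset Pool.Agent.Lib.Pe46137

/-- entry vertices (`false`) and exit vertices (`true`) of the clusters, and the two terminals -/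
abbrev Pt (l q B : ℕ) := (Cl l q × Bool × Fin B) ⊕ Bool

/-- levels -/
def rk {l q B : ℕ} : Pt l q B → ℕ
  | Sum.inl (u, b, _) => 2 * lay u + (if b then 2 else 1)
  | Sum.inr true => 0
  | Sum.inr false => 2 * l + 10

/-- an injection of the points into the vertices, with clusters inside `X` -/
theorem exists_embK {n l q B : ℕ} [NeZero q] (X : Finset (Fin n))
    (hX : 2 * B * (l * q + 2) + 2 ≤ X.card) {s t : Fin n} (hst : s ≠ t) :
    ∃ ψ : Pt l q B ↪ Fin n, ψ (Sum.inr true) = s ∧ ψ (Sum.inr false) = t ∧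
      ∀ z, ψ (Sum.inl z) ∈ X := by
  classical
  set Y := (X.erase s).erase t with hY
  have h1 : X.card ≤ Y.card + 2 := by
    have h2 : X.card - 1 ≤ (X.erase s).card := pred_card_le_card_erase
    have h3 : (X.erase s).card - 1 ≤ Y.card := pred_card_le_card_erase
    omega
  have hcard : Fintype.card (Cl l q × Bool × Fin B) ≤ Fintype.card Y := by
    rw [Fintype.card_prod, Fintype.card_prod, card_Cl, Fintype.card_bool, Fintype.card_fin,
      Fintype.card_coe]
    have : (l * q + 2) * (2 * B) = 2 * B * (l * q + 2) := by ring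
    omega
  obtain ⟨ψ⟩ := Function.Embedding.nonempty_of_card_le hcard
  have hmem : ∀ a ∈ Y, a ≠ s ∧ a ≠ t ∧ a ∈ X := by
    intro a ha
    rw [hY, mem_erase, mem_erase] at ha
    exact ⟨ha.2.1, ha.1, ha.2.2⟩
  have hs : ∀ z, (ψ z : Fin n) ≠ s := fun z => (hmem _ (ψ z).2).1
  have ht : ∀ z, (ψ z : Fin n) ≠ t := fun z => (hmem _ (ψ z).2).2.1
  refine ⟨⟨Sum.elim (fun z => (ψ z : Fin n)) (fun b => if b then s else t), ?_⟩, rfl, rfl, ?_⟩
  · rintro (z | b) (z' | b') h
    · simp only [Sum.elim_inl] at h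
      rw [ψ.injective (Subtype.ext h)]
    · cases b'
      · exact absurd h (ht z)
      · exact absurd h (hs z)
    · cases b
      · exact absurd h.symm (ht z')
      · exact absurd h.symm (hs z')
    · cases b <;> cases b'
      · rfl
      · exact absurd h.symm hst
      · exact absurd h hst
      · rfl
  · intro z
    exact (hmem _ (ψ z).2).2.2

/-- sets of arcs that go up are acyclic -/
theorem acyclic_of_rk {n l q B : ℕ} (ψ : Pt l q B ↪ Fin n) (A : Set (Fin n × Fin n))
    (hA : ∀ a b, (a, b) ∈ A → ∃ u v : Pt l q B, a = ψ u ∧ b = ψ v ∧ rk u < rk v) :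
    Acyclic A := by
  intro v hv
  have key : ∀ a b, Relation.TransGen (fun a b => (a, b) ∈ A) a b →
      ∃ u v : Pt l q B, a = ψ u ∧ b = ψ v ∧ rk u < rk v := by
    intro a b h
    induction h with
    | single h => exact hA _ _ h
    | tail _ h ih =>
      obtain ⟨u, v, h1, h2, h3⟩ := ih
      obtain ⟨u', v', h1', h2', h3'⟩ := hA _ _ h
      have : v = u' := ψ.injective (h2.symm.trans h1')
      exact ⟨u, v', h1, h2', by rw [this] at h3; omega⟩
  obtain ⟨u, v', h1, h2, h3⟩ := key v v hv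
  have : u = v' := ψ.injective (h1.symm.trans h2)
  rw [this] at h3
  exact lt_irrefl _ h3

section

variable {n l q B : ℕ} (ψ : Pt l q B ↪ Fin n)

/-- the fixed arcs -/
def frame : Set (Fin n × Fin n) :=
  {a | (∃ u b b', a = (ψ (Sum.inl (u, false, b)), ψ (Sum.inl (u, true, b')))) ∨
    (∃ b, a = (ψ (Sum.inr true), ψ (Sum.inl (Sum.inr true, true, b)))) ∨
    ∃ b, a = (ψ (Sum.inl (Sum.inr false, false, b)), ψ (Sum.inr false))}

/-- the candidate arcs between two consecutive clusters -/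
def cand [DecidableEq (Fin n × Fin n)] (e : Pr l q) : Finset (Fin n × Fin n) :=
  univ.image (fun b : Fin B × Fin B =>
    (ψ (Sum.inl (e.1.1, true, b.1)), ψ (Sum.inl (e.1.2, false, b.2))))

/-- the frame and the chosen arcs of the pairs in `E` -/
def build (σ : Pr l q → Fin n × Fin n) (E : Set (Pr l q)) : Set (Fin n × Fin n) :=
  {a | a ∈ frame ψ ∨ ∃ e ∈ E, σ e = a}

variable {ψ}

theorem mem_cand {e : Pr l q} {a : Fin n × Fin n} (h : a ∈ cand ψ e) :
    ∃ b b', a = (ψ (Sum.inl (e.1.1, true, b)), ψ (Sum.inl (e.1.2, false, b'))) := by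
  obtain ⟨b, _, rfl⟩ := mem_image.mp h
  exact ⟨b.1, b.2, rfl⟩

theorem card_cand (e : Pr l q) : (cand ψ e).card = B ^ 2 := by
  unfold cand
  rw [card_image_of_injective, card_univ, Fintype.card_prod, Fintype.card_fin, sq]
  rintro ⟨b, b'⟩ ⟨c, c'⟩ h
  obtain ⟨h1, h2⟩ := Prod.ext_iff.mp h
  have h3 := ψ.injective h1
  have h4 := ψ.injective h2
  simp only [Sum.inl.injEq, Prod.mk.injEq, true_and] at h3 h4
  rw [h3, h4]

theorem cand_disjoint (e e' : Pr l q) (hne : e ≠ e') : Disjoint (cand ψ e) (cand ψ e') := by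
  rw [Finset.disjoint_left]
  intro a ha ha'
  obtain ⟨b, b', h⟩ := mem_cand ha
  obtain ⟨c, c', h'⟩ := mem_cand ha'
  apply hne
  obtain ⟨h1, h2⟩ := Prod.ext_iff.mp (h.symm.trans h')
  have h3 := ψ.injective h1
  have h4 := ψ.injective h2
  simp only [Sum.inl.injEq, Prod.mk.injEq] at h3 h4
  exact Subtype.ext (Prod.ext h3.1 h4.1)

theorem build_acyclic {σ : Pr l q → Fin n × Fin n} (hσ : ∀ e, σ e ∈ cand ψ e)
    (E : Set (Pr l q)) : Acyclic (build ψ σ E) := by
  refine acyclic_of_rk ψ _ ?_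
  rintro a b ((⟨u, c, c', h⟩ | ⟨c, h⟩ | ⟨c, h⟩) | ⟨e, _, he⟩)
  · obtain ⟨h1, h2⟩ := Prod.ext_iff.mp h
    exact ⟨_, _, h1, h2, by simp [rk]⟩
  · obtain ⟨h1, h2⟩ := Prod.ext_iff.mp h
    exact ⟨_, _, h1, h2, by simp [rk]⟩
  · obtain ⟨h1, h2⟩ := Prod.ext_iff.mp h
    exact ⟨_, _, h1, h2, by simp [rk, lay]; omega⟩
  · obtain ⟨c, c', h⟩ := mem_cand (hσ e)
    rw [he] at h
    obtain ⟨h1, h2⟩ := Prod.ext_iff.mp h
    refine ⟨_, _, h1, h2, ?_⟩
    have := e.2
    simp only [rk, if_true, Bool.false_eq_true, if_false]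
    omega

theorem not_mem_frame {e : Pr l q} {a : Fin n × Fin n} (h : a ∈ cand ψ e) : a ∉ frame ψ := by
  obtain ⟨b, b', rfl⟩ := mem_cand h
  rintro (⟨u, c, c', h⟩ | ⟨c, h⟩ | ⟨c, h⟩)
  · have := ψ.injective (Prod.ext_iff.mp h).1
    simp at this
  · have := ψ.injective (Prod.ext_iff.mp h).1
    simp at this
  · have := ψ.injective (Prod.ext_iff.mp h).2
    simp at this

/-- the pairs that are not crossed -/
def calm (x : Fin l × ZMod q → Bool) : Set (Pr l q) :=
  {e | ¬ (hat x e.1.1 = true ∧ hat x e.1.2 = false)}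

theorem build_not_reachable {σ : Pr l q → Fin n × Fin n} (hσ : ∀ e, σ e ∈ cand ψ e)
    (x : Fin l × ZMod q → Bool) :
    ¬ Reachable (build ψ σ (calm x)) (ψ (Sum.inr true)) (ψ (Sum.inr false)) := by
  intro h
  have key : ∀ b, Reachable (build ψ σ (calm x)) (ψ (Sum.inr true)) b →
      b = ψ (Sum.inr true) ∨ ∃ u c i, b = ψ (Sum.inl (u, c, i)) ∧ hat x u = true := by
    intro b hb
    induction hb with
    | refl => exact Or.inl rfl
    | @tail b' c' _ h ih =>
      rcases h with (⟨u, c, c', h⟩ | ⟨c, h⟩ | ⟨c, h⟩) | ⟨e, he, hea⟩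
      · obtain ⟨h1, h2⟩ := Prod.ext_iff.mp h
        simp only at h1 h2
        rcases ih with ih | ⟨u', c1, i, h3, h4⟩
        · have := ψ.injective (ih.symm.trans h1)
          simp at this
        · have := ψ.injective (h3.symm.trans h1)
          simp only [Sum.inl.injEq, Prod.mk.injEq] at this
          exact Or.inr ⟨u, true, c', h2, this.1 ▸ h4⟩
      · obtain ⟨h1, h2⟩ := Prod.ext_iff.mp h
        exact Or.inr ⟨Sum.inr true, true, c, h2, rfl⟩
      · obtain ⟨h1, h2⟩ := Prod.ext_iff.mp h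
        simp only at h1 h2
        rcases ih with ih | ⟨u', c1, i, h3, h4⟩
        · have := ψ.injective (ih.symm.trans h1)
          simp at this
        · have := ψ.injective (h3.symm.trans h1)
          simp only [Sum.inl.injEq, Prod.mk.injEq] at this
          rw [this.1] at h4
          simp [hat] at h4
      · obtain ⟨i, i', h'⟩ := mem_cand (hσ e)
        rw [hea] at h'
        obtain ⟨h1, h2⟩ := Prod.ext_iff.mp h'
        simp only at h1 h2
        rcases ih with ih | ⟨u', c1, i, h3, h4⟩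
        · have := ψ.injective (ih.symm.trans h1)
          simp at this
        · have := ψ.injective (h3.symm.trans h1)
          simp only [Sum.inl.injEq, Prod.mk.injEq] at this
          refine Or.inr ⟨e.1.2, false, i', h2, ?_⟩
          by_contra hc
          exact he ⟨this.1 ▸ h4, by simpa using hc⟩
  rcases key _ h with h1 | ⟨u, c, i, h1, _⟩
  · have := ψ.injective h1
    simp at this
  · have := ψ.injective h1
    simp at this

theorem build_reachable {σ : Pr l q → Fin n × Fin n} (hσ : ∀ e, σ e ∈ cand ψ e)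
    (w : Fin l → ZMod q) (E : Set (Pr l q))
    (hE : ∀ i ≤ l, ∀ h : lay (walk (pw w) (i + 1)) = lay (walk (pw w) i) + 1,
      (⟨(walk (pw w) i, walk (pw w) (i + 1)), h⟩ : Pr l q) ∈ E) :
    Reachable (build ψ σ E) (ψ (Sum.inr true)) (ψ (Sum.inr false)) := by
  have step : ∀ i ≤ l, (∀ b, Reachable (build ψ σ E) (ψ (Sum.inr true))
        (ψ (Sum.inl (walk (pw w) i, true, b)))) →
      ∃ b, Reachable (build ψ σ E) (ψ (Sum.inr true))
        (ψ (Sum.inl (walk (pw w) (i + 1), false, b))) := by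
    intro i hi h
    have hlay : lay (walk (pw w) (i + 1)) = lay (walk (pw w) i) + 1 := by
      rw [lay_walk_pw _ (by omega), lay_walk_pw _ (by omega)]
    obtain ⟨b, b', h1⟩ := mem_cand (hσ ⟨(walk (pw w) i, walk (pw w) (i + 1)), hlay⟩)
    exact ⟨b', (h b).tail (Or.inr ⟨_, hE i hi hlay, h1⟩)⟩
  have key : ∀ i ≤ l, ∀ b, Reachable (build ψ σ E) (ψ (Sum.inr true))
        (ψ (Sum.inl (walk (pw w) i, true, b))) := by
    intro i
    induction i with
    | zero =>
      intro _ b
      exact Relation.ReflTransGen.single (Or.inl (Or.inr (Or.inl ⟨b, rfl⟩)))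
    | succ i ih =>
      intro hi b
      obtain ⟨c, hc⟩ := step i (by omega) (ih (by omega))
      exact hc.tail (Or.inl (Or.inl ⟨_, c, b, rfl⟩))
  obtain ⟨b, hb⟩ := step l le_rfl (key l le_rfl)
  rw [walk_last _ le_rfl] at hb
  exact hb.tail (Or.inl (Or.inr (Or.inr ⟨b, rfl⟩)))

end

theorem net_boundK {n d l q B k ρ : ℕ} [Fact q.Prime] (hd : 6 ≤ d) (hl : 1 ≤ l)
    (hq : (9 * l) ^ 4 ≤ q) {pe : Finset (Fin l) → ℝ} (hp : Pseudo d l pe)
    (hb : Balanced (q : ℝ) pe) {F : Type} [Fintype F] {w : F → Fin l → ZMod q}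
    (hw : Paths q (d - 1) w) {s t : Fin n} (hst : s ≠ t) (M : Set (Fin n × Fin n))
    (X : Finset (Fin n)) (hXM : ∀ u ∈ X, ∀ v ∈ X, u ≠ v → (u, v) ∈ M)
    (hX : 2 * B * (l * q + 2) + 2 ≤ X.card) (hB : 0 < B) (hkB : 4 * k ≤ B ^ 2) {W : Type}
    [Fintype W] (N : Network (Fin n × Fin n) W)
    (hN : N.Decides {G | Acyclic G} s t M k)
    (hρ : {p : W × W | N.OneWay p.1 p.2}.ncard ≤ ρ)
    (hρq : 8000 * ρ * (l : ℝ) ^ 3 * Real.log q ≤ (q : ℝ) ^ 2) :
    (q : ℝ) ^ (d - 1) ≤ 32 * (Fintype.card W : ℝ) ^ 4 * (9 * l + 1) ^ d := by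
  classical
  have hq0 : NeZero q := ⟨(Fact.out : q.Prime).ne_zero⟩
  have hq1 : (1 : ℝ) ≤ q := by exact_mod_cast (Fact.out : q.Prime).one_lt.le
  obtain ⟨ψ, hψs, hψt, hψX⟩ := exists_embK (l := l) (q := q) (B := B) X hX hst
  -- candidates
  set M' : Finset (Fin n × Fin n) := univ.biUnion (fun e : Pr l q => cand ψ e) with hM'
  have hM'M : ∀ a ∈ M', a ∈ M := by
    intro a ha
    obtain ⟨e, _, he⟩ := mem_biUnion.mp ha
    obtain ⟨b, b', rfl⟩ := mem_cand he
    refine hXM _ (hψX _) _ (hψX _) ?_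
    intro h
    have := ψ.injective h
    simp at this
  -- the negations used by the network
  have hsel : ∀ G : Set (Fin n × Fin n), ∃ Fs : Finset (Fin n × Fin n), (Fs ∩ M').card ≤ k ∧
      (Acyclic G → Reachable G s t →
        (Fs : Set (Fin n × Fin n)) ⊆ Gᶜ ∧ N.Reaches G Fs) := by
    intro G
    by_cases hG : Acyclic G ∧ Reachable G s t
    · obtain ⟨Fs, hF, hk, hc⟩ := (hN G hG.1).2 hG.2
      refine ⟨Fs.toFinset, ?_, fun _ _ => ⟨by simpa using hF, by simpa using hc⟩⟩
      rw [← Set.ncard_coe_finset]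
      refine le_trans (Set.ncard_le_ncard ?_ (Set.toFinite _)) hk
      intro a ha
      rw [mem_coe, mem_inter] at ha
      exact ⟨by simpa using ha.1, hM'M a ha.2⟩
    · exact ⟨∅, by simp, fun h1 h2 => absurd ⟨h1, h2⟩ hG⟩
  choose Fs hFs1 hFs2 using hsel
  -- the pairs of a path
  set E : F → Finset (Pr l q) := fun f =>
    univ.filter (fun e => ∃ i ≤ l, e.1 = (walk (pw (w f)) i, walk (pw (w f)) (i + 1))) with hE
  set G : F → (Pr l q → Fin n × Fin n) → Set (Fin n × Fin n) := fun f σ =>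
    build ψ σ {e | e ∈ E f} with hG
  have hFne : Nonempty F := by
    rw [← Fintype.card_pos_iff, hw.card]
    exact Nat.pow_pos (Fact.out : q.Prime).pos
  obtain ⟨σ, hσP, -, good, hgoodp, hgood⟩ := hide_family (Fm := F) (fun e : Pr l q => cand ψ e)
    cand_disjoint (R := B ^ 2) (k := k) (fun e => (card_cand e).ge) (by positivity) hkB M'
    (fun e => subset_biUnion_of_mem (fun e : Pr l q => cand ψ e) (mem_univ e)) ∅ (by simp) E
    (fun f σ => Fs (G f σ)) (by
      intro f e he σ y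
      have : G f (Function.update σ e y) = G f σ := by
        ext a
        simp only [hG, build, Set.mem_ofPred_eq]
        refine or_congr Iff.rfl (exists_congr fun e' => and_congr_right fun he' => ?_)
        rw [Function.update_of_ne (fun h : e' = e => he (by rw [← h]; exact he'))]
      simp only [this]) (fun f σ _ => hFs1 _)
  have hσ : ∀ e, σ e ∈ cand ψ e := Fintype.mem_piFinset.mp hσP
  have hac : ∀ E : Set (Pr l q), Acyclic (build ψ σ E) := build_acyclic hσ
  have hreach : ∀ f, Reachable (G f σ) s t := by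
    intro f
    rw [← hψs, ← hψt]
    refine build_reachable hσ (w f) _ ?_
    intro i hi h
    simp only [hE, mem_filter, mem_univ, true_and, Set.mem_ofPred_eq]
    exact ⟨i, hi, rfl⟩
  -- the worlds
  set Gx : (Fin l × ZMod q → Bool) → Set (Fin n × Fin n) := fun x => build ψ σ (calm x) with hGx
  have hGx0 : ∀ x, ¬ Reachable (Gx x) s t := by
    intro x
    rw [← hψs, ← hψt]
    exact build_not_reachable hσ x
  set J : W → (Fin l × ZMod q → Bool) → ℝ := fun v x =>
    if Relation.ReflTransGen (N.ClosedBy (Gx x) (Gx x)ᶜ) N.source v then 1 else 0 with hJ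
  have hJ01 : ∀ v x, J v x = 0 ∨ J v x = 1 := by
    intro v x
    simp only [hJ]
    split_ifs <;> simp
  have hJstep : ∀ v v' x, N.ClosedBy (Gx x) (Gx x)ᶜ v v' → J v x ≤ J v' x := by
    intro v v' x h
    by_cases hv : Relation.ReflTransGen (N.ClosedBy (Gx x) (Gx x)ᶜ) N.source v
    · have hv' : Relation.ReflTransGen (N.ClosedBy (Gx x) (Gx x)ᶜ) N.source v' := hv.tail h
      simp [hJ, hv, hv']
    · have h1 : J v x = 0 := by simp [hJ, hv]
      rw [h1]
      rcases hJ01 v' x with h2 | h2 <;> rw [h2]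
      norm_num
  set R : Finset (W × W) := univ.filter (fun p => N.OneWay p.1 p.2) with hR
  have hRρ : R.card ≤ ρ := by
    refine le_trans (le_of_eq ?_) hρ
    rw [← Set.ncard_coe_finset]
    congr 1
    ext p
    simp [hR]
  have hRW : R.card ≤ Fintype.card W ^ 2 := by
    refine le_trans (card_le_univ R) ?_
    rw [Fintype.card_prod, sq]
  have hcore := core (d := d) (l := l) (pe := pe) (F := {x // x ∈ good}) (by omega) hl hp
    (fun f => pw (w f.1))
    (fun f f' hne S S' h => by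
      have := hw.almost_disjoint (fun h => hne (Subtype.ext h)) h
      omega) J hJ01 R
    (η := 2000 * l ^ 3 * Real.log q * (q : ℝ) ^ (d - 3))
    (fun h h01 => by
      refine le_trans ?_ (positivity_bound hd hl hq hp hb hw h h01)
      rw [Finset.sum_coe_sort good (fun f => max 0 (-Phi d pe (pw (w f)) h))]
      exact sum_le_sum_of_subset_of_nonneg (subset_univ _) fun _ _ _ => le_max_left _ _)
    (fun f => N.ClosedBy (G f.1 σ) (Fs (G f.1 σ))) (s := N.source) (t := N.sink) ?_ ?_ ?_ ?_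
  · rw [Fintype.card_coe] at hcore
    have hlog : 0 ≤ Real.log q := Real.log_nonneg hq1
    have hg : (q : ℝ) ^ (d - 1) ≤ 2 * good.card := by
      have := hgood
      rw [hw.card] at this
      exact_mod_cast this
    have hqpos : (0 : ℝ) < (q : ℝ) ^ (d - 1) := by positivity
    have h1 := finish (F := good.card) (K := (9 * l + 1) ^ d) (w := Fintype.card W) (ρ := ρ)
      (r := R.card) (η := 2000 * l ^ 3 * Real.log q * (q : ℝ) ^ (d - 3))
      (by linarith) (by positivity) (by positivity)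
      (by exact_mod_cast hRρ) (by exact_mod_cast hRW) ?_ ?_ hcore
    · linarith
    · have : 0 < Fintype.card W := Fintype.card_pos_iff.mpr ⟨N.source⟩
      exact_mod_cast this
    · have h2 : 2 * (2 * ((ρ : ℝ) * (2000 * l ^ 3 * Real.log q * (q : ℝ) ^ (d - 3)))) ≤
          (q : ℝ) ^ (d - 1) := by
        calc 2 * (2 * ((ρ : ℝ) * (2000 * l ^ 3 * Real.log q * (q : ℝ) ^ (d - 3))))
            = (8000 * ρ * (l : ℝ) ^ 3 * Real.log q) * (q : ℝ) ^ (d - 3) := by ring
          _ ≤ (q : ℝ) ^ 2 * (q : ℝ) ^ (d - 3) := by gcongr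
          _ = (q : ℝ) ^ (d - 1) := by
              rw [← pow_add]; congr 1; omega
      linarith
  · intro f v v' hvv
    rcases hvv with h | ⟨a, ha, h⟩ | ⟨a, ha, h⟩
    · refine ⟨none, by simp, ?_⟩
      by_cases h' : N.wire v' v
      · exact Or.inl fun x _ => le_antisymm (hJstep _ _ _ (Or.inl h)) (hJstep _ _ _ (Or.inl h'))
      · refine Or.inr ⟨?_, fun x _ => hJstep _ _ _ (Or.inl h)⟩
        simp only [hR, mem_filter, mem_univ, true_and]
        exact Or.inl ⟨h, h'⟩
    · have hex : ∃ o : Option ℕ, (∀ i ∈ o, i ≤ l) ∧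
          ∀ x, ¬ CrossO o (fun j => x (pw (w f.1) j)) → a ∈ Gx x := by
        rcases ha with ha | ⟨e, he, hea⟩
        · exact ⟨none, by simp, fun x _ => Or.inl ha⟩
        · simp only [hE, mem_filter, mem_univ, true_and, Set.mem_ofPred_eq] at he
          obtain ⟨i, hi, hei⟩ := he
          refine ⟨some i, by simpa using hi, fun x hx => Or.inr ⟨e, ?_, hea⟩⟩
          simp only [calm, Set.mem_ofPred_eq]
          rw [hei]
          simp only
          rw [hat_walk, hat_walk]
          exact fun hc => hx ⟨i, rfl, hc⟩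
      obtain ⟨o, ho, hox⟩ := hex
      refine ⟨o, ho, ?_⟩
      by_cases h' : N.pos a v' v
      · exact Or.inl fun x hx => le_antisymm (hJstep _ _ _ (Or.inr (Or.inl ⟨a, hox x hx, h⟩)))
          (hJstep _ _ _ (Or.inr (Or.inl ⟨a, hox x hx, h'⟩)))
      · refine Or.inr ⟨?_, fun x hx => hJstep _ _ _ (Or.inr (Or.inl ⟨a, hox x hx, h⟩))⟩
        simp only [hR, mem_filter, mem_univ, true_and]
        exact Or.inr (Or.inl ⟨_, h, h'⟩)
    · have hnot : a ∉ G f.1 σ := (hFs2 _ (hac _) (hreach f.1)).1 ha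
      have hax : ∀ x, a ∈ (Gx x)ᶜ := by
        intro x hax
        rcases hax with h' | ⟨e, he, hea⟩
        · exact hnot (Or.inl h')
        · by_cases heE : e ∈ E f.1
          · exact hnot (Or.inr ⟨e, heE, hea⟩)
          · exact hgoodp f.1 f.2 e heE (by rw [hea]; exact ha)
      refine ⟨none, by simp, ?_⟩
      by_cases h' : N.neg a v' v
      · exact Or.inl fun x _ => le_antisymm (hJstep _ _ _ (Or.inr (Or.inr ⟨a, hax x, h⟩)))
          (hJstep _ _ _ (Or.inr (Or.inr ⟨a, hax x, h'⟩)))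
      · refine Or.inr ⟨?_, fun x _ => hJstep _ _ _ (Or.inr (Or.inr ⟨a, hax x, h⟩))⟩
        simp only [hR, mem_filter, mem_univ, true_and]
        exact Or.inr (Or.inr ⟨_, h, h'⟩)
  · intro x
    simp [hJ, Relation.ReflTransGen.refl]
  · intro x
    simp only [hJ]
    rw [if_neg]
    intro h
    exact hGx0 x ((hN (Gx x) (hac _)).1 h)
  · intro f
    exact (hFs2 _ (hac _) (hreach f.1)).2

end Pool.Agent.Lib.OWC
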