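import Mathlib

/-!
# Params: the choice of the parameters (natural numbers)

`lam = Nat.log 2 n` (`2 ^ lam ≤ n < 2 ^ (lam + 1)`), `kap = Nat.clog 2 (lam + 1)`
(`lam + 1 ≤ 2 ^ kap`), `sig = Nat.clog 2 (ρ + 1)` (`ρ + 1 ≤ 2 ^ sig`).
`d = (2 lam - sig - 12 kap - 40) / 10`; if `d ≥ 6`:
(i) `5 d + 5 kap + 17 ≤ lam`, (ii) `sig + 5 d + 6 kap + 20 ≤ 2 lam`.  (If `d < 6` the first
alternative holds.)  `c = (lam - d - kap - 3) / 2`, so `lam - d - kap - 4 ≤ 2 c ≤ lam - d - kap - 3`, and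
`2 c + 1 ≤ lam + 1 ≤ 2 ^ kap`.  `q` is a prime with `4 ^ c < q ≤ 2 * 4 ^ c`
(`Nat.exists_prime_lt_and_le_two_mul`).  `l = (2 c + 1) * 2 ^ d ≤ 2 ^ (kap + d)`.
* `l q + 2 ≤ 2 ^ (kap + d) * 2 * 2 ^ (lam - d - kap - 3) + 2 = 2 ^ (lam - 2) + 2 ≤ 2 ^ lam ≤ n`.
* `(9 l) ^ 4 ≤ 2 ^ (13 + 4 kap + 4 d) ≤ 2 ^ (lam - d - kap - 4) ≤ 4 ^ c ≤ q` by (i).
* `4000 ρ l ^ 3 (lam + 1) ≤ 2 ^ (12 + sig + 3 kap + 3 d + kap) ≤ 2 ^ (2 (lam - d - kap - 4)) ≤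
  (4 ^ c) ^ 2 ≤ q ^ 2` by (ii).
* `2 ^ lam ≤ (2 ^ (lam - d - kap - 4)) ^ 2 ≤ q ^ 2` since `2 (d + kap + 4) ≤ lam` by (i).
* `2 lam ≤ sig + 12 kap + 50 + 10 d` by the choice of `d`.
-/

namespace Pool.Agent.Lib.OWC

theorem params {n ρ : ℕ} (hn : 2 ≤ n) :
    2 * Nat.log 2 n ≤ Nat.clog 2 (ρ + 1) + 12 * Nat.clog 2 (Nat.log 2 n + 1) + 110 ∨
    ∃ d c q : ℕ, 6 ≤ d ∧ q.Prime ∧ 4 ^ c ≤ q ∧ q ≤ 4 * 4 ^ c ∧
      (9 * ((2 * c + 1) * 2 ^ d)) ^ 4 ≤ q ∧ (2 * c + 1) * 2 ^ d * q + 2 ≤ n ∧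
      4000 * ρ * ((2 * c + 1) * 2 ^ d) ^ 3 * (Nat.log 2 n + 1) ≤ q ^ 2 ∧
      2 ^ Nat.log 2 n ≤ q ^ 2 ∧
      2 * Nat.log 2 n ≤ Nat.clog 2 (ρ + 1) + 12 * Nat.clog 2 (Nat.log 2 n + 1) + 50 + 10 * d := by
  have h1 : 2 ^ Nat.log 2 n ≤ n := Nat.pow_log_le_self 2 (by omega)
  have h2 : Nat.log 2 n + 1 ≤ 2 ^ Nat.clog 2 (Nat.log 2 n + 1) := Nat.le_pow_clog (by norm_num) _
  have h3 : ρ + 1 ≤ 2 ^ Nat.clog 2 (ρ + 1) := Nat.le_pow_clog (by norm_num) _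
  generalize Nat.clog 2 (Nat.log 2 n + 1) = kap at *
  generalize Nat.clog 2 (ρ + 1) = sig at *
  generalize Nat.log 2 n = lam at *
  by_cases hd : (2 * lam - sig - 12 * kap - 40) / 10 < 6
  · left
    omega
  right
  push Not at hd
  obtain ⟨d, hd_eq⟩ : ∃ d, d = (2 * lam - sig - 12 * kap - 40) / 10 := ⟨_, rfl⟩
  rw [← hd_eq] at hd
  have hA : 10 * d + sig + 12 * kap + 40 ≤ 2 * lam := by omega
  have hB : 2 * lam ≤ sig + 12 * kap + 50 + 10 * d := by omega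
  obtain ⟨c, hc_eq⟩ : ∃ c, c = (lam - d - kap - 3) / 2 := ⟨_, rfl⟩
  have hc1 : 2 * c + d + kap + 3 ≤ lam := by omega
  have hc2 : lam ≤ 2 * c + d + kap + 4 := by omega
  obtain ⟨q, hq, hq1, hq2⟩ := Nat.exists_prime_lt_and_le_two_mul (4 ^ c) (by positivity)
  have h4 : (4 : ℕ) ^ c = 2 ^ (2 * c) := by rw [pow_mul]; norm_num
  have hl : (2 * c + 1) * 2 ^ d ≤ 2 ^ (kap + d) := by
    rw [pow_add]
    exact Nat.mul_le_mul_right _ (by omega)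
  refine ⟨d, c, q, hd, hq, hq1.le, by omega, ?_, ?_, ?_, ?_, hB⟩
  · calc (9 * ((2 * c + 1) * 2 ^ d)) ^ 4 ≤ (9 * 2 ^ (kap + d)) ^ 4 :=
          Nat.pow_le_pow_left (Nat.mul_le_mul_left _ hl) 4
      _ = 6561 * 2 ^ (4 * (kap + d)) := by rw [mul_pow, ← pow_mul, mul_comm (kap + d) 4]; norm_num
      _ ≤ 2 ^ 13 * 2 ^ (4 * (kap + d)) := Nat.mul_le_mul_right _ (by norm_num)
      _ = 2 ^ (13 + 4 * (kap + d)) := by rw [← pow_add]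
      _ ≤ 2 ^ (2 * c) := Nat.pow_le_pow_right (by norm_num) (by omega)
      _ = 4 ^ c := h4.symm
      _ ≤ q := hq1.le
  · have e1 : (2 * c + 1) * 2 ^ d * q ≤ 2 ^ (lam - 2) := by
      calc (2 * c + 1) * 2 ^ d * q ≤ 2 ^ (kap + d) * (2 * 2 ^ (2 * c)) :=
            Nat.mul_le_mul hl (by rw [← h4]; exact hq2)
        _ = 2 ^ (kap + d + (1 + 2 * c)) := by rw [pow_add 2 (kap + d), pow_add 2 1, pow_one]
        _ ≤ 2 ^ (lam - 2) := Nat.pow_le_pow_right (by norm_num) (by omega)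
    have e2 : (2 : ℕ) ^ lam = 4 * 2 ^ (lam - 2) := by
      have : lam = 2 + (lam - 2) := by omega
      conv_lhs => rw [this, pow_add]
      norm_num
    have e3 : 1 ≤ (2 : ℕ) ^ (lam - 2) := Nat.one_le_two_pow
    omega
  · have e1 : (4 ^ c) ^ 2 ≤ q ^ 2 := Nat.pow_le_pow_left hq1.le 2
    have e2 : ((4 : ℕ) ^ c) ^ 2 = 2 ^ (4 * c) := by
      rw [h4, ← pow_mul]
      congr 1
      ring
    have e3 : ((2 * c + 1) * 2 ^ d) ^ 3 ≤ 2 ^ (3 * (kap + d)) := by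
      calc ((2 * c + 1) * 2 ^ d) ^ 3 ≤ (2 ^ (kap + d)) ^ 3 := Nat.pow_le_pow_left hl 3
        _ = 2 ^ (3 * (kap + d)) := by rw [← pow_mul, mul_comm]
    calc 4000 * ρ * ((2 * c + 1) * 2 ^ d) ^ 3 * (lam + 1)
        ≤ 2 ^ 12 * 2 ^ sig * 2 ^ (3 * (kap + d)) * 2 ^ kap :=
          Nat.mul_le_mul (Nat.mul_le_mul (Nat.mul_le_mul (by norm_num) (by omega)) e3) h2
      _ = 2 ^ (12 + sig + 3 * (kap + d) + kap) := by rw [← pow_add, ← pow_add, ← pow_add]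
      _ ≤ 2 ^ (4 * c) := Nat.pow_le_pow_right (by norm_num) (by omega)
      _ ≤ q ^ 2 := by rw [← e2]; exact e1
  · have e1 : (4 ^ c) ^ 2 ≤ q ^ 2 := Nat.pow_le_pow_left hq1.le 2
    have e2 : ((4 : ℕ) ^ c) ^ 2 = 2 ^ (4 * c) := by
      rw [h4, ← pow_mul]
      congr 1
      ring
    calc 2 ^ lam ≤ 2 ^ (4 * c) := Nat.pow_le_pow_right (by norm_num) (by omega)
      _ ≤ q ^ 2 := by rw [← e2]; exact e1

end Pool.Agent.Lib.OWC
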