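import Pool.Agent.Lib.OWC.PosDefs
import Pool.Agent.Lib.Pe46137.Family

/-!
# PathLem: families of words from polynomials

`exists_paths`: the values on `0, …, l - 1` of the polynomials of degree less than `m` over the field
`ZMod q`, `F = Polynomial.degreeLT (ZMod q) m` (`card_family`; `Fintype.ofFinite`, see
`Pe46137/Assembly.lean` for the instances), `w f i = f.1.eval ((i : ℕ) : ZMod q)`.  `count`: if
`|S| ≤ m`, the evaluation map `F → (S → ZMod q)` is linear and onto (Lagrange interpolation:
`Lagrange.interpolate`, of degree less than `|S|`; the points `(i : ZMod q)`, `i < l ≤ q`, are distinct,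
see `family`), so every fibre has `q ^ m / q ^ |S|` elements.  Perhaps simpler: injectivity only.
Given `|S| ≤ m`, choose (`q ≥ m` is not assumed, so do not enlarge `S`)
instead the difference trick: the fibre over `a` is empty or, subtracting a member, in bijection with
`{f ∈ F | f vanishes on S}`, which are the multiples `∏_{i ∈ S} (X - i) * g` with `g` of degree less than
`m - |S|`: at most `q ^ (m - |S|)` of them (map `f ↦ f / ∏ (X - i)` into `degreeLT (m - |S|)`).
If `|S| ≥ m`, at most one member: `Polynomial.eq_of_degree_sub_lt_of_eval_finset_eq` as in `family`.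

`count_map`: if `U.map (pw (w f0)) = S` then `U.map (pw (w f)) = S` implies `w f i = w f0 i` for
`i ∈ U` (`pw w i = (i, w i)`): `count` with `a = w f0`.  `count_at`: the same with `insert i U`.
`count_point`: `count` with `S = {i}`.  `map_inj`: the first coordinates of `U.map (pw w)` are `U`.
`almost_disjoint`: if `|S| ≥ m` then `S = S'` by `map_inj`, `w f = w f'` on `S`, and `count` for `S`,
`a = w f` says that there is at most `q ^ 0 = 1` such member.
-/

namespace Pool.Agent.Lib.OWC

open Finset Pool.Agent.Lib.Pe46137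

namespace PathLemAux

open Polynomial

/-- the polynomial vanishing on `S` -/
noncomputable def PP (q : ℕ) {l : ℕ} (S : Finset (Fin l)) : (ZMod q)[X] :=
  ∏ i ∈ S, (X - C ((i : ℕ) : ZMod q))

theorem PP_monic (q : ℕ) {l : ℕ} (S : Finset (Fin l)) : (PP q S).Monic :=
  monic_prod_of_monic _ _ fun _ _ => monic_X_sub_C _

theorem PP_natDegree (q : ℕ) [Fact q.Prime] {l : ℕ} (S : Finset (Fin l)) :
    (PP q S).natDegree = S.card := by
  rw [PP, natDegree_prod_of_monic _ _ fun _ _ => monic_X_sub_C _]
  simp only [natDegree_X_sub_C, sum_const, smul_eq_mul, mul_one]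

theorem PP_eval (q : ℕ) {l : ℕ} {S : Finset (Fin l)} {i : Fin l} (hi : i ∈ S) :
    (PP q S).eval ((i : ℕ) : ZMod q) = 0 := by
  rw [PP, eval_prod]
  exact Finset.prod_eq_zero hi (by simp)

theorem PP_degree (q : ℕ) [Fact q.Prime] {l : ℕ} (S : Finset (Fin l)) :
    (PP q S).degree = S.card := by
  rw [degree_eq_natDegree (PP_monic q S).ne_zero, PP_natDegree]

theorem eval_mod (q : ℕ) {l : ℕ} {S : Finset (Fin l)} {i : Fin l} (hi : i ∈ S) (f : (ZMod q)[X]) :
    (f %ₘ PP q S).eval ((i : ℕ) : ZMod q) = f.eval ((i : ℕ) : ZMod q) := by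
  have h := congrArg (eval ((i : ℕ) : ZMod q)) (modByMonic_add_div f (PP q S))
  rwa [eval_add, eval_mul, PP_eval q hi, zero_mul, add_zero] at h

theorem mod_eq {l q : ℕ} [Fact q.Prime] (hlq : l ≤ q) {S : Finset (Fin l)} {f f' : (ZMod q)[X]}
    (h : ∀ i ∈ S, f.eval ((i : ℕ) : ZMod q) = f'.eval ((i : ℕ) : ZMod q)) :
    f %ₘ PP q S = f' %ₘ PP q S := by
  classical
  have hinj : Set.InjOn (fun i : Fin l => ((i : ℕ) : ZMod q)) S := by
    intro i _ j _ hij
    have h1 : ((i : ℕ) : ZMod q) = ((j : ℕ) : ZMod q) := hij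
    rw [ZMod.natCast_eq_natCast_iff'] at h1
    rw [Nat.mod_eq_of_lt (lt_of_lt_of_le i.2 hlq), Nat.mod_eq_of_lt (lt_of_lt_of_le j.2 hlq)] at h1
    exact Fin.ext h1
  have hcard : (S.image (fun i : Fin l => ((i : ℕ) : ZMod q))).card = S.card :=
    card_image_of_injOn hinj
  refine Polynomial.eq_of_degree_sub_lt_of_eval_finset_eq
    (S.image (fun i : Fin l => ((i : ℕ) : ZMod q))) ?_ ?_
  · rw [hcard, ← PP_degree q S]
    refine (degree_sub_le _ _).trans_lt (max_lt ?_ ?_)
    · exact degree_modByMonic_lt _ (PP_monic q S)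
    · exact degree_modByMonic_lt _ (PP_monic q S)
  · intro x hx
    obtain ⟨i, hi, rfl⟩ := mem_image.mp hx
    rw [eval_mod q hi, eval_mod q hi]
    exact h i hi

theorem div_mem {l q m : ℕ} [Fact q.Prime] (S : Finset (Fin l)) {f : (ZMod q)[X]}
    (hf : f ∈ degreeLT (ZMod q) m) : f /ₘ PP q S ∈ degreeLT (ZMod q) (m - S.card) := by
  rw [mem_degreeLT] at hf ⊢
  rcases eq_or_ne (f /ₘ PP q S) 0 with h0 | h0
  · rw [h0, degree_zero]
    exact WithBot.bot_lt_coe _
  · have hf0 : f ≠ 0 := by
      rintro rfl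
      exact h0 (zero_divByMonic _)
    have h1 : ¬ f.degree < (PP q S).degree := fun h => h0 ((divByMonic_eq_zero_iff (PP_monic q S)).2 h)
    rw [PP_degree, degree_eq_natDegree hf0, not_lt] at h1
    have h2 : S.card ≤ f.natDegree := by exact_mod_cast h1
    rw [degree_eq_natDegree hf0] at hf
    have h3 : f.natDegree < m := by exact_mod_cast hf
    rw [degree_eq_natDegree h0, natDegree_divByMonic f (PP_monic q S), PP_natDegree]
    have h4 : f.natDegree - S.card < m - S.card := by omega
    exact_mod_cast h4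

end PathLemAux

theorem exists_paths {m l q : ℕ} [Fact q.Prime] (hlq : l ≤ q) :
    ∃ (F : Type) (_ : Fintype F) (w : F → Fin l → ZMod q), Paths q m w := by
  classical
  have hfin : ∀ n, Finite (Polynomial.degreeLT (ZMod q) n) := fun n =>
    Finite.of_equiv _ (Polynomial.degreeLTEquiv (ZMod q) n).toEquiv.symm
  have hft : ∀ n, Fintype (Polynomial.degreeLT (ZMod q) n) := fun n => by
    have := hfin n
    exact Fintype.ofFinite _
  refine ⟨Polynomial.degreeLT (ZMod q) m, hft m, fun f i => f.1.eval ((i : ℕ) : ZMod q), ?_, ?_⟩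
  · rw [← Nat.card_eq_fintype_card]
    exact card_family
  · intro S a
    have hc : Fintype.card (Polynomial.degreeLT (ZMod q) (m - S.card)) = q ^ (m - S.card) := by
      rw [← Nat.card_eq_fintype_card]
      exact card_family
    rw [← hc, ← Finset.card_univ]
    refine Finset.card_le_card_of_injOn
      (fun f => ⟨f.1 /ₘ PathLemAux.PP q S, PathLemAux.div_mem S f.2⟩)
      (fun _ _ => Finset.mem_coe.2 (Finset.mem_univ _)) ?_
    intro f hf f' hf' h
    have h1 := (mem_filter.1 (Finset.mem_coe.1 hf)).2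
    have h2 := (mem_filter.1 (Finset.mem_coe.1 hf')).2
    have h3 : f.1 /ₘ PathLemAux.PP q S = f'.1 /ₘ PathLemAux.PP q S := congrArg Subtype.val h
    have h4 : f.1 %ₘ PathLemAux.PP q S = f'.1 %ₘ PathLemAux.PP q S :=
      PathLemAux.mod_eq hlq fun i hi => (h1 i hi).trans (h2 i hi).symm
    apply Subtype.ext
    rw [← Polynomial.modByMonic_add_div f.1 (PathLemAux.PP q S),
      ← Polynomial.modByMonic_add_div f'.1 (PathLemAux.PP q S), h3, h4]

theorem PathLemAux.map_val {l q : ℕ} {w w' : Fin l → ZMod q} {U : Finset (Fin l)}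
    (h : U.map (pw w) = U.map (pw w')) : ∀ i ∈ U, w i = w' i := by
  intro i hi
  have h1 : pw w i ∈ U.map (pw w') := by
    rw [← h]
    exact mem_map_of_mem _ hi
  obtain ⟨j, _, hj⟩ := mem_map.mp h1
  have h2 : (pw w' j).1 = (pw w i).1 := congrArg Prod.fst hj
  have h3 : (pw w' j).2 = (pw w i).2 := congrArg Prod.snd hj
  have h4 : j = i := h2
  subst h4
  exact h3.symm

variable {m l q : ℕ} {F : Type} [Fintype F] {w : F → Fin l → ZMod q}

theorem map_pw_inj {w w' : Fin l → ZMod q} {U U' : Finset (Fin l)}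
    (h : U.map (pw w) = U'.map (pw w')) : U = U' := by
  classical
  have h1 := congrArg (Finset.image Prod.fst) h
  have h2 : ∀ (v : Fin l → ZMod q) (V : Finset (Fin l)), (V.map (pw v)).image Prod.fst = V := by
    intro v V
    ext i
    simp only [mem_image, mem_map]
    constructor
    · rintro ⟨p, ⟨j, hj, rfl⟩, rfl⟩
      exact hj
    · intro hi
      exact ⟨_, ⟨i, hi, rfl⟩, rfl⟩
  rwa [h2, h2] at h1

theorem Paths.count_map (hw : Paths q m w) (U : Finset (Fin l)) (S : Finset (Fin l × ZMod q)) :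
    (univ.filter (fun f => U.map (pw (w f)) = S)).card ≤ q ^ (m - U.card) := by
  rcases (univ.filter (fun f => U.map (pw (w f)) = S)).eq_empty_or_nonempty with he | ⟨f0, hf0⟩
  · rw [he, card_empty]
    exact Nat.zero_le _
  · refine (card_le_card ?_).trans (hw.count U (w f0))
    intro f hf
    exact mem_filter.2 ⟨mem_univ _, PathLemAux.map_val ((mem_filter.1 hf).2.trans (mem_filter.1 hf0).2.symm)⟩

theorem Paths.count_at (hw : Paths q m w) (i : Fin l) (a : ZMod q) (U : Finset (Fin l))
    (hi : i ∉ U) (S : Finset (Fin l × ZMod q)) :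
    ((univ.filter (fun f => w f i = a)).filter (fun f => U.map (pw (w f)) = S)).card ≤
      q ^ (m - (U.card + 1)) := by
  rcases ((univ.filter (fun f => w f i = a)).filter
    (fun f => U.map (pw (w f)) = S)).eq_empty_or_nonempty with he | ⟨f0, hf0⟩
  · rw [he, card_empty]
    exact Nat.zero_le _
  · rw [← card_insert_of_notMem hi]
    refine (card_le_card ?_).trans (hw.count (insert i U) (w f0))
    intro f hf
    obtain ⟨hf1, hf2⟩ := mem_filter.1 hf
    obtain ⟨hg1, hg2⟩ := mem_filter.1 hf0
    refine mem_filter.2 ⟨mem_univ _, ?_⟩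
    rw [forall_mem_insert]
    exact ⟨(mem_filter.1 hf1).2.trans (mem_filter.1 hg1).2.symm, PathLemAux.map_val (hf2.trans hg2.symm)⟩

theorem Paths.count_point (hw : Paths q m w) (i : Fin l) (a : ZMod q) :
    (univ.filter (fun f => w f i = a)).card ≤ q ^ (m - 1) := by
  refine (card_le_card ?_).trans ((hw.count {i} fun _ => a).trans (le_of_eq (by rw [card_singleton])))
  intro f hf
  refine mem_filter.2 ⟨mem_univ _, fun j hj => ?_⟩
  rw [mem_singleton.1 hj]
  exact (mem_filter.1 hf).2

theorem Paths.almost_disjoint (hw : Paths q m w) {f f' : F} (hne : f ≠ f')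
    {S S' : Finset (Fin l)} (h : S.map (pw (w f)) = S'.map (pw (w f'))) : S.card < m := by
  by_contra hc
  push Not at hc
  have hS := map_pw_inj h
  subst hS
  have h1 := hw.count S (w f)
  rw [Nat.sub_eq_zero_of_le hc, pow_zero] at h1
  have h2 : ∀ i ∈ S, w f i = w f' i := PathLemAux.map_val h
  exact hne (card_le_one.1 h1 f (mem_filter.2 ⟨mem_univ _, fun _ _ => rfl⟩) f'
    (mem_filter.2 ⟨mem_univ _, fun i hi => (h2 i hi).symm⟩))

end Pool.Agent.Lib.OWC
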