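import Pool.Agent.Lib.Pe46137.Nice

/-!
Pebbling functionals, their dual vectors, and the test functions of the arcs of a path.
(The notions `ext`, `Cross` of `Pe46137/Nice.lean` are used.)
-/

namespace Pool.Agent.Lib.OWC

open Finset Pool.Agent.Lib.Pe46137

variable {l : ℕ}

/-- `pe U` is the pseudo-expectation of the monomial with support `U`: values in `[0, 1]`, invariant
under the reversible pebbling moves with at most `d` pebbles, zero if the last position is
occupied -/
structure Pseudo (d l : ℕ) (pe : Finset (Fin l) → ℝ) : Prop where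
  nonneg : ∀ U, 0 ≤ pe U
  le_one : ∀ U, pe U ≤ 1
  empty : pe ∅ = 1
  move : ∀ (U : Finset (Fin l)) (i : Fin l), (insert i U).card ≤ d →
    ((i : ℕ) = 0 ∨ ∃ j ∈ U, (j : ℕ) + 1 = i) → pe (insert i U) = pe U
  last : ∀ (U : Finset (Fin l)) (i : Fin l), i ∈ U → (i : ℕ) + 1 = l → pe U = 0

/-- pseudo-expectation of a character -/
noncomputable def pHat (pe : Finset (Fin l) → ℝ) (U : Finset (Fin l)) : ℝ :=
  ∑ T ∈ U.powerset, (-2) ^ T.card * pe T

/-- the dual vector -/
noncomputable def pvec (d : ℕ) (pe : Finset (Fin l) → ℝ) (y : Fin l → Bool) : ℝ :=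
  ∑ U : Finset (Fin l) with U.card ≤ d, pHat pe U * chi U y

/-- crossing at the arc `o`, never if `o` is `none` -/
def CrossO (o : Option ℕ) (y : Fin l → Bool) : Prop := ∃ i ∈ o, Cross i y

/-- the test function of the arc `o` -/
noncomputable def gopt (d : ℕ) (pe : Finset (Fin l) → ℝ) (o : Option ℕ) (y : Fin l → Bool) : ℝ :=
  open Classical in if CrossO o y then 0 else pvec d pe y

/-- the value of the functional for the path `p` -/
noncomputable def Phi {Q : Type*} [Fintype Q] [DecidableEq Q] (d : ℕ) (pe : Finset (Fin l) → ℝ)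
    (p : Fin l ↪ Q) (h : (Q → Bool) → ℝ) : ℝ :=
  avg (fun x => h x * pvec d pe (fun j => x (p j)))

end Pool.Agent.Lib.OWC
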