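import Mathlib

/-!
# Weights: weights on `0, …, 2 c` that decrease geometrically from the centre

Take `ω j = 2 ^ (-|j - c|) / Z`, `Z = ∑ j ∈ range (2 c + 1), 2 ^ (-|j - c|)`, `1 ≤ Z ≤ 3`.
(Lean: `u j = (1/2) ^ (max j c - min j c)` or `(1/2) ^ ((c - j) + (j - c))` with truncated
subtraction.)  Unnormalised tails for `c ≤ j ≤ 2 c`: `∑_{j ≤ k ≤ 2 c} 2 ^ (c - k) =
2 * 2 ^ (c - j) - 2 ^ (-c)`; the whole sum is `3 - 2 * 2 ^ (-c)`.

* `tail (j+1) ≥ tail j / 4` for `j < 2 c`: if `j ≥ c`, then `tail (j + 1) = 2 ^ (c - j) - 2 ^ (-c) ≥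
  2 ^ (c - j) / 2 ≥ tail j / 4` because `2 ^ (-c) ≤ 2 ^ (c - j) / 2` for `j + 1 ≤ 2 c`.  If `j < c`,
  then `tail (j + 1)` contains the term `k = c`, so it is `≥ 1 / Z ≥ 1 / 3`, and `tail j ≤ 1`:
  `tail j ≤ 1 ≤ 4 / 3 ≤ 4 * tail (j + 1)`.
* the heads are the tails of the reversed (symmetric) weights: use `ω (2 c - j) = ω j` and
  `Finset.sum_range_reflect` (or repeat the argument).
* `ω 0 = ω (2 c) = 2 ^ (-c) / Z` is between `2 ^ (-c) / 3` and `2 ^ (-c)`.

An alternative to closed formulas: for `c ≤ j < 2 c` the term `u (j + 1) = u j / 2`, so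
`tail (j + 1) ≥ u (j + 1) = u j / 2` and `tail j = u j + tail (j + 1) ≤ 3 * tail (j + 1)`.
(This is the shortest way: no geometric sum is needed except `Z ≤ 3`.)
-/

namespace Pool.Agent.Lib.OWC

open Finset

namespace WeightsAux

/-- the weights before normalisation -/
noncomputable def u (c j : ℕ) : ℝ := (1 / 2) ^ ((c - j) + (j - c))

lemma u_pos (c j : ℕ) : 0 < u c j := by unfold u; positivity

lemma u_le_one (c j : ℕ) : u c j ≤ 1 := pow_le_one₀ (by norm_num) (by norm_num)

lemma u_self (c : ℕ) : u c c = 1 := by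
  unfold u
  simp

lemma u_succ_of_le {c j : ℕ} (h : c ≤ j) : u c j = 2 * u c (j + 1) := by
  unfold u
  have e1 : (c - j) + (j - c) = j - c := by omega
  have e2 : (c - (j + 1)) + (j + 1 - c) = (j - c) + 1 := by omega
  rw [e1, e2, pow_succ]
  ring

lemma u_succ_of_lt {c j : ℕ} (h : j + 1 ≤ c) : u c (j + 1) = 2 * u c j := by
  unfold u
  have e1 : (c - j) + (j - c) = (c - (j + 1)) + 1 := by omega
  have e2 : (c - (j + 1)) + (j + 1 - c) = c - (j + 1) := by omega
  rw [e1, e2, pow_succ]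
  ring

/-- the sum of the weights -/
noncomputable def Z (c : ℕ) : ℝ := ∑ j ∈ range (2 * c + 1), u c j

lemma one_le_Z (c : ℕ) : 1 ≤ Z c := by
  unfold Z
  rw [← u_self c]
  exact single_le_sum (f := fun j => u c j) (fun j _ => (u_pos c j).le) (mem_range.2 (by omega))

lemma Z_le (c : ℕ) : Z c ≤ 3 := by
  unfold Z
  rw [show 2 * c + 1 = (c + 1) + c by ring, sum_range_add]
  have h1 : ∑ j ∈ range (c + 1), u c j ≤ 2 := by
    rw [← sum_range_reflect]
    refine le_trans (le_of_eq ?_) (sum_geometric_two_le (c + 1))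
    refine sum_congr rfl fun j hj => ?_
    have := mem_range.1 hj
    unfold u
    congr 1
    omega
  have h2 : ∑ k ∈ range c, u c (c + 1 + k) ≤ 1 := by
    have h3 : ∑ k ∈ range c, u c (c + 1 + k) = 1 / 2 * ∑ k ∈ range c, (1 / (2 : ℝ)) ^ k := by
      rw [mul_sum]
      refine sum_congr rfl fun k _ => ?_
      unfold u
      have e : (c - (c + 1 + k)) + (c + 1 + k - c) = k + 1 := by omega
      rw [e, pow_succ]
      ring
    rw [h3]
    have := sum_geometric_two_le c
    linarith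
  linarith

lemma tail_step {c j : ℕ} (hj : j < 2 * c) :
    ∑ k ∈ (range (2 * c + 1)).filter (fun k => j ≤ k), u c k ≤
      4 * ∑ k ∈ (range (2 * c + 1)).filter (fun k => j + 1 ≤ k), u c k := by
  have h1 : (range (2 * c + 1)).filter (fun k => j ≤ k) =
      insert j ((range (2 * c + 1)).filter (fun k => j + 1 ≤ k)) := by
    ext k
    simp only [mem_filter, mem_range, mem_insert]
    omega
  rw [h1, sum_insert (by simp)]
  have h2 : u c j ≤ 2 * ∑ k ∈ (range (2 * c + 1)).filter (fun k => j + 1 ≤ k), u c k := by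
    rcases le_or_gt c j with h | h
    · rw [u_succ_of_le h]
      refine mul_le_mul_of_nonneg_left ?_ (by norm_num)
      refine single_le_sum (f := fun j => u c j) (fun j _ => (u_pos c j).le) ?_
      simp only [mem_filter, mem_range]
      omega
    · have h3 : 1 ≤ ∑ k ∈ (range (2 * c + 1)).filter (fun k => j + 1 ≤ k), u c k := by
        rw [← u_self c]
        refine single_le_sum (f := fun j => u c j) (fun j _ => (u_pos c j).le) ?_
        simp only [mem_filter, mem_range]
        omega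
      have := u_le_one c j
      linarith
  have h3 : 0 ≤ ∑ k ∈ (range (2 * c + 1)).filter (fun k => j + 1 ≤ k), u c k :=
    sum_nonneg fun k _ => (u_pos c k).le
  linarith

lemma head_step {c j : ℕ} (hj : j + 1 ≤ 2 * c) :
    ∑ k ∈ (range (2 * c + 1)).filter (fun k => k ≤ j + 1), u c k ≤
      4 * ∑ k ∈ (range (2 * c + 1)).filter (fun k => k ≤ j), u c k := by
  have h1 : (range (2 * c + 1)).filter (fun k => k ≤ j + 1) =
      insert (j + 1) ((range (2 * c + 1)).filter (fun k => k ≤ j)) := by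
    ext k
    simp only [mem_filter, mem_range, mem_insert]
    omega
  rw [h1, sum_insert (by simp)]
  have h2 : u c (j + 1) ≤ 2 * ∑ k ∈ (range (2 * c + 1)).filter (fun k => k ≤ j), u c k := by
    rcases le_or_gt (j + 1) c with h | h
    · rw [u_succ_of_lt h]
      refine mul_le_mul_of_nonneg_left ?_ (by norm_num)
      refine single_le_sum (f := fun j => u c j) (fun j _ => (u_pos c j).le) ?_
      simp only [mem_filter, mem_range]
      omega
    · have h3 : 1 ≤ ∑ k ∈ (range (2 * c + 1)).filter (fun k => k ≤ j), u c k := by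
        rw [← u_self c]
        refine single_le_sum (f := fun j => u c j) (fun j _ => (u_pos c j).le) ?_
        simp only [mem_filter, mem_range]
        omega
      have := u_le_one c (j + 1)
      linarith
  have h3 : 0 ≤ ∑ k ∈ (range (2 * c + 1)).filter (fun k => k ≤ j), u c k :=
    sum_nonneg fun k _ => (u_pos c k).le
  linarith

end WeightsAux

open WeightsAux in
theorem exists_weights (c : ℕ) : ∃ ω : ℕ → ℝ, (∀ j, 0 ≤ ω j) ∧
    ∑ j ∈ range (2 * c + 1), ω j = 1 ∧
    (∀ j < 2 * c, ∑ k ∈ (range (2 * c + 1)).filter (fun k => j ≤ k), ω k ≤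
      4 * ∑ k ∈ (range (2 * c + 1)).filter (fun k => j + 1 ≤ k), ω k) ∧
    (∀ j, j + 1 ≤ 2 * c → ∑ k ∈ (range (2 * c + 1)).filter (fun k => k ≤ j + 1), ω k ≤
      4 * ∑ k ∈ (range (2 * c + 1)).filter (fun k => k ≤ j), ω k) ∧
    1 / (3 * 2 ^ c) ≤ ω 0 ∧ ω 0 ≤ 1 / 2 ^ c ∧
    1 / (3 * 2 ^ c) ≤ ω (2 * c) ∧ ω (2 * c) ≤ 1 / 2 ^ c := by
  have hZ1 := one_le_Z c
  have hZ3 := Z_le c
  have hZ0 : 0 < Z c := by linarith
  have h0 : u c 0 = 1 / 2 ^ c := by
    unfold u
    rw [show (c - 0) + (0 - c) = c by omega, one_div, inv_pow, one_div]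
  have h2 : u c (2 * c) = 1 / 2 ^ c := by
    unfold u
    rw [show (c - 2 * c) + (2 * c - c) = c by omega, one_div, inv_pow, one_div]
  have hlow : (1 : ℝ) / (3 * 2 ^ c) ≤ 1 / 2 ^ c / Z c := by
    rw [div_div]
    refine one_div_le_one_div_of_le (by positivity) ?_
    rw [mul_comm]
    exact mul_le_mul_of_nonneg_right hZ3 (by positivity)
  have hup : (1 : ℝ) / 2 ^ c / Z c ≤ 1 / 2 ^ c := div_le_self (by positivity) hZ1
  refine ⟨fun j => u c j / Z c, fun j => div_nonneg (u_pos c j).le hZ0.le, ?_, ?_, ?_, ?_, ?_, ?_, ?_⟩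
  · rw [← sum_div]
    exact div_self hZ0.ne'
  · intro j hj
    rw [← sum_div, ← sum_div, ← mul_div_assoc]
    exact div_le_div_of_nonneg_right (tail_step hj) hZ0.le
  · intro j hj
    rw [← sum_div, ← sum_div, ← mul_div_assoc]
    exact div_le_div_of_nonneg_right (head_step hj) hZ0.le
  · simp only
    rw [h0]
    exact hlow
  · simp only
    rw [h0]
    exact hup
  · simp only
    rw [h2]
    exact hlow
  · simp only
    rw [h2]
    exact hup

end Pool.Agent.Lib.OWC
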